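import Pool.Agent.Sheet.Basic

/-!
# SHEET, module BASE: the Laplace bound for independent intervals
-/

open MeasureTheory ProbabilityTheory

namespace Sheet

namespace Base81

/-- Jensen for a normalised average -/
lemma exp_neg_avg_le {α : Type*} [Fintype α] [Nonempty α] (f : α → ℝ) :
    Real.exp (-avg f) ≤ avg (fun a => Real.exp (-f a)) := by
  have hc : (0 : ℝ) < Fintype.card α := by exact_mod_cast Fintype.card_pos
  have h := ConvexOn.map_sum_le (t := (Finset.univ : Finset α)) (w := fun _ => (Fintype.card α : ℝ)⁻¹)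
    (p := fun a => -f a) convexOn_exp (fun _ _ => by positivity)
    (by rw [Finset.sum_const, Finset.card_univ, nsmul_eq_mul, mul_inv_cancel₀ hc.ne'])
    (fun _ _ => Set.mem_univ _)
  simp only [smul_eq_mul] at h
  rw [← Finset.mul_sum, ← Finset.mul_sum] at h
  unfold avg
  rw [div_eq_inv_mul, div_eq_inv_mul]
  refine le_trans (le_of_eq ?_) h
  rw [Finset.sum_neg_distrib, mul_neg]

lemma exp_neg_lam_le {lam z : ℝ} (h0 : 0 ≤ lam) (h1 : lam ≤ 1) :
    Real.exp (-(lam * z)) ≤ 1 - lam + lam * Real.exp (-z) := by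
  have h := convexOn_exp.2 (Set.mem_univ (-z)) (Set.mem_univ (0 : ℝ)) h0
    (by linarith : (0 : ℝ) ≤ 1 - lam) (by ring)
  simp only [smul_eq_mul, mul_zero, add_zero, Real.exp_zero, mul_one, mul_neg] at h
  linarith

/-- the gaussian density is at most `2/5` -/
lemma gaussianPDF_le (x : ℝ) : gaussianPDFReal 0 1 x ≤ 2 / 5 := by
  unfold gaussianPDFReal
  have h1 : Real.exp (-(x - 0) ^ 2 / (2 * ((1 : NNReal) : ℝ))) ≤ 1 := by
    rw [Real.exp_le_one_iff]
    have : (0 : ℝ) ≤ (x - 0) ^ 2 := sq_nonneg _
    simp only [NNReal.coe_one, mul_one]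
    linarith
  have h2 : (√(2 * Real.pi * ((1 : NNReal) : ℝ)))⁻¹ ≤ 2 / 5 := by
    rw [inv_le_comm₀ (by positivity) (by norm_num)]
    apply Real.le_sqrt_of_sq_le
    have := Real.pi_gt_d2
    simp only [NNReal.coe_one, mul_one]
    linarith
  calc (√(2 * Real.pi * ((1 : NNReal) : ℝ)))⁻¹ *
        Real.exp (-(x - 0) ^ 2 / (2 * ((1 : NNReal) : ℝ))) ≤ 2 / 5 * 1 := by gcongr
    _ = 2 / 5 := mul_one _

/-- anticoncentration of a gaussian -/
lemma gauss_interval_le {a b : ℝ} (hab : a ≤ b) :
    (gaussianReal 0 1).real (Set.Icc a b) ≤ 2 / 5 * (b - a) := by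
  rw [measureReal_def, gaussianReal_apply 0 one_ne_zero]
  have h1 : ∫⁻ x in Set.Icc a b, gaussianPDF 0 1 x ≤ ∫⁻ _ in Set.Icc a b, ENNReal.ofReal (2 / 5) := by
    apply lintegral_mono
    intro x
    exact ENNReal.ofReal_le_ofReal (gaussianPDF_le x)
  rw [setLIntegral_const, Real.volume_Icc, ← ENNReal.ofReal_mul (by norm_num)] at h1
  exact ENNReal.toReal_le_of_le_ofReal (by nlinarith) h1

/-- one interval -/
lemma one_interval {T a : ℝ} (hT : 1 / 2 ≤ T) :
    ∫ g, Real.exp (-|T * g + a|) ∂(gaussianReal 0 1) ≤ 9 / 10 := by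
  set s : Set ℝ := Set.Icc (-((1 / 4 + a) / T)) ((1 / 4 - a) / T) with hs
  have hT0 : 0 < T := by linarith
  have hle : ∀ g : ℝ, Real.exp (-|T * g + a|) ≤
      4 / 5 + s.indicator (fun _ => (1 / 5 : ℝ)) g := by
    intro g
    by_cases hg : g ∈ s
    · rw [Set.indicator_of_mem hg]
      have : Real.exp (-|T * g + a|) ≤ 1 := by
        rw [Real.exp_le_one_iff]
        linarith [abs_nonneg (T * g + a)]
      linarith
    · rw [Set.indicator_of_notMem hg, add_zero]
      have h2 : 1 / 4 ≤ |T * g + a| := by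
        by_contra hcon
        push Not at hcon
        rw [abs_lt] at hcon
        apply hg
        constructor
        · rw [neg_le, le_div_iff₀ hT0]
          linarith [hcon.1, hcon.2]
        · rw [le_div_iff₀ hT0]
          linarith [hcon.1, hcon.2]
      have h3 : Real.exp (-|T * g + a|) ≤ Real.exp (-(1 / 4)) := Real.exp_le_exp.2 (by linarith)
      have h4 : Real.exp (-(1 / 4)) ≤ 4 / 5 := by
        rw [Real.exp_neg, inv_le_comm₀ (Real.exp_pos _) (by norm_num)]
        have := Real.add_one_le_exp (1 / 4 : ℝ)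
        linarith
      linarith
  have hint : Integrable (fun g => 4 / 5 + s.indicator (fun _ => (1 / 5 : ℝ)) g)
      (gaussianReal 0 1) := by
    refine (integrable_const _).add ?_
    exact (integrable_const _).indicator measurableSet_Icc
  have h5 := integral_mono_of_nonneg (μ := gaussianReal 0 1)
    (Filter.Eventually.of_forall fun g => (Real.exp_pos (-|T * g + a|)).le) hint
    (Filter.Eventually.of_forall hle)
  refine h5.trans ?_
  rw [integral_add (integrable_const _) ((integrable_const _).indicator measurableSet_Icc),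
    integral_const, integral_indicator measurableSet_Icc, setIntegral_const]
  have h0 : (gaussianReal 0 1).real Set.univ = 1 := by simp
  simp only [h0, smul_eq_mul, one_mul]
  have h6 := gauss_interval_le (a := -((1 / 4 + a) / T)) (b := (1 / 4 - a) / T) (by
    rw [neg_le_iff_add_nonneg, ← add_div]
    apply div_nonneg _ hT0.le
    linarith)
  have h7 : (1 / 4 - a) / T - -((1 / 4 + a) / T) ≤ 1 := by
    rw [sub_neg_eq_add, ← add_div, div_le_one hT0]
    linarith
  nlinarith

/-- four subtrees, avg over the first digit -/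
lemma exp_avg_split (L : ℕ) (r : ℝ) (F : Dig → Grid L × Unit → ℝ)
    (θ : Grid (L + 1) × Unit → ℝ) :
    Real.exp (-(r * avg (fun z : Grid (L + 1) × Unit => |F z.1.1 (z.1.2, z.2) + θ z|))) =
      ∏ e : Dig, Real.exp (-(r / 4 * avg (fun z : Grid L × Unit => |F e z + θ ((e, z.1), z.2)|))) := by
  rw [← Real.exp_sum]
  congr 1
  rw [Finset.sum_neg_distrib, ← Finset.mul_sum]
  congr 1
  have h1 : avg (fun z : Grid (L + 1) × Unit => |F z.1.1 (z.1.2, z.2) + θ z|) =
      avg (fun e : Dig => avg (fun z : Grid L × Unit => |F e z + θ ((e, z.1), z.2)|)) := by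
    rw [avg_prod, avg_grid_succ]
    congr 1
    funext e
    rw [avg_prod]
  rw [h1]
  unfold avg
  rw [card_dig]
  ring

lemma inner_tent (L : ℕ) (s : Bool) (y : Grid L) : 1 / 2 ≤ tent (L + 1) ((true, s), y) := by
  rw [tent_succ]
  have h := abs_zeta_le L y
  rw [abs_le] at h
  cases s <;> simp only [sg_true, sg_false] <;> linarith [h.1, h.2]

lemma integral_unit {h : ℝ → ℝ} (hh : Continuous h) :
    ∫ g, h (g ()) ∂(Measure.pi fun _ : Unit => gaussianReal 0 1) = ∫ t, h t ∂(gaussianReal 0 1) := by
  have h1 := (measurePreserving_eval (fun _ : Unit => gaussianReal 0 1) ()).map_eq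
  conv_rhs => rw [← h1]
  rw [integral_map (measurable_pi_apply ()).aemeasurable hh.aestronglyMeasurable]

/-- the gaussian variable of one block, any shift -/
lemma block (L : ℕ) (θ : Grid (L + 1) × Unit → ℝ) {lam : ℝ} (h0 : 0 < lam) (h1 : lam ≤ 1) :
    ∫ g : Unit → ℝ, Real.exp (-(lam * avg (fun z : Grid (L + 1) × Unit =>
        |tent (L + 1) z.1 * g z.2 + θ z|))) ∂(Measure.pi fun _ : Unit => gaussianReal 0 1)
      ≤ Real.exp (-(1 / 20 * lam)) := by
  set μ : Measure (Unit → ℝ) := Measure.pi fun _ : Unit => gaussianReal 0 1 with hμ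
  have hne : Nonempty (Grid (L + 1) × Unit) := inferInstance
  have hcz : ∀ z : Grid (L + 1) × Unit, Continuous (fun g : Unit → ℝ =>
      Real.exp (-|tent (L + 1) z.1 * g z.2 + θ z|)) := fun z => by fun_prop
  have hiz : ∀ z : Grid (L + 1) × Unit, Integrable (fun g : Unit → ℝ =>
      Real.exp (-|tent (L + 1) z.1 * g z.2 + θ z|)) μ := fun z => by
    refine Integrable.of_bound (hcz z).aestronglyMeasurable 1 (Filter.Eventually.of_forall fun g => ?_)
    rw [Real.norm_eq_abs, Real.abs_exp, Real.exp_le_one_iff]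
    linarith [abs_nonneg (tent (L + 1) z.1 * g z.2 + θ z)]
  have hp : ∀ g : Unit → ℝ, Real.exp (-(lam * avg (fun z : Grid (L + 1) × Unit =>
        |tent (L + 1) z.1 * g z.2 + θ z|))) ≤
      1 - lam + lam * avg (fun z : Grid (L + 1) × Unit =>
        Real.exp (-|tent (L + 1) z.1 * g z.2 + θ z|)) := by
    intro g
    refine (exp_neg_lam_le h0.le h1).trans ?_
    have := exp_neg_avg_le (fun z : Grid (L + 1) × Unit => |tent (L + 1) z.1 * g z.2 + θ z|)
    nlinarith
  have hint : Integrable (fun g : Unit → ℝ => 1 - lam + lam * avg (fun z : Grid (L + 1) × Unit =>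
        Real.exp (-|tent (L + 1) z.1 * g z.2 + θ z|))) μ := by
    refine (integrable_const _).add (Integrable.const_mul ?_ _)
    unfold avg
    exact (integrable_finsetSum _ fun z _ => hiz z).div_const _
  have h2 := integral_mono_of_nonneg (μ := μ)
    (Filter.Eventually.of_forall fun g => (Real.exp_pos (-(lam * avg
      (fun z : Grid (L + 1) × Unit => |tent (L + 1) z.1 * g z.2 + θ z|)))).le) hint
    (Filter.Eventually.of_forall hp)
  refine h2.trans ?_
  have h3 : ∫ g, (1 - lam + lam * avg (fun z : Grid (L + 1) × Unit =>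
        Real.exp (-|tent (L + 1) z.1 * g z.2 + θ z|))) ∂μ =
      1 - lam + lam * avg (fun z : Grid (L + 1) × Unit =>
        ∫ t, Real.exp (-|tent (L + 1) z.1 * t + θ z|) ∂(gaussianReal 0 1)) := by
    have e1 : ∀ z : Grid (L + 1) × Unit, ∫ g, Real.exp (-|tent (L + 1) z.1 * g z.2 + θ z|) ∂μ =
        ∫ t, Real.exp (-|tent (L + 1) z.1 * t + θ z|) ∂(gaussianReal 0 1) := fun z =>
      integral_unit (h := fun t => Real.exp (-|tent (L + 1) z.1 * t + θ z|)) (by fun_prop)
    have hi2 : Integrable (fun g : Unit → ℝ => avg (fun z : Grid (L + 1) × Unit =>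
        Real.exp (-|tent (L + 1) z.1 * g z.2 + θ z|))) μ := by
      unfold avg
      exact (integrable_finsetSum _ fun z _ => hiz z).div_const _
    rw [integral_add (integrable_const _) (hi2.const_mul _), integral_const, integral_const_mul]
    have e2 : ∫ g, avg (fun z : Grid (L + 1) × Unit =>
        Real.exp (-|tent (L + 1) z.1 * g z.2 + θ z|)) ∂μ = avg (fun z : Grid (L + 1) × Unit =>
        ∫ t, Real.exp (-|tent (L + 1) z.1 * t + θ z|) ∂(gaussianReal 0 1)) := by
      unfold avg
      rw [integral_div, integral_finsetSum _ fun z _ => hiz z]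
      simp only [e1]
    rw [e2]
    have : μ.real Set.univ = 1 := by simp
    rw [this, one_smul]
  rw [h3]
  set H : Grid (L + 1) × Unit → ℝ := fun z =>
    ∫ t, Real.exp (-|tent (L + 1) z.1 * t + θ z|) ∂(gaussianReal 0 1) with hH
  have hH1 : ∀ z, H z ≤ 1 := by
    intro z
    have h4 := integral_mono_of_nonneg (μ := gaussianReal 0 1)
      (f := fun t => Real.exp (-|tent (L + 1) z.1 * t + θ z|)) (g := fun _ => (1 : ℝ))
      (Filter.Eventually.of_forall fun t => (Real.exp_pos _).le) (integrable_const _)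
      (Filter.Eventually.of_forall fun t => by
        rw [Real.exp_le_one_iff]
        linarith [abs_nonneg (tent (L + 1) z.1 * t + θ z)])
    simpa using h4
  have hH2 : ∀ (s : Bool) (y : Grid L) (x : Unit), H (((true, s), y), x) ≤ 9 / 10 := fun s y x =>
    one_interval (inner_tent L s y)
  have h5 : avg H ≤ 19 / 20 := by
    rw [avg_prod, avg_grid_succ, avg_dig]
    have a1 : ∀ e : Dig, avg (fun y : Grid L => avg (fun x : Unit => H ((e, y), x))) ≤ 1 :=
      fun e => avg_le_of_le fun y => avg_le_of_le fun x => hH1 _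
    have a2 : ∀ s : Bool, avg (fun y : Grid L => avg (fun x : Unit => H (((true, s), y), x))) ≤
        9 / 10 := fun s => avg_le_of_le fun y => avg_le_of_le fun x => hH2 s y x
    linarith [a1 (false, true), a1 (false, false), a2 true, a2 false]
  have h6 := Real.add_one_le_exp (-(1 / 20 * lam))
  nlinarith

lemma level_zero (L : ℕ) (θ : Grid (L + 1) × Unit → ℝ) {lam : ℝ} (h0 : 0 < lam) (h1 : lam ≤ 1) :
    ∫ f, Real.exp (-(lam * avg (fun z => |f z + θ z|))) ∂(treeLaw nu0 1 (L + 1))
      ≤ Real.exp (-(1 / 20 * lam)) := by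
  have hp : ∀ h L, IsProbabilityMeasure (treeLaw nu0 h L) := isProb_treeLaw nu0 (fun J => isProb_nu0 J)
  have hcont : Continuous (fun f : Grid (L + 1) × Unit → ℝ =>
      Real.exp (-(lam * avg (fun z => |f z + θ z|)))) := by
    unfold avg
    fun_prop
  have e0 : treeLaw nu0 1 (L + 1) =
      ((nu0 0).prod (Measure.pi fun _ : Dig => treeLaw nu0 0 L)).map (glue L) := rfl
  have e1 : nu0 0 = Measure.pi fun _ : Unit => gaussianReal 0 1 := by
    unfold nu0
    rw [if_pos rfl]
  have hcont2 : Continuous (fun x => Real.exp (-(lam *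
      avg (fun z => |glue (P := Unit) L x z + θ z|)))) := hcont.comp (continuous_glue L)
  rw [e0, e1, integral_map (measurable_glue L).aemeasurable hcont.aestronglyMeasurable]
  have hint : Integrable (fun x => Real.exp (-(lam *
      avg (fun z => |glue (P := Unit) L x z + θ z|))))
      ((Measure.pi fun _ : Unit => gaussianReal 0 1).prod
        (Measure.pi fun _ : Dig => treeLaw nu0 0 L)) := by
    refine Integrable.of_bound hcont2.aestronglyMeasurable 1 (Filter.Eventually.of_forall fun x => ?_)
    rw [Real.norm_eq_abs, Real.abs_exp, Real.exp_le_one_iff]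
    have : 0 ≤ avg (fun z => |glue (P := Unit) L x z + θ z|) := avg_nonneg fun _ => abs_nonneg _
    nlinarith
  rw [integral_prod_symm _ hint]
  have hb : ∀ F : Dig → Grid L × Unit → ℝ, ∫ g : Unit → ℝ, Real.exp (-(lam *
      avg (fun z => |glue (P := Unit) L (g, F) z + θ z|)))
        ∂(Measure.pi fun _ : Unit => gaussianReal 0 1) ≤ Real.exp (-(1 / 20 * lam)) := by
    intro F
    have := block L (fun z => F z.1.1 (z.1.2, z.2) + θ z) h0 h1
    simpa only [glue, add_assoc] using this
  calc _ ≤ ∫ _F, Real.exp (-(1 / 20 * lam)) ∂(Measure.pi fun _ : Dig => treeLaw nu0 0 L) := by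
        apply integral_mono_of_nonneg
        · exact Filter.Eventually.of_forall fun F => integral_nonneg fun g => (Real.exp_pos _).le
        · exact integrable_const _
        · exact Filter.Eventually.of_forall hb
    _ = Real.exp (-(1 / 20 * lam)) := by simp

lemma main_ind : ∀ (J L : ℕ), J < L → ∀ (θ : Grid L × Unit → ℝ) (lam : ℝ), 0 < lam → lam ≤ 1 →
    ∫ f, Real.exp (-(lam * 4 ^ J * avg (fun z => |f z + θ z|))) ∂(treeLaw nu0 (J + 1) L)
      ≤ Real.exp (-(1 / 20 * lam * 4 ^ J))
  | 0, 0, h, _, _, _, _ => absurd h (lt_irrefl 0)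
  | 0, L + 1, _, θ, lam, h0, h1 => by
    simpa using level_zero L θ h0 h1
  | J + 1, 0, h, _, _, _, _ => absurd h (Nat.not_lt_zero _)
  | J + 1, L + 1, h, θ, lam, h0, h1 => by
    have ih := main_ind J L (by omega)
    have hp : ∀ h L, IsProbabilityMeasure (treeLaw nu0 h L) := isProb_treeLaw nu0 (fun J => isProb_nu0 J)
    have hcont : Continuous (fun f : Grid (L + 1) × Unit → ℝ =>
        Real.exp (-(lam * 4 ^ (J + 1) * avg (fun z => |f z + θ z|)))) := by
      unfold avg
      fun_prop
    have e0 : treeLaw nu0 (J + 1 + 1) (L + 1) =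
        ((nu0 (J + 1)).prod (Measure.pi fun _ : Dig => treeLaw nu0 (J + 1) L)).map (glue L) := rfl
    have e1 : nu0 (J + 1) = Measure.dirac 0 := by
      unfold nu0
      rw [if_neg (Nat.succ_ne_zero J)]
    have hcont2 : Continuous (fun x => Real.exp (-(lam * 4 ^ (J + 1) *
        avg (fun z => |glue (P := Unit) L x z + θ z|)))) := hcont.comp (continuous_glue L)
    rw [e0, e1, Measure.dirac_prod, integral_map (measurable_glue L).aemeasurable
      hcont.aestronglyMeasurable, integral_map measurable_prodMk_left.aemeasurable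
      hcont2.aestronglyMeasurable]
    have e2 : ∀ F : Dig → Grid L × Unit → ℝ,
        Real.exp (-(lam * 4 ^ (J + 1) * avg (fun z => |glue L (0, F) z + θ z|))) =
        ∏ e : Dig, Real.exp (-(lam * 4 ^ J *
          avg (fun z : Grid L × Unit => |F e z + θ ((e, z.1), z.2)|))) := by
      intro F
      have := exp_avg_split L (lam * 4 ^ (J + 1)) F θ
      rw [show lam * 4 ^ (J + 1) / 4 = lam * 4 ^ J by ring] at this
      rw [← this]
      simp only [glue, Pi.zero_apply, mul_zero, zero_add]
    simp only [e2]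
    rw [integral_fintype_prod_eq_prod (fun (e : Dig) (f : Grid L × Unit → ℝ) =>
      Real.exp (-(lam * 4 ^ J * avg (fun z : Grid L × Unit => |f z + θ ((e, z.1), z.2)|))))]
    calc _ ≤ ∏ _e : Dig, Real.exp (-(1 / 20 * lam * 4 ^ J)) := by
          apply Finset.prod_le_prod
          · intro e _
            exact integral_nonneg fun f => (Real.exp_pos _).le
          · intro e _
            exact ih _ lam h0 h1
      _ = Real.exp (-(1 / 20 * lam * 4 ^ (J + 1))) := by
          rw [Finset.prod_const, Finset.card_univ, ← Real.exp_nat_mul]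
          congr 1
          have : ((Fintype.card Dig : ℕ) : ℝ) = 4 := card_dig
          rw [this]
          ring

end Base81

theorem base : StmtBase := by
  refine ⟨1 / 20, by norm_num, fun L J hJ θ lam h0 h1 => ?_⟩
  have := Base81.main_ind J L hJ θ lam h0 h1
  simpa using this

end Sheet
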