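import Pool.Agent.Sheet.Skel

/-!
# SHEET: elementary lemmas on digits, `avg`, `zeta`, `tent`
-/

open MeasureTheory ProbabilityTheory

namespace Sheet

@[simp] lemma sg_true : sg true = 1 := rfl
@[simp] lemma sg_false : sg false = -1 := by simp [sg]

lemma sg_sq (b : Bool) : sg b * sg b = 1 := by cases b <;> simp

lemma abs_sg (b : Bool) : |sg b| = 1 := by cases b <;> simp

lemma sum_dig (F : Dig → ℝ) :
    ∑ e : Dig, F e = F (true, true) + F (true, false) + F (false, true) + F (false, false) := by
  rw [Fintype.sum_prod_type]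
  simp only [Fintype.sum_bool]
  ring

lemma card_dig : (Fintype.card Dig : ℝ) = 4 := by
  simp [Dig]

lemma card_grid_succ (L : ℕ) : Fintype.card (Grid (L + 1)) = 4 * Fintype.card (Grid L) := by
  have : Fintype.card (Grid (L + 1)) = Fintype.card (Dig × Grid L) := rfl
  rw [this, Fintype.card_prod]
  rfl

lemma card_grid_pos (L : ℕ) : 0 < (Fintype.card (Grid L) : ℝ) := by
  have : 0 < Fintype.card (Grid L) := Fintype.card_pos
  exact_mod_cast this

lemma sum_grid_succ {β : Type*} [AddCommMonoid β] (L : ℕ) (f : Grid (L + 1) → β) :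
    ∑ y : Grid (L + 1), f y = ∑ e : Dig, ∑ y : Grid L, f (e, y) :=
  Fintype.sum_prod_type (α₁ := Dig) (α₂ := Grid L) f

section avg

variable {α : Type*} [Fintype α]

lemma avg_add (f g : α → ℝ) : avg (fun a => f a + g a) = avg f + avg g := by
  simp [avg, Finset.sum_add_distrib, add_div]

lemma avg_sub (f g : α → ℝ) : avg (fun a => f a - g a) = avg f - avg g := by
  simp [avg, Finset.sum_sub_distrib, sub_div]

lemma avg_const_mul (c : ℝ) (f : α → ℝ) : avg (fun a => c * f a) = c * avg f := by
  simp [avg, ← Finset.mul_sum, mul_div_assoc]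

lemma avg_mul_const (c : ℝ) (f : α → ℝ) : avg (fun a => f a * c) = avg f * c := by
  simp [avg, ← Finset.sum_mul, div_mul_eq_mul_div]

lemma avg_const [Nonempty α] (c : ℝ) : avg (fun _ : α => c) = c := by
  have : (Fintype.card α : ℝ) ≠ 0 := by exact_mod_cast Fintype.card_ne_zero
  simp [avg]

lemma avg_mono {f g : α → ℝ} (h : ∀ a, f a ≤ g a) : avg f ≤ avg g := by
  unfold avg
  gcongr with a
  exact h a

lemma avg_nonneg {f : α → ℝ} (h : ∀ a, 0 ≤ f a) : 0 ≤ avg f := by
  unfold avg
  have := Finset.sum_nonneg (fun a (_ : a ∈ Finset.univ) => h a)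
  positivity

lemma avg_le_of_le [Nonempty α] {f : α → ℝ} {c : ℝ} (h : ∀ a, f a ≤ c) : avg f ≤ c := by
  calc avg f ≤ avg (fun _ : α => c) := avg_mono h
    _ = c := avg_const c

lemma abs_avg_le (f : α → ℝ) : |avg f| ≤ avg (fun a => |f a|) := by
  unfold avg
  rw [abs_div, abs_of_nonneg (by positivity : (0 : ℝ) ≤ Fintype.card α)]
  gcongr
  exact Finset.abs_sum_le_sum_abs _ _

lemma avg_sum {ι : Type*} (s : Finset ι) (f : ι → α → ℝ) :
    avg (fun a => ∑ i ∈ s, f i a) = ∑ i ∈ s, avg (f i) := by
  simp only [avg]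
  rw [Finset.sum_comm, Finset.sum_div]

lemma avg_prod {β : Type*} [Fintype β] (f : α × β → ℝ) :
    avg f = avg (fun a => avg (fun b => f (a, b))) := by
  simp only [avg]
  rw [Fintype.sum_prod_type, ← Finset.sum_div, Fintype.card_prod, div_div]
  push_cast
  rw [mul_comm (Fintype.card β : ℝ)]

lemma avg_prod_right {β : Type*} [Fintype β] (f : α × β → ℝ) :
    avg f = avg (fun b => avg (fun a => f (a, b))) := by
  simp only [avg]
  rw [Fintype.sum_prod_type_right, ← Finset.sum_div, Fintype.card_prod, div_div]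
  push_cast
  rfl

lemma avg_dig (F : Dig → ℝ) :
    avg F = (F (true, true) + F (true, false) + F (false, true) + F (false, false)) / 4 := by
  unfold avg
  rw [sum_dig, card_dig]

lemma avg_grid_succ (L : ℕ) (f : Grid (L + 1) → ℝ) :
    avg f = avg (fun e : Dig => avg (fun y : Grid L => f (e, y))) :=
  avg_prod (α := Dig) (β := Grid L) f

end avg

lemma zeta_succ (L : ℕ) (e : Dig) (y : Grid L) :
    zeta (L + 1) (e, y) = - (sg e.2 * (1 / 4 - sg e.1 / 8)) + zeta L y / 4 := rfl

lemma abs_zeta_lt : ∀ (L : ℕ) (y : Grid L), |zeta L y| < 1 / 2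
  | 0, _ => by simp [zeta]
  | L + 1, (e, y) => by
    have h := abs_zeta_lt L y
    rw [zeta_succ]
    rw [abs_lt] at h ⊢
    obtain ⟨b, s⟩ := e
    cases b <;> cases s <;> simp <;> constructor <;> linarith [h.1, h.2]

lemma abs_zeta_le (L : ℕ) (y : Grid L) : |zeta L y| ≤ 1 / 2 := (abs_zeta_lt L y).le

lemma tent_succ (L : ℕ) (e : Dig) (y : Grid L) :
    tent (L + 1) (e, y) = 1 / 2 + sg e.1 / 4 + sg e.2 / 2 * zeta L y := by
  have h := abs_zeta_lt L y
  rw [abs_lt] at h
  unfold tent
  rw [zeta_succ]
  obtain ⟨b, s⟩ := e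
  cases b <;> cases s <;> simp only [sg_true, sg_false]
  · rw [abs_of_nonneg (by linarith [h.1, h.2])]; ring
  · rw [abs_of_nonpos (by linarith [h.1, h.2])]; ring
  · rw [abs_of_nonneg (by linarith [h.1, h.2])]; ring
  · rw [abs_of_nonpos (by linarith [h.1, h.2])]; ring

lemma tent_nonneg (L : ℕ) (y : Grid L) : 0 ≤ tent L y := by
  have := abs_zeta_le L y
  unfold tent; linarith

lemma tent_le_one (L : ℕ) (y : Grid L) : tent L y ≤ 1 := by
  have := abs_nonneg (zeta L y)
  unfold tent; linarith

lemma avg_zeta : ∀ L : ℕ, avg (zeta L) = 0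
  | 0 => by simp [avg, zeta]
  | L + 1 => by
    have h := avg_zeta L
    have h2 : avg (fun y : Grid L => zeta L y / 4) = 0 := by
      have := avg_mul_const (1 / 4) (zeta L)
      rw [h] at this
      simpa [div_eq_mul_inv] using this
    rw [avg_grid_succ]
    simp only [zeta_succ]
    simp only [avg_add, avg_const, h2, add_zero]
    rw [avg_dig]
    simp

/-! ### measurability and probability -/

lemma measurable_glue {P : Type} (L : ℕ) : Measurable (glue (P := P) L) := by
  unfold glue
  refine measurable_pi_lambda _ fun z => ?_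
  refine Measurable.add ?_ ?_
  · exact (measurable_const).mul ((measurable_pi_apply z.2).comp measurable_fst)
  · exact (measurable_pi_apply _).comp ((measurable_pi_apply z.1.1).comp measurable_snd)

lemma continuous_glue {P : Type} (L : ℕ) : Continuous (glue (P := P) L) := by
  unfold glue
  refine continuous_pi fun z => ?_
  fun_prop

lemma isProb_treeLaw {P : Type} [Fintype P] (ν : ℕ → Measure (P → ℝ))
    (hν : ∀ J, IsProbabilityMeasure (ν J)) :
    ∀ h L : ℕ, IsProbabilityMeasure (treeLaw ν h L)
  | 0, 0 => by unfold treeLaw; infer_instance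
  | 0, _ + 1 => by unfold treeLaw; infer_instance
  | _ + 1, 0 => by unfold treeLaw; infer_instance
  | h + 1, L + 1 => by
    have := isProb_treeLaw ν hν h L
    have := hν h
    unfold treeLaw
    exact Measure.isProbabilityMeasure_map (measurable_glue L).aemeasurable

instance isProb_nu0 (J : ℕ) : IsProbabilityMeasure (nu0 J) := by
  unfold nu0
  split_ifs <;> infer_instance

instance isProb_layer (L : ℕ) : ∀ D J : ℕ, IsProbabilityMeasure (layer L D J)
  | 0, J => by unfold layer; exact isProb_nu0 J
  | D + 1, J => by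
    unfold layer
    exact isProb_treeLaw _ (fun J => isProb_layer L D J) _ _

end Sheet
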