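import Pool.Agent.Sheet.Skel

/-!
# SHEET, module CHOICE: the sequences of thresholds and scalings (pure real analysis)
-/

open Filter Topology

namespace Sheet

namespace Choice

lemma exists_bd (d : ℕ) {r : ℝ} (hr : 1 < r) :
    ∃ B : ℝ, 1 ≤ B ∧ ∀ k : ℕ, ((k : ℝ) + 1) ^ d ≤ B * r ^ k := by
  have h := tendsto_pow_const_div_const_pow_of_one_lt d hr
  have h1 : Tendsto (fun n : ℕ => ((n + 1 : ℕ) : ℝ) ^ d / r ^ (n + 1)) atTop (𝓝 0) :=
    h.comp (tendsto_add_atTop_nat 1)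
  obtain ⟨b, hb⟩ := h1.bddAbove_range
  have hb' : ∀ n : ℕ, ((n + 1 : ℕ) : ℝ) ^ d / r ^ (n + 1) ≤ b := fun n => hb ⟨n, rfl⟩
  have hr0 : 0 < r := by linarith
  refine ⟨max 1 (b * r), le_max_left _ _, fun k => ?_⟩
  have h2 := hb' k
  rw [div_le_iff₀ (by positivity)] at h2
  push_cast at h2
  calc ((k : ℝ) + 1) ^ d ≤ b * r ^ (k + 1) := h2
    _ = (b * r) * r ^ k := by ring
    _ ≤ max 1 (b * r) * r ^ k := by gcongr; exact le_max_right _ _

lemma sum_e (n : ℕ) : ∀ N : ℕ, ∑ m ∈ Finset.range N, (3 / 4 : ℝ) ^ ((n - m) + (m - n)) ≤ 8 := by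
  have h1 : ∀ N : ℕ, N ≤ n + 1 →
      ∑ m ∈ Finset.range N, (3 / 4 : ℝ) ^ ((n - m) + (m - n)) ≤ 4 * (3 / 4) ^ (n + 1 - N) := by
    intro N
    induction N with
    | zero => intro _; simp only [Finset.range_zero, Finset.sum_empty]; positivity
    | succ N ih =>
      intro hN
      rw [Finset.sum_range_succ]
      have h := ih (by omega)
      have e1 : n + 1 - N = (n - N) + 1 := by omega
      have e2 : (n - N) + (N - n) = n - N := by omega
      have e3 : n + 1 - (N + 1) = n - N := by omega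
      rw [e1, pow_succ] at h
      rw [e2, e3]
      linarith
  have h2 : ∀ j : ℕ,
      ∑ m ∈ Finset.range (n + 1 + j), (3 / 4 : ℝ) ^ ((n - m) + (m - n)) ≤ 8 - 4 * (3 / 4) ^ j := by
    intro j
    induction j with
    | zero =>
      have := h1 (n + 1) le_rfl
      simp only [Nat.add_zero, Nat.sub_self, pow_zero, mul_one] at this ⊢
      linarith
    | succ j ih =>
      rw [← Nat.add_assoc, Finset.sum_range_succ]
      have e2 : (n - (n + 1 + j)) + ((n + 1 + j) - n) = j + 1 := by omega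
      rw [e2, pow_succ]
      have : (0 : ℝ) < (3 / 4) ^ j := by positivity
      linarith
  intro N
  rcases Nat.le_total N (n + 1) with h | h
  · have := h1 N h
    have h3 : (3 / 4 : ℝ) ^ (n + 1 - N) ≤ 1 := pow_le_one₀ (by norm_num) (by norm_num)
    linarith
  · obtain ⟨j, rfl⟩ := Nat.exists_eq_add_of_le h
    have := h2 j
    have h3 : (0 : ℝ) < (3 / 4) ^ j := by positivity
    linarith

lemma sum_half (N : ℕ) : ∑ m ∈ Finset.range N, (1 / 2 : ℝ) ^ (m + 2) ≤ 1 / 2 := by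
  have h : ∀ N : ℕ, ∑ m ∈ Finset.range N, (1 / 2 : ℝ) ^ (m + 2) = 1 / 2 - (1 / 2) ^ (N + 1) := by
    intro N
    induction N with
    | zero => norm_num
    | succ N ih => rw [Finset.sum_range_succ, ih]; ring
  rw [h]
  have : (0 : ℝ) < (1 / 2) ^ (N + 1) := by positivity
  linarith

lemma sum_two (N n : ℕ) : ∑ m ∈ Finset.range N, (if m ≤ n then 2 ^ m else 0) ≤ 2 ^ (n + 1) := by
  have h : ∀ n : ℕ, ∑ m ∈ Finset.range (n + 1), 2 ^ m ≤ 2 ^ (n + 1) := by
    intro n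
    induction n with
    | zero => norm_num
    | succ n ih => rw [Finset.sum_range_succ]; rw [pow_succ 2 (n + 1)]; omega
  calc ∑ m ∈ Finset.range N, (if m ≤ n then 2 ^ m else 0)
      = ∑ m ∈ (Finset.range N).filter (fun m => m ≤ n), 2 ^ m := by rw [Finset.sum_filter]
    _ ≤ ∑ m ∈ Finset.range (n + 1), 2 ^ m := by
        apply Finset.sum_le_sum_of_subset
        intro m hm
        simp only [Finset.mem_filter, Finset.mem_range] at hm ⊢
        omega
    _ ≤ 2 ^ (n + 1) := h n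

lemma sum_exp (N n : ℕ) : ∑ m ∈ Finset.range N, (n - m) * 2 ^ m ≤ 2 ^ (n + 1) := by
  induction n with
  | zero => simp
  | succ n ih =>
    calc ∑ m ∈ Finset.range N, (n + 1 - m) * 2 ^ m
        ≤ ∑ m ∈ Finset.range N, ((n - m) * 2 ^ m + (if m ≤ n then 2 ^ m else 0)) := by
          apply Finset.sum_le_sum
          intro m _
          split_ifs with h
          · have : n + 1 - m = (n - m) + 1 := by omega
            rw [this, Nat.add_mul, Nat.one_mul]
          · have : n + 1 - m = 0 := by omega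
            rw [this]; simp
      _ = ∑ m ∈ Finset.range N, (n - m) * 2 ^ m
            + ∑ m ∈ Finset.range N, (if m ≤ n then 2 ^ m else 0) := Finset.sum_add_distrib
      _ ≤ 2 ^ (n + 1) + 2 ^ (n + 1) := Nat.add_le_add ih (sum_two N n)
      _ = 2 ^ (n + 1 + 1) := by ring

lemma sum_expo (d N n : ℕ) :
    ∑ m ∈ Finset.range N, (n - m) * (2 ^ d * 2 ^ m * (m + 1) ^ (d - 1))
      ≤ 2 ^ (d + 1) * 2 ^ n * (n + 1) ^ (d - 1) := by
  calc ∑ m ∈ Finset.range N, (n - m) * (2 ^ d * 2 ^ m * (m + 1) ^ (d - 1))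
      ≤ ∑ m ∈ Finset.range N, (2 ^ d * (n + 1) ^ (d - 1)) * ((n - m) * 2 ^ m) := by
        apply Finset.sum_le_sum
        intro m _
        rcases Nat.lt_or_ge n m with h | h
        · have : n - m = 0 := by omega
          rw [this]; simp
        · have h1 : (m + 1) ^ (d - 1) ≤ (n + 1) ^ (d - 1) := Nat.pow_le_pow_left (by omega) _
          calc (n - m) * (2 ^ d * 2 ^ m * (m + 1) ^ (d - 1))
              = (2 ^ d * ((n - m) * 2 ^ m)) * (m + 1) ^ (d - 1) := by ring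
            _ ≤ (2 ^ d * ((n - m) * 2 ^ m)) * (n + 1) ^ (d - 1) := Nat.mul_le_mul_left _ h1
            _ = (2 ^ d * (n + 1) ^ (d - 1)) * ((n - m) * 2 ^ m) := by ring
    _ = (2 ^ d * (n + 1) ^ (d - 1)) * ∑ m ∈ Finset.range N, (n - m) * 2 ^ m := by
        rw [Finset.mul_sum]
    _ ≤ (2 ^ d * (n + 1) ^ (d - 1)) * 2 ^ (n + 1) := Nat.mul_le_mul_left _ (sum_exp N n)
    _ = 2 ^ (d + 1) * 2 ^ n * (n + 1) ^ (d - 1) := by ring

lemma K_le (d m : ℕ) :
    2 * (2 ^ (m + 1) + 1 : ℝ) ^ d ≤ Real.exp ((2 * d + 1) * ((m : ℝ) + 1)) := by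
  have he : (2 : ℝ) ≤ Real.exp 1 := by
    have := Real.add_one_le_exp (1 : ℝ); linarith
  have h1 : (1 : ℝ) ≤ 2 ^ (m + 1) := one_le_pow₀ (by norm_num)
  have h2 : (2 : ℝ) ≤ 2 ^ (m + 1) := by
    rw [pow_succ]; have : (1 : ℝ) ≤ 2 ^ m := one_le_pow₀ (by norm_num); linarith
  have h3 : (2 ^ (m + 1) + 1 : ℝ) ≤ 4 ^ (m + 1) := by
    have : (4 : ℝ) ^ (m + 1) = 2 ^ (m + 1) * 2 ^ (m + 1) := by
      rw [← mul_pow]; norm_num
    rw [this]; nlinarith
  have h4 : (2 : ℝ) * 4 ^ d ≤ Real.exp (2 * d + 1) := by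
    have e1 : Real.exp (2 * d + 1) = Real.exp 1 ^ (2 * d + 1) := by
      rw [← Real.exp_nat_mul]; congr 1; push_cast; ring
    rw [e1]
    calc (2 : ℝ) * 4 ^ d = 2 ^ (2 * d + 1) := by
          rw [pow_succ, pow_mul]; norm_num; ring
      _ ≤ Real.exp 1 ^ (2 * d + 1) := pow_le_pow_left₀ (by norm_num) he _
  calc 2 * (2 ^ (m + 1) + 1 : ℝ) ^ d ≤ 2 ^ (m + 1) * (4 ^ (m + 1)) ^ d := by gcongr
    _ = (2 * 4 ^ d) ^ (m + 1) := by rw [mul_pow, ← pow_mul, ← pow_mul, mul_comm d]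
    _ ≤ Real.exp (2 * d + 1) ^ (m + 1) := pow_le_pow_left₀ (by positivity) h4 _
    _ = Real.exp ((2 * d + 1) * ((m : ℝ) + 1)) := by
        rw [← Real.exp_nat_mul]; congr 1; push_cast; ring

lemma term_le (d m : ℕ) (x : ℝ) (hx : (2 * d + 4) * ((m : ℝ) + 1) ≤ x) :
    2 * (2 ^ (m + 1) + 1 : ℝ) ^ d * Real.exp (-x) ≤ (1 / 2) ^ (m + 2) := by
  have he : Real.exp (-1) ≤ 1 / 2 := by
    rw [Real.exp_neg, one_div]
    apply inv_anti₀ (by norm_num)
    have := Real.add_one_le_exp (1 : ℝ); linarith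
  calc 2 * (2 ^ (m + 1) + 1 : ℝ) ^ d * Real.exp (-x)
      ≤ Real.exp ((2 * d + 1) * ((m : ℝ) + 1)) * Real.exp (-((2 * d + 4) * ((m : ℝ) + 1))) := by
        apply mul_le_mul (K_le d m) _ (Real.exp_pos _).le (Real.exp_pos _).le
        apply Real.exp_le_exp.2; linarith
    _ = Real.exp (-1) ^ (3 * (m + 1)) := by
        rw [← Real.exp_add, ← Real.exp_nat_mul]; congr 1; push_cast; ring
    _ ≤ (1 / 2) ^ (3 * (m + 1)) := pow_le_pow_left₀ (Real.exp_pos _).le he _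
    _ ≤ (1 / 2) ^ (m + 2) := pow_le_pow_of_le_one (by norm_num) (by norm_num) (by omega)

end Choice

open Choice in
theorem choice : StmtChoice := by
  intro d hd
  obtain ⟨B, hB1, hB⟩ := exists_bd d (r := 9 / 8) (by norm_num)
  obtain ⟨B', hB'1, hB'⟩ := exists_bd d (r := 3 / 2) (by norm_num)
  set A : ℝ := 4 * d + 8 with hA
  have hA0 : 0 < A := by positivity
  set α : ℝ := 1 / (64 * A * B) with hα
  have hα0 : 0 < α := by positivity
  have hα1 : α ≤ 1 := by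
    rw [hα, div_le_one (by positivity)]
    have : (8 : ℝ) ≤ A := by rw [hA]; have : (0 : ℝ) ≤ d := Nat.cast_nonneg d; linarith
    nlinarith
  set lB : ℝ := Real.log (2 * B' / α) with hlB
  have hlB0 : 0 ≤ lB := by
    apply Real.log_nonneg
    rw [le_div_iff₀ hα0]; linarith
  set C2 : ℝ := 8 * lB + 10 with hC2
  have hC20 : 0 < C2 := by positivity
  refine ⟨2 ^ (d + 1) * (2 / α) * C2 ^ (2 * d - 1), by positivity, fun ε hε hε2 => ?_⟩
  set l : ℝ := Real.log ε⁻¹ with hl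
  have hl12 : 1 / 2 ≤ l := by
    rw [hl]
    have h1 : (2 : ℝ) ≤ ε⁻¹ := by
      rw [le_inv_comm₀ (by norm_num) hε]; linarith
    have h2 : Real.log 2 ≤ Real.log ε⁻¹ := Real.log_le_log (by norm_num) h1
    have h3 := Real.log_two_gt_d9
    linarith
  -- the critical level
  have hex : ∃ n : ℕ, ((n : ℝ) + 1) ^ d ≤ α * ε ^ 2 * 2 ^ n := by
    have ht : Tendsto (fun n : ℕ => (4 / 3 : ℝ) ^ n) atTop atTop :=
      tendsto_pow_atTop_atTop_of_one_lt (by norm_num)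
    obtain ⟨n, hn⟩ := (ht.eventually_ge_atTop (B' / (α * ε ^ 2))).exists
    refine ⟨n, ?_⟩
    rw [div_le_iff₀ (by positivity)] at hn
    calc ((n : ℝ) + 1) ^ d ≤ B' * (3 / 2) ^ n := hB' n
      _ ≤ ((4 / 3) ^ n * (α * ε ^ 2)) * (3 / 2) ^ n := by gcongr
      _ = α * ε ^ 2 * 2 ^ n := by
          rw [show (2 : ℝ) = 4 / 3 * (3 / 2) by norm_num, mul_pow]; ring
  classical
  set n : ℕ := Nat.find hex with hn
  have hn1 : ((n : ℝ) + 1) ^ d ≤ α * ε ^ 2 * 2 ^ n := Nat.find_spec hex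
  have hn2 : (2 : ℝ) ^ n ≤ 2 / α * ε⁻¹ ^ 2 * ((n : ℝ) + 1) ^ d := by
    rcases Nat.eq_zero_or_pos n with h0 | h0
    · rw [h0]
      simp only [pow_zero, Nat.cast_zero, zero_add, one_pow, mul_one]
      have h1 : (1 : ℝ) ≤ 2 / α := by rw [le_div_iff₀ hα0]; linarith
      have h2 : (1 : ℝ) ≤ ε⁻¹ ^ 2 := by
        apply one_le_pow₀
        rw [one_le_inv₀ hε]; linarith
      nlinarith
    · have hlt : n - 1 < n := by omega
      have h := Nat.find_min hex hlt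
      rw [not_le] at h
      have hc : ((n - 1 : ℕ) : ℝ) + 1 = n := by
        rw [Nat.cast_sub h0]; simp
      rw [hc] at h
      have h2 : (2 : ℝ) ^ n = 2 * 2 ^ (n - 1) := by
        rw [← pow_succ', Nat.sub_add_cancel h0]
      rw [h2]
      have h3 : (n : ℝ) ^ d ≤ ((n : ℝ) + 1) ^ d := by gcongr; linarith
      have h4 : (2 : ℝ) ^ (n - 1) ≤ ((n : ℝ) + 1) ^ d / (α * ε ^ 2) := by
        rw [le_div_iff₀ (by positivity)]
        nlinarith
      calc 2 * (2 : ℝ) ^ (n - 1) ≤ 2 * (((n : ℝ) + 1) ^ d / (α * ε ^ 2)) := by gcongr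
        _ = 2 / α * ε⁻¹ ^ 2 * ((n : ℝ) + 1) ^ d := by
            rw [inv_pow]; field_simp
  have hn3 : (n : ℝ) + 1 ≤ C2 * l := by
    have h1 : (2 : ℝ) ^ n ≤ 2 / α * ε⁻¹ ^ 2 * (B' * (3 / 2) ^ n) := by
      refine hn2.trans ?_
      gcongr
      exact hB' n
    have h2 : (4 / 3 : ℝ) ^ n ≤ 2 * B' / α * ε⁻¹ ^ 2 := by
      have e1 : (2 : ℝ) ^ n = (4 / 3) ^ n * (3 / 2) ^ n := by
        rw [← mul_pow]; norm_num
      rw [e1] at h1
      have h32 : (0 : ℝ) < (3 / 2) ^ n := by positivity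
      have : (4 / 3 : ℝ) ^ n * (3 / 2) ^ n ≤ (2 * B' / α * ε⁻¹ ^ 2) * (3 / 2) ^ n := by
        refine h1.trans (le_of_eq ?_); ring
      exact le_of_mul_le_mul_right this h32
    have h3 : Real.log ((4 / 3 : ℝ) ^ n) ≤ Real.log (2 * B' / α * ε⁻¹ ^ 2) :=
      Real.log_le_log (by positivity) h2
    rw [Real.log_pow, Real.log_mul (by positivity) (by positivity), Real.log_pow] at h3
    have h4 : (1 / 4 : ℝ) ≤ Real.log (4 / 3) := by
      have := Real.one_sub_inv_le_log_of_pos (show (0 : ℝ) < 4 / 3 by norm_num)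
      norm_num at this ⊢
      linarith
    have hn0 : (0 : ℝ) ≤ n := Nat.cast_nonneg n
    have h5 : (n : ℝ) / 4 ≤ lB + 2 * l := by
      have : (n : ℝ) * (1 / 4) ≤ n * Real.log (4 / 3) := by gcongr
      push_cast at h3
      rw [← hlB, ← hl] at h3
      linarith
    rw [hC2]
    nlinarith
  have hkey : 64 * A * B * ((n : ℝ) + 1) ^ d ≤ ε ^ 2 * 2 ^ n := by
    have : 64 * A * B * (α * ε ^ 2 * 2 ^ n) = ε ^ 2 * 2 ^ n := by
      rw [hα]; field_simp
    rw [← this]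
    gcongr
  -- the sequences
  set e : ℕ → ℝ := fun m => ε / 8 * (3 / 4) ^ ((n - m) + (m - n)) with he
  set t : ℕ → ℝ := fun m => √(A * ((m : ℝ) + 1) ^ d / 2 ^ m) with ht
  set s : ℕ → ℝ := fun m => min 1 (e m / t m) with hs
  have he0 : ∀ m, 0 < e m := fun m => by rw [he]; positivity
  have ht0 : ∀ m, 0 < t m := fun m => by rw [ht]; positivity
  have ht2 : ∀ m, t m ^ 2 = A * ((m : ℝ) + 1) ^ d / 2 ^ m := fun m => by
    rw [ht]; exact Real.sq_sqrt (by positivity)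
  have hs0 : ∀ m, 0 < s m := fun m => lt_min one_pos (div_pos (he0 m) (ht0 m))
  have hs1 : ∀ m, s m ≤ 1 := fun m => min_le_left _ _
  have het : ∀ m, t m * (1 / 2) ^ (n - m) ≤ e m := by
    intro m
    apply le_of_sq_le_sq _ (he0 m).le
    rw [mul_pow, ht2, he]
    simp only
    have hm2 : (0 : ℝ) < 2 ^ m := by positivity
    rcases Nat.lt_or_ge n m with h | h
    · obtain ⟨k, rfl⟩ := Nat.exists_eq_add_of_lt h
      have e1 : n - (n + k + 1) = 0 := by omega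
      have e2 : (n + k + 1) - n = k + 1 := by omega
      rw [e1, e2]
      have h1 : (((n + k + 1 : ℕ) : ℝ) + 1) ^ d
          ≤ ((n : ℝ) + 1) ^ d * (((k + 1 : ℕ) : ℝ) + 1) ^ d := by
        rw [← mul_pow]
        gcongr
        push_cast
        have : (0 : ℝ) ≤ n * (k + 1) := by positivity
        nlinarith
      have h2 := hB (k + 1)
      have h3 : A * (((n + k + 1 : ℕ) : ℝ) + 1) ^ d ≤ ε ^ 2 / 64 * (9 / 16) ^ (k + 1) * 2 ^ (n + k + 1) := by
        calc A * (((n + k + 1 : ℕ) : ℝ) + 1) ^ d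
            ≤ A * (((n : ℝ) + 1) ^ d * (B * (9 / 8) ^ (k + 1))) := by
              gcongr
              exact h1.trans (by gcongr)
          _ = (64 * A * B * ((n : ℝ) + 1) ^ d) / 64 * (9 / 8) ^ (k + 1) := by ring
          _ ≤ (ε ^ 2 * 2 ^ n) / 64 * (9 / 8) ^ (k + 1) := by gcongr
          _ = ε ^ 2 / 64 * (9 / 16) ^ (k + 1) * 2 ^ (n + k + 1) := by
              rw [show (9 / 8 : ℝ) = 9 / 16 * 2 by norm_num, mul_pow, pow_add 2 (n + k) 1,
                pow_add 2 n k, pow_succ (2 : ℝ) k]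
              ring
      have h4 : (ε / 8 * (3 / 4) ^ (0 + (k + 1))) ^ 2 = ε ^ 2 / 64 * (9 / 16) ^ (k + 1) := by
        rw [zero_add, mul_pow, ← pow_mul, mul_comm (k + 1) 2, pow_mul]; norm_num; ring
      rw [h4]
      simp only [pow_zero, one_pow, mul_one]
      rw [div_le_iff₀ (by positivity)]
      exact h3
    · obtain ⟨k, hk⟩ := Nat.exists_eq_add_of_le h
      have e1 : n - m = k := by omega
      have e2 : m - n = 0 := by omega
      rw [e1, e2]
      have h1 : ((m : ℝ) + 1) ^ d ≤ ((n : ℝ) + 1) ^ d := by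
        gcongr
      have hn2' : (2 : ℝ) ^ n = 2 ^ m * 2 ^ k := by rw [hk, pow_add]
      have h3 : A * ((m : ℝ) + 1) ^ d * (1 / 4) ^ k ≤ ε ^ 2 / 64 * (9 / 16) ^ k * 2 ^ m := by
        calc A * ((m : ℝ) + 1) ^ d * (1 / 4) ^ k
            ≤ A * (B * ((n : ℝ) + 1) ^ d) * (9 / 32) ^ k := by
              have h5 : ((m : ℝ) + 1) ^ d ≤ B * ((n : ℝ) + 1) ^ d := by
                have : 0 ≤ ((n : ℝ) + 1) ^ d := by positivity
                nlinarith
              have h6 : (1 / 4 : ℝ) ^ k ≤ (9 / 32) ^ k :=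
                pow_le_pow_left₀ (by norm_num) (by norm_num) _
              gcongr
          _ = (64 * A * B * ((n : ℝ) + 1) ^ d) / 64 * (9 / 32) ^ k := by ring
          _ ≤ (ε ^ 2 * 2 ^ n) / 64 * (9 / 32) ^ k := by gcongr
          _ = ε ^ 2 / 64 * (9 / 16) ^ k * 2 ^ m := by
              rw [hn2', show (9 / 16 : ℝ) = 9 / 32 * 2 by norm_num, mul_pow]
              ring
      have h4 : (ε / 8 * (3 / 4) ^ (k + 0)) ^ 2 = ε ^ 2 / 64 * (9 / 16) ^ k := by
        rw [add_zero, mul_pow, ← pow_mul, mul_comm k 2, pow_mul]; norm_num; ring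
      have h7 : ((1 / 2 : ℝ) ^ k) ^ 2 = (1 / 4) ^ k := by
        rw [← pow_mul, mul_comm k 2, pow_mul]; norm_num
      rw [h4, h7, div_mul_eq_mul_div, div_le_iff₀ (by positivity)]
      exact h3
  refine ⟨e, s, he0, hs0, hs1, ?_, ?_, ?_⟩
  · intro N
    rw [he]
    simp only [← Finset.mul_sum]
    have := sum_e n N
    nlinarith
  · intro N
    refine le_trans (Finset.sum_le_sum fun m _ => ?_) (sum_half N)
    apply term_le
    have h1 : t m ≤ e m / s m := by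
      rw [le_div_iff₀ (hs0 m)]
      have : s m ≤ e m / t m := min_le_right _ _
      rw [le_div_iff₀ (ht0 m)] at this
      linarith
    have h2 : t m ^ 2 ≤ (e m / s m) ^ 2 := by
      have := (ht0 m).le
      gcongr
    rw [ht2, div_le_iff₀ (by positivity)] at h2
    rw [le_div_iff₀ (by positivity)]
    refine le_trans (le_of_eq ?_) h2
    have h3 : ((m : ℝ) + 1) ^ d = ((m : ℝ) + 1) ^ (d - 1) * ((m : ℝ) + 1) := by
      rw [← pow_succ, Nat.sub_add_cancel hd]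
    rw [h3, hA]
    ring
  · intro N
    have hsl : ∀ m, (1 / 2 : ℝ) ^ (n - m) ≤ s m := by
      intro m
      apply le_min
      · exact pow_le_one₀ (by norm_num) (by norm_num)
      · rw [le_div_iff₀ (ht0 m)]
        have := het m
        linarith
    have h1 : (1 / 2 : ℝ) ^ (2 ^ (d + 1) * 2 ^ n * (n + 1) ^ (d - 1))
        ≤ ∏ m ∈ Finset.range N, s m ^ (2 ^ d * 2 ^ m * (m + 1) ^ (d - 1)) := by
      calc (1 / 2 : ℝ) ^ (2 ^ (d + 1) * 2 ^ n * (n + 1) ^ (d - 1))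
          ≤ (1 / 2 : ℝ) ^ (∑ m ∈ Finset.range N, (n - m) * (2 ^ d * 2 ^ m * (m + 1) ^ (d - 1))) :=
            pow_le_pow_of_le_one (by norm_num) (by norm_num) (sum_expo d N n)
        _ = ∏ m ∈ Finset.range N, ((1 / 2 : ℝ) ^ (n - m)) ^ (2 ^ d * 2 ^ m * (m + 1) ^ (d - 1)) := by
            rw [← Finset.prod_pow_eq_pow_sum]
            apply Finset.prod_congr rfl
            intro m _
            rw [← pow_mul]
        _ ≤ ∏ m ∈ Finset.range N, s m ^ (2 ^ d * 2 ^ m * (m + 1) ^ (d - 1)) := by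
            apply Finset.prod_le_prod
            · intro m _; positivity
            · intro m _
              exact pow_le_pow_left₀ (by positivity) (hsl m) _
    refine le_trans ?_ h1
    have h2 : Real.exp (-1) ≤ 1 / 2 := by
      rw [Real.exp_neg, one_div]
      apply inv_anti₀ (by norm_num)
      have := Real.add_one_le_exp (1 : ℝ); linarith
    have h3 : ((2 ^ (d + 1) * 2 ^ n * (n + 1) ^ (d - 1) : ℕ) : ℝ)
        ≤ 2 ^ (d + 1) * (2 / α) * C2 ^ (2 * d - 1) * (ε⁻¹ ^ 2 * l ^ (2 * d - 1)) := by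
      push_cast
      have hn10 : (0 : ℝ) ≤ (n : ℝ) + 1 := by positivity
      calc (2 : ℝ) ^ (d + 1) * 2 ^ n * ((n : ℝ) + 1) ^ (d - 1)
          ≤ 2 ^ (d + 1) * (2 / α * ε⁻¹ ^ 2 * ((n : ℝ) + 1) ^ d) * ((n : ℝ) + 1) ^ (d - 1) := by
            gcongr
        _ = 2 ^ (d + 1) * (2 / α) * ε⁻¹ ^ 2 * ((n : ℝ) + 1) ^ (2 * d - 1) := by
            have : 2 * d - 1 = d + (d - 1) := by omega
            rw [this, pow_add]; ring
        _ ≤ 2 ^ (d + 1) * (2 / α) * ε⁻¹ ^ 2 * (C2 * l) ^ (2 * d - 1) := by gcongr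
        _ = 2 ^ (d + 1) * (2 / α) * C2 ^ (2 * d - 1) * (ε⁻¹ ^ 2 * l ^ (2 * d - 1)) := by
            rw [mul_pow]; ring
    calc Real.exp (-(2 ^ (d + 1) * (2 / α) * C2 ^ (2 * d - 1) * (ε⁻¹ ^ 2 * l ^ (2 * d - 1))))
        ≤ Real.exp (-((2 ^ (d + 1) * 2 ^ n * (n + 1) ^ (d - 1) : ℕ) : ℝ)) := by
          apply Real.exp_le_exp.2
          linarith
      _ = Real.exp (-1) ^ (2 ^ (d + 1) * 2 ^ n * (n + 1) ^ (d - 1)) := by
          rw [← Real.exp_nat_mul]
          ring_nf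
      _ ≤ (1 / 2) ^ (2 ^ (d + 1) * 2 ^ n * (n + 1) ^ (d - 1)) :=
          pow_le_pow_left₀ (Real.exp_pos _).le h2 _

end Sheet
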