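import Pool.Agent.Sheet.Basic

/-!
# SHEET, module COMBINE: the layers of the Schauder expansion together
-/

open MeasureTheory ProbabilityTheory

namespace Sheet

namespace Combine

theorem continuous_sch {n : ℕ} (i : HI n) : Continuous (sch i) := by
  cases i with
  | none => exact continuous_id
  | some a =>
    unfold sch tentR
    fun_prop

theorem lev_le {n : ℕ} (i : HI n) : lev i ≤ n := by
  cases i with
  | none => exact Nat.zero_le _
  | some a => exact a.1.2.le

theorem tlev_lt {d n : ℕ} (R : Fin d → HI n) : tlev R < n * d + 1 := by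
  have h : tlev R ≤ ∑ _i : Fin d, n := Finset.sum_le_sum fun i _ => lev_le (R i)
  have h2 : (∑ _i : Fin d, n) = n * d := by
    simp [mul_comm]
  omega

/-- The event that the partial sum stays below `ε` on the cube. -/
def ev (d n : ℕ) (ε : ℝ) : Set ((Fin d → HI n) → ℝ) :=
  {g | ∀ x : Fin d → ℝ, (∀ i, 0 ≤ x i ∧ x i ≤ 1) → |∑ R : Fin d → HI n, g R * schD R x| ≤ ε}

theorem isClosed_ev (d n : ℕ) (ε : ℝ) : IsClosed (ev d n ε) := by
  have h : ev d n ε = ⋂ x : Fin d → ℝ, ⋂ _ : (∀ i, 0 ≤ x i ∧ x i ≤ 1),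
      {g | |∑ R : Fin d → HI n, g R * schD R x| ≤ ε} := by
    ext g
    simp [ev]
  rw [h]
  refine isClosed_iInter fun x => isClosed_iInter fun _ => ?_
  exact isClosed_le (by fun_prop) continuous_const

theorem sum_levels {d n : ℕ} (F : (Fin d → HI n) → ℝ) :
    ∑ R : Fin d → HI n, F R =
      ∑ m ∈ Finset.range (n * d + 1), ∑ R ∈ Finset.univ.filter
        (fun R : Fin d → HI n => tlev R = m), F R := by
  rw [← Finset.sum_fiberwise_of_maps_to (s := Finset.univ) (t := Finset.range (n * d + 1))
    (g := fun R : Fin d → HI n => tlev R) (fun R _ => Finset.mem_range.2 (tlev_lt R))]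

theorem prod_levels {d n : ℕ} (F : (Fin d → HI n) → ℝ) :
    ∏ R : Fin d → HI n, F R =
      ∏ m ∈ Finset.range (n * d + 1), ∏ R ∈ Finset.univ.filter
        (fun R : Fin d → HI n => tlev R = m), F R := by
  rw [← Finset.prod_fiberwise_of_maps_to (s := Finset.univ) (t := Finset.range (n * d + 1))
    (g := fun R : Fin d → HI n => tlev R) (fun R _ => Finset.mem_range.2 (tlev_lt R))]

theorem combine (hD : StmtDens) (hT : StmtTail) (hC : StmtCount) : StmtCombine := by
  intro d n ε e s hd he hs hs1 hsum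
  set γ : Measure ((Fin d → HI n) → ℝ) := gam d n with hγ
  haveI : IsProbabilityMeasure γ := by
    rw [hγ]
    unfold gam
    infer_instance
  set N := n * d + 1 with hN
  -- the scaled event
  set S : (Fin d → HI n) → ℝ := fun R => s (tlev R) with hS
  set bad : ℕ → Set ((Fin d → HI n) → ℝ) := fun m =>
    {g | ∃ x : Fin d → ℝ, (∀ i, 0 ≤ x i ∧ x i ≤ 1) ∧ e m / s m <
      |∑ R ∈ Finset.univ.filter (fun R : Fin d → HI n => tlev R = m), g R * schD R x|} with hbad
  set bd : ℕ → ℝ := fun m => 2 * (2 ^ (m + 1) + 1) ^ d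
            * Real.exp (-((e m / s m) ^ 2 * 2 ^ m / (2 * ((m : ℝ) + 1) ^ (d - 1)))) with hbd
  have hB : ∀ m, γ.real (bad m) ≤ bd m := fun m =>
    hT d n m (e m / s m) hd (div_pos (he m) (hs m))
  have hsub : (⋃ m ∈ Finset.range N, bad m)ᶜ ⊆ {g | (fun R => S R * g R) ∈ ev d n ε} := by
    intro g hg x hx
    have h1 : ∀ m ∈ Finset.range N,
        |∑ R ∈ Finset.univ.filter (fun R : Fin d → HI n => tlev R = m), g R * schD R x| ≤
          e m / s m := by
      intro m hm
      by_contra hcon
      push Not at hcon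
      apply hg
      simp only [Set.mem_iUnion]
      exact ⟨m, hm, x, hx, hcon⟩
    rw [sum_levels]
    refine (Finset.abs_sum_le_sum_abs _ _).trans (le_trans (Finset.sum_le_sum fun m hm => ?_)
      (hsum N))
    have h2 : ∑ R ∈ Finset.univ.filter (fun R : Fin d → HI n => tlev R = m),
        S R * g R * schD R x =
        s m * ∑ R ∈ Finset.univ.filter (fun R : Fin d → HI n => tlev R = m), g R * schD R x := by
      rw [Finset.mul_sum]
      refine Finset.sum_congr rfl fun R hR => ?_
      rw [hS]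
      simp only
      rw [(Finset.mem_filter.1 hR).2]
      ring
    rw [h2, abs_mul, abs_of_pos (hs m)]
    calc s m * |∑ R ∈ Finset.univ.filter (fun R : Fin d → HI n => tlev R = m), g R * schD R x|
        ≤ s m * (e m / s m) := mul_le_mul_of_nonneg_left (h1 m hm) (hs m).le
      _ = e m := by
        have := (hs m).ne'
        field_simp
  have hlow : 1 - ∑ m ∈ Finset.range N, bd m ≤ γ.real {g | (fun R => S R * g R) ∈ ev d n ε} := by
    have h1 : γ.real (⋃ m ∈ Finset.range N, bad m) ≤ ∑ m ∈ Finset.range N, bd m :=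
      (measureReal_biUnion_finset_le _ _).trans (Finset.sum_le_sum fun m _ => hB m)
    have h2 : γ.real Set.univ ≤ γ.real ((⋃ m ∈ Finset.range N, bad m) ∪
        {g | (fun R => S R * g R) ∈ ev d n ε}) := by
      refine measureReal_mono ?_
      intro g _
      by_cases hg : g ∈ ⋃ m ∈ Finset.range N, bad m
      · exact Or.inl hg
      · exact Or.inr (hsub hg)
    have h3 := measureReal_union_le (μ := γ) (⋃ m ∈ Finset.range N, bad m)
        {g | (fun R => S R * g R) ∈ ev d n ε}
    rw [probReal_univ] at h2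
    linarith
  have hprod : ∏ m ∈ Finset.range N, s m ^ (2 ^ d * 2 ^ m * (m + 1) ^ (d - 1)) ≤ ∏ R, S R := by
    rw [prod_levels S]
    refine Finset.prod_le_prod (fun m _ => (pow_pos (hs m) _).le) fun m _ => ?_
    have h1 : ∏ R ∈ Finset.univ.filter (fun R : Fin d → HI n => tlev R = m), S R =
        s m ^ (Finset.univ.filter (fun R : Fin d → HI n => tlev R = m)).card := by
      rw [← Finset.prod_const]
      refine Finset.prod_congr rfl fun R hR => ?_
      rw [hS]
      simp only
      rw [(Finset.mem_filter.1 hR).2]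
    rw [h1]
    refine pow_le_pow_of_le_one (hs m).le (hs1 m) ?_
    have h2 := hC d n m hd
    exact_mod_cast h2
  have hprod0 : 0 ≤ ∏ m ∈ Finset.range N, s m ^ (2 ^ d * 2 ^ m * (m + 1) ^ (d - 1)) :=
    Finset.prod_nonneg fun m _ => (pow_pos (hs m) _).le
  have hdens := hD (Fin d → HI n) S (ev d n ε) (fun R => hs _) (fun R => hs1 _)
    (isClosed_ev d n ε).measurableSet
  calc (∏ m ∈ Finset.range N, s m ^ (2 ^ d * 2 ^ m * (m + 1) ^ (d - 1))) *
        (1 - ∑ m ∈ Finset.range N, bd m)
      ≤ (∏ m ∈ Finset.range N, s m ^ (2 ^ d * 2 ^ m * (m + 1) ^ (d - 1))) *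
        γ.real {g | (fun R => S R * g R) ∈ ev d n ε} := mul_le_mul_of_nonneg_left hlow hprod0
    _ ≤ (∏ R, S R) * γ.real {g | (fun R => S R * g R) ∈ ev d n ε} :=
        mul_le_mul_of_nonneg_right hprod measureReal_nonneg
    _ ≤ γ.real (ev d n ε) := hdens

end Combine

end Sheet
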