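import Pool.Agent.Sheet.Skel

/-!
# SHEET, module SCH2: number of indices and variance of a layer
-/

open MeasureTheory ProbabilityTheory

namespace Sheet.Count

variable {n : ℕ}

/-- weighted sum over the indices of total level `m` -/
noncomputable def S (d : ℕ) (w : Fin d → HI n → ℝ) (m : ℕ) : ℝ :=
  ∑ R : Fin d → HI n, if tlev R = m then ∏ i, w i (R i) else 0

lemma S_zero (w : Fin 0 → HI n → ℝ) (m : ℕ) : S 0 w m = if m = 0 then 1 else 0 := by
  unfold S tlev
  simp [eq_comm]

lemma S_succ (d : ℕ) (w : Fin (d + 1) → HI n → ℝ) (m : ℕ) :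
    S (d + 1) w m = ∑ j ∈ Finset.range (m + 1),
      (∑ h : HI n, if lev h = j then w 0 h else 0) * S d (fun i => w i.succ) (m - j) := by
  have h1 : S (d + 1) w m = ∑ h : HI n, ∑ R : Fin d → HI n,
      if lev h + tlev R = m then w 0 h * ∏ i, w i.succ (R i) else 0 := by
    unfold S
    rw [← Fintype.sum_prod_type (fun p : HI n × (Fin d → HI n) => if lev p.1 + tlev p.2 = m
        then w 0 p.1 * ∏ i, w i.succ (p.2 i) else 0)]
    symm
    refine Fintype.sum_equiv (Fin.consEquiv (fun _ => HI n))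
      (fun p : HI n × (Fin d → HI n) => if lev p.1 + tlev p.2 = m
        then w 0 p.1 * ∏ i, w i.succ (p.2 i) else (0 : ℝ))
      (fun R : Fin (d + 1) → HI n => if tlev R = m then ∏ i, w i (R i) else (0 : ℝ)) ?_
    rintro ⟨h, R⟩
    simp [Fin.consEquiv, tlev, Fin.sum_univ_succ, Fin.prod_univ_succ]
  rw [h1]
  simp_rw [Finset.sum_mul]
  conv_rhs => rw [Finset.sum_comm]
  refine Finset.sum_congr rfl fun h _ => ?_
  by_cases hm : lev h ≤ m
  · rw [Finset.sum_eq_single_of_mem (lev h) (Finset.mem_range.mpr (by omega))]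
    · unfold S
      rw [if_pos rfl, Finset.mul_sum]
      refine Finset.sum_congr rfl fun R _ => ?_
      have : (lev h + tlev R = m) ↔ (tlev R = m - lev h) := by omega
      simp only [this]
      split_ifs <;> simp
    · intro j _ hj
      rw [if_neg (Ne.symm hj), zero_mul]
  · rw [Finset.sum_eq_zero, Finset.sum_eq_zero]
    · intro j hj
      have := Finset.mem_range.mp hj
      rw [if_neg (by omega), zero_mul]
    · intro R _
      rw [if_neg (by omega)]

lemma S_nonneg (d : ℕ) (w : Fin d → HI n → ℝ) (hw : ∀ i h, 0 ≤ w i h) (m : ℕ) :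
    0 ≤ S d w m := by
  unfold S
  refine Finset.sum_nonneg fun R _ => ?_
  split_ifs
  · exact Finset.prod_nonneg fun i _ => hw i _
  · exact le_rfl

lemma S_le (a r : ℝ) (ha : 0 ≤ a) (hr : 0 ≤ r) : ∀ (d : ℕ) (w : Fin d → HI n → ℝ),
    (∀ i h, 0 ≤ w i h) →
    (∀ i j, (∑ h : HI n, if lev h = j then w i h else 0) ≤ a * r ^ j) → 1 ≤ d → ∀ m : ℕ,
    S d w m ≤ a ^ d * r ^ m * ((m : ℝ) + 1) ^ (d - 1)
  | 0, _, _, _, h, _ => absurd h (by norm_num)
  | 1, w, hw, hA, _, m => by
    rw [S_succ, Finset.sum_eq_single_of_mem m (Finset.mem_range.mpr (by omega))]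
    · rw [S_zero, if_pos (by omega)]
      simpa using hA 0 m
    · intro j hj hjm
      have := Finset.mem_range.mp hj
      rw [S_zero, if_neg (by omega), mul_zero]
  | d + 2, w, hw, hA, _, m => by
    rw [S_succ]
    calc ∑ j ∈ Finset.range (m + 1),
        (∑ h : HI n, if lev h = j then w 0 h else 0) * S (d + 1) (fun i => w i.succ) (m - j)
        ≤ ∑ j ∈ Finset.range (m + 1), a ^ (d + 2) * r ^ m * ((m : ℝ) + 1) ^ d := by
          refine Finset.sum_le_sum fun j hj => ?_
          have hjm : j ≤ m := by have := Finset.mem_range.mp hj; omega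
          have h1 := hA 0 j
          have h2 := S_le a r ha hr (d + 1) (fun i => w i.succ) (fun i h => hw i.succ h)
            (fun i j => hA i.succ j) (by omega) (m - j)
          have h3 := S_nonneg (d + 1) (fun i => w i.succ) (fun i h => hw i.succ h) (m - j)
          have h4 : ((m - j : ℕ) : ℝ) + 1 ≤ (m : ℝ) + 1 := by
            have : ((m - j : ℕ) : ℝ) ≤ (m : ℝ) := by exact_mod_cast Nat.sub_le m j
            linarith
          calc _ ≤ (a * r ^ j) * (a ^ (d + 1) * r ^ (m - j) * (((m - j : ℕ) : ℝ) + 1) ^ d) :=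
                mul_le_mul h1 h2 h3 (by positivity)
            _ ≤ (a * r ^ j) * (a ^ (d + 1) * r ^ (m - j) * ((m : ℝ) + 1) ^ d) := by
                gcongr
            _ = a ^ (d + 2) * (r ^ j * r ^ (m - j)) * ((m : ℝ) + 1) ^ d := by ring
            _ = a ^ (d + 2) * r ^ m * ((m : ℝ) + 1) ^ d := by
                rw [← pow_add, Nat.add_sub_cancel' hjm]
      _ = a ^ (d + 2) * r ^ m * ((m : ℝ) + 1) ^ (d + 2 - 1) := by
          rw [Finset.sum_const, Finset.card_range, nsmul_eq_mul]
          have : d + 2 - 1 = d + 1 := rfl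
          rw [this, pow_succ ((m : ℝ) + 1) d]
          push_cast
          ring

/-- sum over the indices of level `j` -/
lemma sum_lev (j : ℕ) (f : HI n → ℝ) :
    (∑ h : HI n, if lev h = j then f h else 0)
      = (if j = 0 then f none else 0)
        + ∑ i : Fin n, if (i : ℕ) = j then ∑ k : Fin (2 ^ (i : ℕ)), f (some ⟨i, k⟩) else 0 := by
  rw [Fintype.sum_option]
  congr 1
  · simp [lev, eq_comm]
  · rw [Fintype.sum_sigma]
    refine Finset.sum_congr rfl fun i _ => ?_
    have hl : ∀ k : Fin (2 ^ (i : ℕ)), lev (some ⟨i, k⟩ : HI n) = (i : ℕ) := fun _ => rfl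
    by_cases hij : (i : ℕ) = j
    · rw [if_pos hij]
      exact Finset.sum_congr rfl fun k _ => if_pos ((hl k).trans hij)
    · rw [if_neg hij]
      exact Finset.sum_eq_zero fun k _ => if_neg fun h => hij ((hl k).symm.trans h)

lemma sum_lev_le (j : ℕ) (f : HI n → ℝ) (c : ℝ) (hc : 0 ≤ c)
    (h : ∀ i : Fin n, (i : ℕ) = j → ∑ k : Fin (2 ^ (i : ℕ)), f (some ⟨i, k⟩) ≤ c) :
    (∑ h : HI n, if lev h = j then f h else 0) ≤ (if j = 0 then f none else 0) + c := by
  rw [sum_lev]
  refine add_le_add le_rfl ?_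
  by_cases hj : j < n
  · rw [Finset.sum_eq_single_of_mem (⟨j, hj⟩ : Fin n) (Finset.mem_univ _)]
    · rw [if_pos rfl]
      exact h _ rfl
    · intro i _ hi
      rw [if_neg]
      intro h'
      exact hi (Fin.ext h')
  · rw [Finset.sum_eq_zero]
    · exact hc
    · intro i _
      rw [if_neg]
      have := i.2
      omega

theorem count : StmtCount := by
  intro d n m hd
  have h1 : ((Finset.univ.filter fun R : Fin d → HI n => tlev R = m).card : ℝ)
      = S (n := n) d (fun _ _ => (1 : ℝ)) m := by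
    unfold S
    rw [Finset.card_filter]
    push_cast
    refine Finset.sum_congr rfl fun R _ => ?_
    simp
  rw [h1]
  refine S_le 2 2 (by norm_num) (by norm_num) d _ (fun _ _ => zero_le_one) ?_ hd m
  intro i j
  have h2 := sum_lev_le (n := n) j (fun _ => (1 : ℝ)) (2 ^ j) (by positivity) (by
    intro i hi
    simp [hi])
  refine h2.trans ?_
  split_ifs with h0
  · subst h0; norm_num
  · have : (0 : ℝ) < 2 ^ j := by positivity
    linarith

lemma tentR_nonneg (z : ℝ) : 0 ≤ tentR z := le_max_left _ _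

lemma tentR_le_one (z : ℝ) : tentR z ≤ 1 := by
  unfold tentR
  exact max_le zero_le_one (by linarith [abs_nonneg (2 * z - 1)])

lemma tentR_pos {z : ℝ} (h : tentR z ≠ 0) : 0 < z ∧ z < 1 := by
  have h1 : 0 < 1 - |2 * z - 1| := by
    by_contra hc
    exact h (max_eq_left (not_lt.mp hc))
  have h2 : |2 * z - 1| < 1 := by linarith
  rw [abs_lt] at h2
  constructor <;> linarith [h2.1, h2.2]

lemma sum_tent (N : ℕ) (u : ℝ) : ∑ k : Fin N, tentR (u - (k : ℕ)) ^ 2 ≤ 1 := by
  by_cases h : ∀ k : Fin N, tentR (u - (k : ℕ)) = 0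
  · rw [Finset.sum_eq_zero]
    · exact zero_le_one
    · intro k _
      rw [h k]; norm_num
  · push Not at h
    obtain ⟨k0, hk0⟩ := h
    rw [Finset.sum_eq_single_of_mem k0 (Finset.mem_univ _)]
    · have := tentR_le_one (u - (k0 : ℕ))
      have := tentR_nonneg (u - (k0 : ℕ))
      nlinarith
    · intro k _ hk
      by_contra hne
      have hne' : tentR (u - (k : ℕ)) ≠ 0 := by
        intro h0; rw [h0] at hne; norm_num at hne
      obtain ⟨a1, a2⟩ := tentR_pos hk0
      obtain ⟨b1, b2⟩ := tentR_pos hne'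
      have h1 : ((k0 : ℕ) : ℝ) < ((k : ℕ) : ℝ) + 1 := by linarith
      have h2 : ((k : ℕ) : ℝ) < ((k0 : ℕ) : ℝ) + 1 := by linarith
      have h1' : (k0 : ℕ) < (k : ℕ) + 1 := by exact_mod_cast h1
      have h2' : (k : ℕ) < (k0 : ℕ) + 1 := by exact_mod_cast h2
      exact hk (Fin.ext (by omega))

lemma sum_zero (t : ℝ) :
    ∑ k : Fin (2 ^ 0), tentR (2 ^ 0 * t - (k : ℕ)) ^ 2 ≤ tentR t ^ 2 := by
  have h : ∀ k : Fin (2 ^ 0), tentR (2 ^ 0 * t - (k : ℕ)) ^ 2 = tentR t ^ 2 := by
    intro k
    have : (k : ℕ) = 0 := by have := k.2; omega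
    rw [this]
    simp
  rw [Finset.sum_congr rfl fun k _ => h k, Finset.sum_const, Finset.card_univ, Fintype.card_fin]
  simp

lemma sch_some_sq (i : Fin n) (k : Fin (2 ^ (i : ℕ))) (t : ℝ) :
    sch (some ⟨i, k⟩ : HI n) t ^ 2
      = (1 / 2) ^ (i : ℕ) / 4 * tentR (2 ^ (i : ℕ) * t - (k : ℕ)) ^ 2 := by
  unfold sch
  simp only
  rw [mul_pow, div_pow, ← pow_mul, mul_comm (i : ℕ) 2, pow_mul, div_pow, Real.sq_sqrt (by norm_num)]
  norm_num

theorem varThm : StmtVar := by
  intro d n m x hd hx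
  have h1 : ∑ R ∈ Finset.univ.filter (fun R : Fin d → HI n => tlev R = m), schD R x ^ 2
      = S (n := n) d (fun i h => sch h (x i) ^ 2) m := by
    unfold S schD
    rw [Finset.sum_filter]
    refine Finset.sum_congr rfl fun R _ => ?_
    rw [Finset.prod_pow]
  rw [h1]
  have h2 := S_le (n := n) 1 (1 / 2) (by norm_num) (by norm_num) d (fun i h => sch h (x i) ^ 2)
    (fun _ _ => sq_nonneg _) ?_ hd m
  · simpa using h2
  intro i j
  have h3 := sum_lev_le (n := n) j (fun h => sch h (x i) ^ 2)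
    ((1 / 2) ^ j / 4 * (if j = 0 then tentR (x i) ^ 2 else 1)) (by
      split_ifs
      · positivity
      · positivity) (by
    intro i' hi'
    simp_rw [sch_some_sq]
    rw [← Finset.mul_sum, hi']
    refine mul_le_mul_of_nonneg_left ?_ (by positivity)
    split_ifs with h0
    · subst h0
      exact sum_zero (x i)
    · exact sum_tent _ _)
  refine h3.trans ?_
  rw [one_mul]
  obtain ⟨hx0, hx1⟩ := hx i
  split_ifs with h0
  · subst h0
    have ht : tentR (x i) ≤ 2 * (1 - x i) := by
      unfold tentR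
      refine max_le (by linarith) ?_
      have := neg_abs_le (2 * x i - 1)
      have := le_abs_self (2 * x i - 1)
      linarith
    have ht0 := tentR_nonneg (x i)
    simp only [sch, pow_zero]
    nlinarith
  · have : (0 : ℝ) < (1 / 2) ^ j := by positivity
    linarith

end Sheet.Count
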