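import Mathlib

/-!
# The Brownian sheet (definition used in the hand-in for MP_e5cfa3_pr)
-/

open MeasureTheory ProbabilityTheory

namespace Sheet

/-- The `d`-parameter Brownian sheet on `[0,1]^d`: a centred Gaussian process with covariance
`∏ i, min (x i) (y i)` and almost surely continuous paths. -/
structure IsBrownianSheet {d : ℕ} {Ω : Type*} [MeasurableSpace Ω]
    (B : (Fin d → unitInterval) → Ω → ℝ) (P : Measure Ω) : Prop where
  gaussian : IsGaussianProcess B P
  mean_zero : ∀ x, ∫ ω, B x ω ∂P = 0
  covariance_eq : ∀ x y, cov[B x, B y; P] = ∏ i, min (x i : ℝ) (y i : ℝ)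
  continuous_paths : ∀ᵐ ω ∂P, Continuous fun x => B x ω

end Sheet
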