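import Pool.Agent.Sheet.Skel

/-!
# SHEET, module DENS: density comparison for products of Gaussian measures
-/

open MeasureTheory ProbabilityTheory
open scoped ENNReal NNReal

namespace Sheet.Dens

lemma pi_le {ι : Type*} [Fintype ι] (μ ν : ι → Measure ℝ) [∀ i, SigmaFinite (μ i)]
    (c : ι → ℝ≥0∞) (h : ∀ i (B : Set ℝ), c i * μ i B ≤ ν i B) (A : Set (ι → ℝ))
    (hA : MeasurableSet A) :
    (∏ i, c i) * Measure.pi μ A ≤ Measure.pi ν A := by
  have key : ((∏ i, c i) • (Measure.pi μ)).toOuterMeasure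
      ≤ OuterMeasure.pi (fun i => (ν i).toOuterMeasure) := by
    rw [OuterMeasure.le_pi]
    intro s _
    have h1 : ((∏ i, c i) • (Measure.pi μ)).toOuterMeasure (Set.univ.pi s)
        = (∏ i, c i) * ∏ i, μ i (s i) := by
      have : ((∏ i, c i) • (Measure.pi μ)) (Set.univ.pi s)
        = (∏ i, c i) * ∏ i, μ i (s i) := by
        rw [Measure.smul_apply, Measure.pi_pi, smul_eq_mul]
      exact this
    rw [h1, ← Finset.prod_mul_distrib]
    exact Finset.prod_le_prod' (fun i _ => h i (s i))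
  have h2 := key A
  have h3 : Measure.pi ν A = OuterMeasure.pi (fun i => (ν i).toOuterMeasure) A := by
    rw [Measure.pi, toMeasure_apply _ _ hA]
  rw [h3]
  exact h2

lemma pdf_le (s x : ℝ) (hs : 0 < s) (hs1 : s ≤ 1) :
    s * gaussianPDFReal 0 (NNReal.mk (s ^ 2) (sq_nonneg s)) x ≤ gaussianPDFReal 0 1 x := by
  rw [gaussianPDFReal_def, gaussianPDFReal_def]
  simp only [NNReal.coe_mk, NNReal.coe_one, mul_one, sub_zero]
  have h1 : √(2 * Real.pi * s ^ 2) = √(2 * Real.pi) * s := by
    rw [Real.sqrt_mul (by positivity), Real.sqrt_sq hs.le]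
  rw [h1, mul_inv]
  have h2 : s * ((√(2 * Real.pi))⁻¹ * s⁻¹ * Real.exp (-x ^ 2 / (2 * s ^ 2)))
      = (√(2 * Real.pi))⁻¹ * Real.exp (-x ^ 2 / (2 * s ^ 2)) := by
    field_simp
  rw [h2]
  refine mul_le_mul_of_nonneg_left ?_ (by positivity)
  apply Real.exp_le_exp.mpr
  rw [neg_div, neg_div, neg_le_neg_iff]
  have hs2 : s ^ 2 ≤ 1 := by nlinarith
  exact div_le_div_of_nonneg_left (sq_nonneg x) (by positivity) (by linarith)

lemma gauss_le (s : ℝ) (hs : 0 < s) (hs1 : s ≤ 1) (B : Set ℝ) :
    ENNReal.ofReal s * (gaussianReal 0 1).map (s * ·) B ≤ gaussianReal 0 1 B := by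
  rw [gaussianReal_map_const_mul]
  simp only [mul_zero, mul_one]
  have hne : (NNReal.mk (s ^ 2) (sq_nonneg s)) ≠ 0 := by
    intro h
    have : s ^ 2 = 0 := congrArg NNReal.toReal h
    have : s = 0 := by simpa using this
    exact hs.ne' this
  rw [gaussianReal_apply _ hne, gaussianReal_apply _ one_ne_zero]
  rw [← lintegral_const_mul _ (measurable_gaussianPDF _ _)]
  refine lintegral_mono fun x => ?_
  rw [gaussianPDF_def, gaussianPDF_def]
  simp only
  rw [← ENNReal.ofReal_mul hs.le]
  exact ENNReal.ofReal_le_ofReal (pdf_le s x hs hs1)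

theorem dens : StmtDens := by
  intro ι _ s A hs hs1 hA
  have hm : Measurable (fun (g : ι → ℝ) i => s i * g i) := by fun_prop
  have hmap : (Measure.pi fun _ : ι => gaussianReal 0 1).map (fun g i => s i * g i)
      = Measure.pi (fun i => (gaussianReal 0 1).map (s i * ·)) := by
    refine Measure.pi_map_pi (μ := fun _ : ι => gaussianReal 0 1)
      (f := fun i x => s i * x) (hμ := ?_) (fun i => by fun_prop)
    intro i
    have : IsProbabilityMeasure ((gaussianReal 0 1).map (s i * ·)) :=
      Measure.isProbabilityMeasure_map (by fun_prop)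
    infer_instance
  have hp : ∀ i, IsProbabilityMeasure ((gaussianReal 0 1).map (s i * ·)) := fun i =>
    Measure.isProbabilityMeasure_map (by fun_prop)
  have h := pi_le (fun i => (gaussianReal 0 1).map (s i * ·)) (fun _ => gaussianReal 0 1)
    (fun i => ENNReal.ofReal (s i)) (fun i B => gauss_le (s i) (hs i) (hs1 i) B) A hA
  rw [← hmap, Measure.map_apply hm hA, ← ENNReal.ofReal_prod_of_nonneg (fun i _ => (hs i).le)] at h
  have h' := ENNReal.toReal_mono (measure_ne_top _ _) h
  rw [ENNReal.toReal_mul, ENNReal.toReal_ofReal (Finset.prod_nonneg fun i _ => (hs i).le)] at h'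
  exact h'

end Sheet.Dens
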