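import Pool.Agent.Helper43.SH.Law

/-!
# SHEET, module EXIST: a Brownian sheet exists (random Schauder series)
-/

namespace Sheet

theorem stmtExist : StmtExist := Ex.stmtExist

end Sheet
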