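import Pool.Agent.Sheet.Basic

/-!
# SHEET, module GAUSS, parts 1, 2, 5

Centred Gaussian laws on a finite product are determined by their kernels; representable kernels are
covariance kernels; a bound uniform over shifts for an independent summand bounds the whole.
-/

open MeasureTheory ProbabilityTheory

namespace Sheet

/-- Laws are determined by their kernels. -/
theorem gkUnique : StmtGKUnique := by
  classical
  intro Q _ μ ν K hμ hν
  have := hμ.1
  have := hν.1
  apply Measure.ext_of_charFunDual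
  funext L
  rw [charFunDual_apply, charFunDual_apply]
  have hL : ∀ f : Q → ℝ, L f = ∑ x, L (Pi.single x 1) * f x := by
    intro f
    have h1 : f = ∑ x, f x • (Pi.single x (1 : ℝ) : Q → ℝ) := by
      funext y
      simp [Finset.sum_apply, Pi.single_apply]
    conv_lhs => rw [h1]
    rw [map_sum]
    refine Finset.sum_congr rfl fun x _ => ?_
    rw [map_smul, smul_eq_mul, mul_comm]
  have h2 : (fun f : Q → ℝ => Complex.exp ((L f : ℂ) * Complex.I))
      = fun f => Complex.exp (((∑ x, L (Pi.single x 1) * f x : ℝ) : ℂ) * Complex.I) := by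
    funext f
    rw [← hL f]
  rw [h2, hμ.2, hν.2]

/-- The law of `∑ i, g_i φ_i` with independent standard normal coefficients. -/
theorem gk_of_rep {Q : Type*} [Fintype Q] {n : ℕ} (φ : Fin n → Q → ℝ) :
    IsGK ((Measure.pi fun _ : Fin n => gaussianReal 0 1).map
      (fun (g : Fin n → ℝ) (x : Q) => ∑ i, φ i x * g i))
      (fun x y => ∑ i, φ i x * φ i y) := by
  have hm : Measurable (fun (g : Fin n → ℝ) (x : Q) => ∑ i, φ i x * g i) := by
    refine measurable_pi_lambda _ fun x => ?_
    fun_prop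
  refine ⟨Measure.isProbabilityMeasure_map hm.aemeasurable, fun a => ?_⟩
  rw [integral_map hm.aemeasurable (by
    apply Continuous.aestronglyMeasurable
    fun_prop)]
  -- the coefficients of the linear form
  set t : Fin n → ℝ := fun i => ∑ x, a x * φ i x with ht
  have e1 : ∀ g : Fin n → ℝ, (∑ x, a x * ∑ i, φ i x * g i) = ∑ i, t i * g i := by
    intro g
    simp only [ht, Finset.mul_sum, Finset.sum_mul]
    rw [Finset.sum_comm]
    refine Finset.sum_congr rfl fun i _ => Finset.sum_congr rfl fun x _ => by ring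
  have e2 : (∑ x, ∑ y, a x * a y * ∑ i, φ i x * φ i y) = ∑ i, t i ^ 2 := by
    simp only [ht, sq, Finset.mul_sum, Finset.sum_mul]
    calc ∑ x, ∑ y, ∑ i, a x * a y * (φ i x * φ i y)
        = ∑ x, ∑ i, ∑ y, a x * a y * (φ i x * φ i y) :=
          Finset.sum_congr rfl fun x _ => Finset.sum_comm
      _ = ∑ i, ∑ x, ∑ y, a x * a y * (φ i x * φ i y) := Finset.sum_comm
      _ = _ := by
          refine Finset.sum_congr rfl fun i _ => ?_
          rw [Finset.sum_comm]
          refine Finset.sum_congr rfl fun y _ => Finset.sum_congr rfl fun x _ => by ring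
  have e3 : ∀ g : Fin n → ℝ, Complex.exp (((∑ x, a x * ∑ i, φ i x * g i : ℝ) : ℂ) * Complex.I)
      = ∏ i, Complex.exp ((t i : ℂ) * (g i : ℂ) * Complex.I) := by
    intro g
    rw [e1 g, ← Complex.exp_sum]
    congr 1
    push_cast
    rw [Finset.sum_mul]
  simp only [e3]
  rw [integral_fintype_prod_eq_prod (𝕜 := ℂ)
    (fun (i : Fin n) (x : ℝ) => Complex.exp ((t i : ℂ) * (x : ℂ) * Complex.I))]
  have e4 : ∀ i, ∫ x : ℝ, Complex.exp ((t i : ℂ) * (x : ℂ) * Complex.I) ∂(gaussianReal 0 1)
      = Complex.exp (-((t i : ℂ) ^ 2) / 2) := by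
    intro i
    rw [← charFun_apply_real, charFun_gaussianReal]
    congr 1
    push_cast
    ring
  simp only [e4]
  rw [← Complex.exp_sum, e2]
  congr 1
  push_cast
  rw [← Finset.sum_div, Finset.sum_neg_distrib]

/-- Representable kernels are covariance kernels. -/
theorem gkExists : StmtGKExists := by
  intro Q _ K hK
  obtain ⟨n, φ, hφ⟩ := hK
  have hK' : K = fun x y => ∑ i, φ i x * φ i y := by
    funext x y; exact hφ x y
  rw [hK']
  exact ⟨_, gk_of_rep (Q := Q) φ⟩

/-- The law of the sum of a scaled Gaussian vector and an independent Gaussian vector. -/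
theorem gk_add {Q : Type*} [Fintype Q] {τ σ : Measure (Q → ℝ)} {κ ρ : Q → Q → ℝ} (α : ℝ)
    (hτ : IsGK τ κ) (hσ : IsGK σ ρ) :
    IsGK ((τ.prod σ).map (fun (p : (Q → ℝ) × (Q → ℝ)) (x : Q) => α * p.1 x + p.2 x))
      (fun x y => α ^ 2 * κ x y + ρ x y) := by
  have := hτ.1
  have := hσ.1
  have hm : Measurable (fun (p : (Q → ℝ) × (Q → ℝ)) (x : Q) => α * p.1 x + p.2 x) := by
    refine measurable_pi_lambda _ fun x => ?_
    fun_prop
  refine ⟨Measure.isProbabilityMeasure_map hm.aemeasurable, fun a => ?_⟩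
  rw [integral_map hm.aemeasurable (by
    apply Continuous.aestronglyMeasurable
    fun_prop)]
  have e1 : ∀ p : (Q → ℝ) × (Q → ℝ),
      Complex.exp (((∑ x, a x * (α * p.1 x + p.2 x) : ℝ) : ℂ) * Complex.I)
      = Complex.exp (((∑ x, (α * a x) * p.1 x : ℝ) : ℂ) * Complex.I)
        * Complex.exp (((∑ x, a x * p.2 x : ℝ) : ℂ) * Complex.I) := by
    intro p
    rw [← Complex.exp_add, ← add_mul, ← Complex.ofReal_add, ← Finset.sum_add_distrib]
    congr 4
    funext x
    ring
  simp only [e1]
  rw [integral_prod_mul (μ := τ) (ν := σ)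
    (fun f : Q → ℝ => Complex.exp (((∑ x, (α * a x) * f x : ℝ) : ℂ) * Complex.I))
    (fun f : Q → ℝ => Complex.exp (((∑ x, a x * f x : ℝ) : ℂ) * Complex.I)),
    hτ.2 (fun x => α * a x), hσ.2 a, ← Complex.exp_add, ← Complex.ofReal_add]
  congr 2
  rw [← add_div, ← neg_add, ← Finset.sum_add_distrib]
  congr 3
  funext x
  rw [← Finset.sum_add_distrib]
  refine Finset.sum_congr rfl fun y _ => by ring

/-- A bound uniform over shifts for an independent summand bounds the whole. -/
theorem gkShift : StmtGKShift := by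
  intro Q _ μ τ K κ ρ α ε b hμ hτ hρ hK hb
  obtain ⟨σ, hσ⟩ := gkExists Q ρ hρ
  have := hτ.1
  have := hσ.1
  have := hμ.1
  have hadd := gk_add α hτ hσ
  have hK' : K = fun x y => α ^ 2 * κ x y + ρ x y := by
    funext x y; exact hK x y
  have hμe : μ = (τ.prod σ).map (fun (p : (Q → ℝ) × (Q → ℝ)) (x : Q) => α * p.1 x + p.2 x) :=
    gkUnique Q _ _ K hμ (by rw [hK']; exact hadd)
  have hm : Measurable (fun (p : (Q → ℝ) × (Q → ℝ)) (x : Q) => α * p.1 x + p.2 x) := by
    refine measurable_pi_lambda _ fun x => ?_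
    fun_prop
  have hS : MeasurableSet {f : Q → ℝ | ∀ x, |f x| ≤ ε} := by
    have : {f : Q → ℝ | ∀ x, |f x| ≤ ε} = ⋂ x, {f : Q → ℝ | |f x| ≤ ε} := by
      ext f; simp
    rw [this]
    refine MeasurableSet.iInter fun x => ?_
    exact measurableSet_le (by fun_prop) measurable_const
  have hb0 : 0 ≤ b := le_trans measureReal_nonneg (hb 0)
  have h1 : μ {f : Q → ℝ | ∀ x, |f x| ≤ ε} ≤ ENNReal.ofReal b := by
    rw [hμe, Measure.map_apply hm hS, Measure.prod_apply_symm (hm hS)]
    calc ∫⁻ h, τ ((fun f => (f, h)) ⁻¹' ((fun (p : (Q → ℝ) × (Q → ℝ)) (x : Q) =>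
            α * p.1 x + p.2 x) ⁻¹' {f : Q → ℝ | ∀ x, |f x| ≤ ε})) ∂σ
        ≤ ∫⁻ _, ENNReal.ofReal b ∂σ := by
          refine lintegral_mono fun h => ?_
          have h2 := hb h
          rw [Measure.real, ← ENNReal.le_ofReal_iff_toReal_le (measure_ne_top _ _) hb0] at h2
          exact h2
      _ = ENNReal.ofReal b := by simp
  rw [Measure.real]
  exact ENNReal.toReal_le_of_le_ofReal hb0 h1

end Sheet
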