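import Pool.Agent.Sheet.Basic

/-!
# SHEET, module GAUSS2: the kernels of tree laws and of layers
-/

open MeasureTheory ProbabilityTheory

namespace Sheet

/-- the point mass at zero has kernel zero -/
lemma isGK_dirac {Q : Type*} [Fintype Q] (K : Q → Q → ℝ) (hK : ∀ x y, K x y = 0) :
    IsGK (Measure.dirac (0 : Q → ℝ)) K := by
  refine ⟨inferInstance, fun a => ?_⟩
  rw [integral_dirac]
  simp [hK]

/-- gluing two levels -/
lemma glue_sum {P : Type} [Fintype P] (L : ℕ) (a : Grid (L + 1) × P → ℝ)
    (p : (P → ℝ) × (Dig → Grid L × P → ℝ)) :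
    ∑ z : Grid (L + 1) × P, a z * glue L p z
      = ∑ x : P, (∑ y : Grid (L + 1), a (y, x) * tent (L + 1) y) * p.1 x
        + ∑ e : Dig, ∑ w : Grid L × P, a ((e, w.1), w.2) * p.2 e w := by
  unfold glue
  simp only [mul_add, Finset.sum_add_distrib]
  congr 1
  · rw [Fintype.sum_prod_type_right]
    refine Finset.sum_congr rfl fun x _ => ?_
    rw [Finset.sum_mul]
    refine Finset.sum_congr rfl fun y _ => ?_
    ring
  · rw [Fintype.sum_prod_type, sum_grid_succ]
    refine Finset.sum_congr rfl fun e _ => ?_
    rw [Fintype.sum_prod_type]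

/-- the double sum splits in the same way -/
lemma kernel_sum {P : Type} [Fintype P] (L h : ℕ) (a : Grid (L + 1) × P → ℝ)
    (κ : ℕ → P → P → ℝ) :
    ∑ y : Grid (L + 1) × P, ∑ z : Grid (L + 1) × P, a y * a z *
        (∑ j ∈ Finset.range (h + 1), ker1 j (L + 1) y.1 z.1 * κ (h + 1 - 1 - j) y.2 z.2)
      = (∑ x : P, ∑ x' : P, (∑ y : Grid (L + 1), a (y, x) * tent (L + 1) y) *
            (∑ y : Grid (L + 1), a (y, x') * tent (L + 1) y) * κ h x x')
        + ∑ e : Dig, ∑ w : Grid L × P, ∑ w' : Grid L × P,
            a ((e, w.1), w.2) * a ((e, w'.1), w'.2) *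
              (∑ j ∈ Finset.range h, ker1 j L w.1 w'.1 * κ (h - 1 - j) w.2 w'.2) := by
  have key : ∀ y z : Grid (L + 1) × P,
      (∑ j ∈ Finset.range (h + 1), ker1 j (L + 1) y.1 z.1 * κ (h + 1 - 1 - j) y.2 z.2)
        = tent (L + 1) y.1 * tent (L + 1) z.1 * κ h y.2 z.2
          + if y.1.1 = z.1.1 then
              ∑ j ∈ Finset.range h, ker1 j L y.1.2 z.1.2 * κ (h - 1 - j) y.2 z.2 else 0 := by
    intro y z
    rw [Finset.sum_range_succ']
    rw [add_comm]
    congr 1
    split_ifs with hyz
    · refine Finset.sum_congr rfl fun j _ => ?_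
      have : ker1 (j + 1) (L + 1) y.1 z.1 = ker1 j L y.1.2 z.1.2 := by
        simp only [ker1]
        rw [if_pos hyz]
      rw [this]
      have e1 : h + 1 - 1 - (j + 1) = h - 1 - j := by omega
      rw [e1]
    · refine Finset.sum_eq_zero fun j _ => ?_
      have : ker1 (j + 1) (L + 1) y.1 z.1 = 0 := by
        simp only [ker1]
        rw [if_neg hyz]
      rw [this, zero_mul]
  simp only [key, mul_add, Finset.sum_add_distrib]
  congr 1
  · rw [Fintype.sum_prod_type_right]
    refine Finset.sum_congr rfl fun x _ => ?_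
    rw [Finset.sum_comm, Fintype.sum_prod_type_right]
    refine Finset.sum_congr rfl fun x' _ => ?_
    rw [Finset.sum_mul_sum, Finset.sum_mul, Finset.sum_comm]
    refine Finset.sum_congr rfl fun y _ => ?_
    rw [Finset.sum_mul]
    refine Finset.sum_congr rfl fun z _ => ?_
    ring
  · rw [Fintype.sum_prod_type, sum_grid_succ]
    refine Finset.sum_congr rfl fun e _ => ?_
    rw [Fintype.sum_prod_type]
    refine Finset.sum_congr rfl fun y _ => ?_
    refine Finset.sum_congr rfl fun x _ => ?_
    rw [Fintype.sum_prod_type, sum_grid_succ, Finset.sum_eq_single e]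
    · rw [Fintype.sum_prod_type]
      refine Finset.sum_congr rfl fun z _ => ?_
      refine Finset.sum_congr rfl fun x' _ => ?_
      rw [if_pos rfl]
    · intro e' _ he'
      refine Finset.sum_eq_zero fun z _ => Finset.sum_eq_zero fun x' _ => ?_
      rw [if_neg (fun hh => he' hh.symm), mul_zero]
    · intro hh
      exact absurd (Finset.mem_univ _) hh

theorem gkTree : StmtGKTree := by
  intro P _ ν κ hν h
  induction h with
  | zero =>
    intro L
    cases L with
    | zero => unfold treeLaw; exact isGK_dirac _ (fun x y => by simp)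
    | succ L => unfold treeLaw; exact isGK_dirac _ (fun x y => by simp)
  | succ h ih =>
    intro L
    cases L with
    | zero =>
      unfold treeLaw
      refine isGK_dirac _ (fun x y => ?_)
      refine Finset.sum_eq_zero fun j _ => ?_
      cases j <;> simp [ker1]
    | succ L =>
      have hp : IsProbabilityMeasure (treeLaw ν (h + 1) (L + 1)) :=
        isProb_treeLaw ν (fun J => (hν J).1) _ _
      refine ⟨hp, fun a => ?_⟩
      have hp1 : IsProbabilityMeasure (ν h) := (hν h).1
      have hp2 : IsProbabilityMeasure (treeLaw ν h L) := (ih L).1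
      have hm : treeLaw ν (h + 1) (L + 1)
          = ((ν h).prod (Measure.pi fun _ : Dig => treeLaw ν h L)).map (glue L) := rfl
      rw [hm, integral_map (measurable_glue L).aemeasurable]
      · set A : P → ℝ := fun x => ∑ y : Grid (L + 1), a (y, x) * tent (L + 1) y with hA
        set B : Dig → Grid L × P → ℝ := fun e w => a ((e, w.1), w.2) with hB
        have h1 : ∀ p : (P → ℝ) × (Dig → Grid L × P → ℝ),
            Complex.exp (((∑ x, a x * glue L p x : ℝ) : ℂ) * Complex.I)
              = Complex.exp (((∑ x, A x * p.1 x : ℝ) : ℂ) * Complex.I) *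
                ∏ e : Dig, Complex.exp (((∑ w, B e w * p.2 e w : ℝ) : ℂ) * Complex.I) := by
          intro p
          rw [glue_sum, ← Complex.exp_sum, ← Complex.exp_add]
          congr 1
          simp only [hA, hB]
          push_cast
          rw [add_mul, ← Finset.sum_mul]
        simp only [h1]
        rw [integral_prod_mul
          (fun f : P → ℝ => Complex.exp (((∑ x, A x * f x : ℝ) : ℂ) * Complex.I))
          (fun g : Dig → Grid L × P → ℝ =>
            ∏ e : Dig, Complex.exp (((∑ w, B e w * g e w : ℝ) : ℂ) * Complex.I))]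
        rw [integral_fintype_prod_eq_prod (μ := fun _ : Dig => treeLaw ν h L)
          (fun (e : Dig) (g : Grid L × P → ℝ) =>
            Complex.exp (((∑ w, B e w * g w : ℝ) : ℂ) * Complex.I))]
        rw [(hν h).2 A]
        simp only [(ih L).2]
        rw [← Complex.exp_sum, ← Complex.exp_add]
        congr 1
        rw [kernel_sum]
        simp only [hA, hB]
        push_cast
        rw [← Finset.sum_div, Finset.sum_neg_distrib, ← add_div, neg_add]
      · refine Continuous.aestronglyMeasurable ?_
        fun_prop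

lemma isGK_nu0 (J : ℕ) : IsGK (nu0 J) (fun _ _ => if J = 0 then 1 else 0) := by
  unfold nu0
  split_ifs with hJ
  · refine ⟨inferInstance, fun a => ?_⟩
    have h1 : ∀ f : Unit → ℝ, Complex.exp (((∑ x, a x * f x : ℝ) : ℂ) * Complex.I)
        = ∏ x : Unit, Complex.exp (((a x * f x : ℝ) : ℂ) * Complex.I) := by
      intro f
      simp
    simp only [h1]
    rw [integral_fintype_prod_eq_prod (μ := fun _ : Unit => gaussianReal 0 1)
      (fun (x : Unit) (g : ℝ) => Complex.exp (((a x * g : ℝ) : ℂ) * Complex.I))]
    have h2 : ∀ t : ℝ, ∫ g, Complex.exp (((t * g : ℝ) : ℂ) * Complex.I) ∂(gaussianReal 0 1)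
        = Complex.exp (((-(t ^ 2) / 2 : ℝ) : ℂ)) := by
      intro t
      have h3 := charFun_gaussianReal (μ := 0) (v := 1) t
      rw [charFun_apply_real] at h3
      push_cast
      rw [h3]
      congr 1
      push_cast
      simp
      ring
    simp only [h2]
    rw [← Complex.exp_sum]
    congr 1
    push_cast
    simp
    ring
  · exact isGK_dirac _ (fun x y => rfl)

theorem gkLayer : StmtGKLayer := by
  intro L D
  induction D with
  | zero =>
    intro J
    exact isGK_nu0 J
  | succ D ih =>
    intro J
    have h := gkTree (Pt L D) (fun J => layer L D J) (fun J => kap L D J) ih (J + 1) L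
    exact h

end Sheet
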