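import Pool.Agent.Sheet.Basic

/-!
# SHEET, module GAUSS3: finite families of values of a Brownian sheet; trivial bound
-/

open MeasureTheory ProbabilityTheory

namespace Sheet

universe u

namespace Gauss3

theorem aemeasurable_family {d : ℕ} {Ω : Type u} [MeasurableSpace Ω] {P : Measure Ω}
    {B : (Fin d → unitInterval) → Ω → ℝ} (hB : IsBrownianSheet B P) {Q : Type} [Finite Q]
    (p : Q → Fin d → unitInterval) : AEMeasurable (fun ω z => B (p z) ω) P :=
  aemeasurable_pi_lambda _ fun z => hB.gaussian.aemeasurable (p z)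

theorem aemeasurable_sum {d : ℕ} {Ω : Type u} [MeasurableSpace Ω] {P : Measure Ω}
    {B : (Fin d → unitInterval) → Ω → ℝ} (hB : IsBrownianSheet B P) {Q : Type} [Fintype Q]
    (p : Q → Fin d → unitInterval) (a : Q → ℝ) :
    AEMeasurable (fun ω => ∑ z, a z * B (p z) ω) P :=
  Finset.aemeasurable_fun_sum _ fun z _ => (hB.gaussian.aemeasurable (p z)).const_mul _

theorem var_sum {d : ℕ} {Ω : Type u} [MeasurableSpace Ω] {P : Measure Ω}
    {B : (Fin d → unitInterval) → Ω → ℝ} (hB : IsBrownianSheet B P) {Q : Type} [Fintype Q]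
    (p : Q → Fin d → unitInterval) (a : Q → ℝ) :
    Var[fun ω => ∑ z, a z • B (p z) ω; P] =
      ∑ x, ∑ y, a x * a y * ∏ i, min (p x i : ℝ) (p y i : ℝ) := by
  have hP := hB.gaussian.isProbabilityMeasure
  have h1 : IsGaussianProcess (fun z ω => a z • B (p z) ω) P :=
    (hB.gaussian.comp_right p).smul a
  have h3 : ∀ z, MemLp (fun ω => a z • B (p z) ω) 2 P := fun z =>
    (h1.hasGaussianLaw_eval z).memLp_two
  rw [variance_fun_sum h3]
  refine Finset.sum_congr rfl fun x _ => Finset.sum_congr rfl fun y _ => ?_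
  have : cov[fun ω => a x • B (p x) ω, fun ω => a y • B (p y) ω; P] =
      a x * (a y * cov[B (p x), B (p y); P]) := by
    rw [← covariance_const_mul_right, ← covariance_const_mul_left]
    rfl
  rw [this, hB.covariance_eq]
  ring

theorem law_sum {d : ℕ} {Ω : Type u} [MeasurableSpace Ω] {P : Measure Ω}
    {B : (Fin d → unitInterval) → Ω → ℝ} (hB : IsBrownianSheet B P) {Q : Type} [Fintype Q]
    (p : Q → Fin d → unitInterval) (a : Q → ℝ) :
    P.map (fun ω => ∑ z, a z * B (p z) ω) = gaussianReal 0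
      (∑ x, ∑ y, a x * a y * ∏ i, min (p x i : ℝ) (p y i : ℝ)).toNNReal := by
  have h1 : IsGaussianProcess (fun z ω => a z • B (p z) ω) P :=
    (hB.gaussian.comp_right p).smul a
  have h2 := (h1.hasGaussianLaw_fun_sum (I := Finset.univ)).map_eq_gaussianReal
  have h4 : ∫ ω, ∑ z, a z • B (p z) ω ∂P = 0 := by
    rw [integral_finsetSum _ fun z _ => (h1.hasGaussianLaw_eval z).integrable]
    refine Finset.sum_eq_zero fun z _ => ?_
    rw [integral_smul, hB.mean_zero, smul_zero]
  rw [h4, var_sum hB] at h2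
  simpa only [smul_eq_mul] using h2

end Gauss3

open Gauss3 in
/-- finite families of values of a Brownian sheet have the right Gaussian law -/
theorem gkSheet : StmtGKSheet.{u} := by
  intro d Ω _ P B hB Q _ p
  have hP := hB.gaussian.isProbabilityMeasure
  have hm := aemeasurable_family hB p
  refine ⟨Measure.isProbabilityMeasure_map hm, fun a => ?_⟩
  have h1 := law_sum hB p a
  set v : ℝ := ∑ x, ∑ y, a x * a y * ∏ i, min (p x i : ℝ) (p y i : ℝ) with hv
  have hv0 : 0 ≤ v := by
    rw [hv, ← var_sum hB]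
    exact variance_nonneg _ _
  have hc : Continuous fun f : Q → ℝ =>
      Complex.exp (((∑ x, a x * f x : ℝ) : ℂ) * Complex.I) := by fun_prop
  have hc' : Continuous fun x : ℝ => Complex.exp (((1 : ℝ) : ℂ) * (x : ℂ) * Complex.I) := by
    fun_prop
  have h2 : ∫ f, Complex.exp (((∑ x, a x * f x : ℝ) : ℂ) * Complex.I)
      ∂(P.map (fun ω z => B (p z) ω)) =
      charFun (P.map (fun ω => ∑ z, a z * B (p z) ω)) 1 := by
    rw [integral_map hm hc.aestronglyMeasurable, charFun_apply_real,
      integral_map (aemeasurable_sum hB p a) hc'.aestronglyMeasurable]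
    simp
  rw [h2, h1, charFun_gaussianReal, Real.coe_toNNReal _ hv0]
  congr 1
  push_cast
  ring

/-- the trivial bound for `ε ≤ 1/2` -/
theorem triv : StmtTriv.{u} := by
  have hlt : (gaussianReal 0 1).real (Set.Icc (-(1 / 2)) (1 / 2)) < 1 := by
    have h0 : gaussianReal 0 1 (Set.Icc (-(1 / 2)) (1 / 2))ᶜ ≠ 0 := by
      intro h
      have h1 := gaussianReal_absolutelyContinuous' 0 one_ne_zero h
      have h2 : volume (Set.Ioi (1 / 2 : ℝ)) ≤ volume (Set.Icc (-(1 / 2 : ℝ)) (1 / 2))ᶜ := by
        refine measure_mono fun x hx => ?_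
        simp only [Set.mem_Ioi] at hx
        simp only [Set.mem_compl_iff, Set.mem_Icc, not_and, not_le]
        intro _
        exact hx
      rw [h1] at h2
      simp at h2
    have h1 : 0 < (gaussianReal 0 1).real (Set.Icc (-(1 / 2)) (1 / 2))ᶜ :=
      ENNReal.toReal_pos h0 (measure_ne_top _ _)
    rw [probReal_compl_eq_one_sub measurableSet_Icc] at h1
    linarith
  refine ⟨max (1 / 2) ((gaussianReal 0 1).real (Set.Icc (-(1 / 2)) (1 / 2))),
    lt_max_of_lt_left (by norm_num), max_lt (by norm_num) hlt, ?_⟩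
  intro d Ω _ P B hB ε hε
  have hP := hB.gaussian.isProbabilityMeasure
  refine le_max_of_le_right ?_
  have h1 : P.map (B fun _ => 1) = gaussianReal 0 1 := by
    have h := Gauss3.law_sum hB (Q := Unit) (fun _ _ => 1) (fun _ => 1)
    simpa using h
  have h2 := hB.gaussian.aemeasurable fun _ => 1
  rw [← h1, map_measureReal_apply_of_aemeasurable h2 measurableSet_Icc]
  refine measureReal_mono (fun ω hω => ?_)
  have h3 : |B (fun _ => 1) ω| ≤ 1 / 2 := (hω _).trans hε
  exact abs_le.1 h3

end Sheet
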