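import Pool.Agent.Sheet.Basic

/-!
# SHEET, module KER: the layer kernel is a representable summand of the kernel of the sheet
-/

namespace Sheet

namespace Ker

/-! ## Representable kernels -/

theorem rep_fin {Q ι : Type*} [Fintype ι] {K : Q → Q → ℝ} (φ : ι → Q → ℝ)
    (h : ∀ x y, K x y = ∑ i, φ i x * φ i y) : Rep K := by
  refine ⟨Fintype.card ι, fun i => φ ((Fintype.equivFin ι).symm i), fun x y => ?_⟩
  rw [h x y]
  exact (Equiv.sum_comp (Fintype.equivFin ι).symm (fun i => φ i x * φ i y)).symm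

theorem rep_one {Q : Type*} {K : Q → Q → ℝ} (φ : Q → ℝ) (h : ∀ x y, K x y = φ x * φ y) : Rep K :=
  rep_fin (ι := Unit) (fun _ => φ) fun x y => by simp [h]

theorem rep_zero {Q : Type*} : Rep (fun _ _ : Q => (0 : ℝ)) :=
  rep_fin (ι := Empty) (fun _ _ => 0) fun x y => by simp

theorem rep_add {Q : Type*} {K K' : Q → Q → ℝ} (h : Rep K) (h' : Rep K') :
    Rep (fun x y => K x y + K' x y) := by
  obtain ⟨n, φ, hφ⟩ := h
  obtain ⟨m, ψ, hψ⟩ := h'
  refine rep_fin (ι := Fin n ⊕ Fin m) (fun i => Sum.elim φ ψ i) fun x y => ?_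
  rw [Fintype.sum_sum_type, hφ, hψ]
  simp

theorem rep_mul {Q : Type*} {K K' : Q → Q → ℝ} (h : Rep K) (h' : Rep K') :
    Rep (fun x y => K x y * K' x y) := by
  obtain ⟨n, φ, hφ⟩ := h
  obtain ⟨m, ψ, hψ⟩ := h'
  refine rep_fin (ι := Fin n × Fin m) (fun i x => φ i.1 x * ψ i.2 x) fun x y => ?_
  rw [Fintype.sum_prod_type, hφ, hψ, Finset.sum_mul_sum]
  refine Finset.sum_congr rfl fun i _ => Finset.sum_congr rfl fun j _ => ?_
  ring

theorem rep_smul {Q : Type*} {K : Q → Q → ℝ} {c : ℝ} (hc : 0 ≤ c) (h : Rep K) :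
    Rep (fun x y => c * K x y) :=
  rep_mul (rep_one (K := fun _ _ : Q => c) (fun _ => √c) fun _ _ => (Real.mul_self_sqrt hc).symm) h

theorem rep_comp {Q Q' : Type*} {K : Q → Q → ℝ} (h : Rep K) (f : Q' → Q) :
    Rep (fun x y => K (f x) (f y)) := by
  obtain ⟨n, φ, hφ⟩ := h
  exact ⟨n, fun i x => φ i (f x), fun x y => hφ _ _⟩

theorem rep_sum {Q ι : Type*} (s : Finset ι) {K : ι → Q → Q → ℝ} (h : ∀ i ∈ s, Rep (K i)) :
    Rep (fun x y => ∑ i ∈ s, K i x y) := by
  classical
  induction s using Finset.induction_on with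
  | empty => simpa using rep_zero
  | insert a s ha ih =>
    have h1 := rep_add (h a (Finset.mem_insert_self _ _))
      (ih fun i hi => h i (Finset.mem_insert_of_mem hi))
    have h2 : (fun x y => ∑ i ∈ insert a s, K i x y) =
        fun x y => K a x y + ∑ i ∈ s, K i x y := by
      funext x y
      rw [Finset.sum_insert ha]
    rw [h2]
    exact h1

theorem rep_eq {Q ι : Type*} [Fintype ι] [DecidableEq ι] (f : Q → ι) :
    Rep (fun x y => if f x = f y then (1 : ℝ) else 0) := by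
  refine rep_fin (ι := ι) (fun i x => if f x = i then (1 : ℝ) else 0) fun x y => ?_
  by_cases h : f x = f y
  · simp [h]
  · simp [h]

theorem rep_congr {Q : Type*} {K K' : Q → Q → ℝ} (h : Rep K) (e : ∀ x y, K' x y = K x y) :
    Rep K' := by
  have : K' = K := by
    funext x y
    exact e x y
  rwa [this]

/-! ## One dimension -/

/-- covariance kernel of the Brownian bridge -/
noncomputable def beta (L : ℕ) (y z : Grid L) : ℝ := min (pt L y) (pt L z) - pt L y * pt L z

/-- tent functions of the two halves -/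
noncomputable def half (L : ℕ) (y : Grid (L + 1)) : ℝ := 1 / 2 - sg y.1.1 * sg y.1.2 * zeta L y.2

theorem beta_succ (L : ℕ) (y z : Grid (L + 1)) :
    beta (L + 1) y z = 1 / 4 * (tent (L + 1) y * tent (L + 1) z) +
      1 / 8 * ((if y.1.2 = z.1.2 then (1 : ℝ) else 0) * (half L y * half L z)) +
      1 / 4 * ((if y.1 = z.1 then (1 : ℝ) else 0) * beta L y.2 z.2) := by
  obtain ⟨⟨b, s⟩, y⟩ := y
  obtain ⟨⟨b', s'⟩, z⟩ := z
  have hy := abs_lt.1 (abs_zeta_lt L y)
  have hz := abs_lt.1 (abs_zeta_lt L z)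
  have h1 : pt (L + 1) ((b, s), y) = 1 / 2 + (- (sg s * (1 / 4 - sg b / 8)) + zeta L y / 4) := by
    rw [pt, zeta_succ]
  have h2 : pt (L + 1) ((b', s'), z) =
      1 / 2 + (- (sg s' * (1 / 4 - sg b' / 8)) + zeta L z / 4) := by
    rw [pt, zeta_succ]
  unfold beta half
  rw [h1, h2, tent_succ, tent_succ]
  unfold pt
  rcases le_total (zeta L y) (zeta L z) with hle | hle
  · cases b <;> cases s <;> cases b' <;> cases s' <;> simp only [sg_true, sg_false] <;>
      first
        | (rw [min_eq_left (by linarith [hy.1, hy.2, hz.1, hz.2]), min_eq_left (by linarith)]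
           simp
           ring)
        | (rw [min_eq_right (by linarith [hy.1, hy.2, hz.1, hz.2]), min_eq_left (by linarith)]
           simp
           ring)
  · cases b <;> cases s <;> cases b' <;> cases s' <;> simp only [sg_true, sg_false] <;>
      first
        | (rw [min_eq_right (by linarith [hy.1, hy.2, hz.1, hz.2]), min_eq_right (by linarith)]
           simp
           ring)
        | (rw [min_eq_left (by linarith [hy.1, hy.2, hz.1, hz.2]), min_eq_right (by linarith)]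
           simp
           ring)

theorem ker1_rep : ∀ j L : ℕ, Rep (ker1 j L)
  | 0, 0 => rep_zero
  | 0, L + 1 => rep_one (fun y => tent (L + 1) y) fun _ _ => rfl
  | _ + 1, 0 => rep_zero
  | j + 1, L + 1 => by
    refine rep_congr (rep_mul (rep_eq (fun y : Grid (L + 1) => y.1))
      (rep_comp (ker1_rep j L) (fun y : Grid (L + 1) => y.2))) fun y z => ?_
    change (if y.1 = z.1 then ker1 j L y.2 z.2 else 0) = _
    split_ifs <;> simp

/-- the bridge kernel is the sum of the layer kernels and of a representable kernel -/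
theorem beta_rep : ∀ L : ℕ, ∃ ρ : Grid L → Grid L → ℝ, Rep ρ ∧ ∀ y z,
    beta L y z = (∑ j ∈ Finset.range L, (1 / 4 : ℝ) ^ (j + 1) * ker1 j L y z) + ρ y z
  | 0 => by
    refine ⟨fun _ _ => 1 / 4, rep_one (fun _ => 1 / 2) fun _ _ => by norm_num, fun y z => ?_⟩
    simp [beta, pt, zeta]
    norm_num
  | L + 1 => by
    obtain ⟨ρ, hρ, h⟩ := beta_rep L
    refine ⟨fun y z => 1 / 8 * ((if y.1.2 = z.1.2 then (1 : ℝ) else 0) * (half L y * half L z)) +
      1 / 4 * ((if y.1 = z.1 then (1 : ℝ) else 0) * ρ y.2 z.2), ?_, ?_⟩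
    · refine rep_add (rep_smul (by norm_num) (rep_mul (rep_eq fun y : Grid (L + 1) => y.1.2)
        (rep_one (half L) fun _ _ => rfl))) (rep_smul (by norm_num)
        (rep_mul (rep_eq fun y : Grid (L + 1) => y.1)
          (rep_comp hρ (fun y : Grid (L + 1) => y.2))))
    · intro y z
      rw [beta_succ, h, Finset.sum_range_succ']
      have h1 : ker1 0 (L + 1) y z = tent (L + 1) y * tent (L + 1) z := rfl
      have h2 : ∀ j, ker1 (j + 1) (L + 1) y z = (if y.1 = z.1 then (1 : ℝ) else 0) *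
          ker1 j L y.2 z.2 := by
        intro j
        change (if y.1 = z.1 then ker1 j L y.2 z.2 else 0) = _
        split_ifs <;> simp
      have h3 : ∑ j ∈ Finset.range L, (1 / 4 : ℝ) ^ (j + 1 + 1) * ker1 (j + 1) (L + 1) y z =
          1 / 4 * ((if y.1 = z.1 then (1 : ℝ) else 0) *
            ∑ j ∈ Finset.range L, (1 / 4 : ℝ) ^ (j + 1) * ker1 j L y.2 z.2) := by
        rw [Finset.mul_sum, Finset.mul_sum]
        refine Finset.sum_congr rfl fun j _ => ?_
        rw [h2]
        ring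
      rw [h3, h1]
      ring

/-- the kernel of Brownian motion -/
theorem min_rep (L : ℕ) : ∃ ρ : Grid L → Grid L → ℝ, Rep ρ ∧ ∀ y z,
    min (pt L y) (pt L z) =
      (∑ j ∈ Finset.range L, (1 / 4 : ℝ) ^ (j + 1) * ker1 j L y z) + ρ y z := by
  obtain ⟨ρ, hρ, h⟩ := beta_rep L
  refine ⟨fun y z => ρ y z + pt L y * pt L z, rep_add hρ (rep_one (pt L) fun _ _ => rfl),
    fun y z => ?_⟩
  have := h y z
  unfold beta at this
  linarith

theorem min_rep' (L : ℕ) : Rep (fun y z : Grid L => min (pt L y) (pt L z)) := by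
  obtain ⟨ρ, hρ, h⟩ := min_rep L
  exact rep_congr (rep_add (rep_sum (Finset.range L) (K := fun j y z =>
    (1 / 4 : ℝ) ^ (j + 1) * ker1 j L y z) fun j _ => rep_smul (by positivity) (ker1_rep j L)) hρ) h

theorem kB_rep (L : ℕ) : ∀ D : ℕ, Rep (kB L D)
  | 0 => rep_one (fun _ => 1) fun _ _ => by simp [kB]
  | D + 1 => by
    refine rep_congr (rep_mul (rep_comp (min_rep' L) (fun y : Pt L (D + 1) => y.1))
      (rep_comp (kB_rep L D) (fun y : Pt L (D + 1) => y.2))) fun y z => rfl

theorem ker : StmtKer := by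
  intro L D
  induction D with
  | zero =>
    intro J _
    by_cases hJ : J = 0
    · refine ⟨fun _ _ => 0, rep_zero, fun y z => ?_⟩
      simp [kB, kap, hJ]
    · refine ⟨fun _ _ => 1, rep_one (fun _ => 1) fun _ _ => by simp, fun y z => ?_⟩
      simp [kB, kap, hJ]
  | succ D ih =>
    intro J hJ
    obtain ⟨r, hr, hm⟩ := min_rep L
    choose! ρ hρ hk using ih
    -- split the sum at `J + 1`
    refine ⟨fun y z =>
      (∑ j ∈ Finset.range (J + 1), (1 / 4 : ℝ) ^ (j + 1) *
        (ker1 j L y.1 z.1 * ρ (J - j) y.2 z.2)) +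
      ((∑ j ∈ Finset.Ico (J + 1) L, (1 / 4 : ℝ) ^ (j + 1) *
        (ker1 j L y.1 z.1 * kB L D y.2 z.2)) + r y.1 z.1 * kB L D y.2 z.2), ?_, ?_⟩
    · refine rep_add ?_ (rep_add ?_ ?_)
      · exact rep_sum (Finset.range (J + 1)) (K := fun j (y z : Pt L (D + 1)) =>
          (1 / 4 : ℝ) ^ (j + 1) * (ker1 j L y.1 z.1 * ρ (J - j) y.2 z.2)) fun j _ =>
          rep_smul (by positivity) (rep_mul (rep_comp (ker1_rep j L) (fun y : Pt L (D + 1) => y.1))
            (rep_comp (hρ (J - j) (lt_of_le_of_lt (Nat.sub_le _ _) hJ))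
              (fun y : Pt L (D + 1) => y.2)))
      · exact rep_sum (Finset.Ico (J + 1) L) (K := fun j (y z : Pt L (D + 1)) =>
          (1 / 4 : ℝ) ^ (j + 1) * (ker1 j L y.1 z.1 * kB L D y.2 z.2)) fun j _ =>
          rep_smul (by positivity) (rep_mul (rep_comp (ker1_rep j L) (fun y : Pt L (D + 1) => y.1))
            (rep_comp (kB_rep L D) (fun y : Pt L (D + 1) => y.2)))
      · exact rep_mul (rep_comp hr (fun y : Pt L (D + 1) => y.1))
          (rep_comp (kB_rep L D) (fun y : Pt L (D + 1) => y.2))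
    · intro y z
      have h1 : kB L (D + 1) y z = min (pt L y.1) (pt L z.1) * kB L D y.2 z.2 := rfl
      have h2 : kap L (D + 1) J y z =
          ∑ j ∈ Finset.range (J + 1), ker1 j L y.1 z.1 * kap L D (J - j) y.2 z.2 := rfl
      rw [h1, h2, hm, add_mul, ← Finset.sum_range_add_sum_Ico _ (Nat.succ_le_of_lt hJ), add_mul,
        Finset.sum_mul, Finset.sum_mul, Finset.mul_sum]
      have h3 : ∑ j ∈ Finset.range (J + 1), (1 / 4 : ℝ) ^ (j + 1) * ker1 j L y.1 z.1 *
            kB L D y.2 z.2 =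
          (∑ j ∈ Finset.range (J + 1), ((1 / 2 : ℝ) ^ (D + 1 + J)) ^ 2 *
            (ker1 j L y.1 z.1 * kap L D (J - j) y.2 z.2)) +
          ∑ j ∈ Finset.range (J + 1), (1 / 4 : ℝ) ^ (j + 1) *
            (ker1 j L y.1 z.1 * ρ (J - j) y.2 z.2) := by
        rw [← Finset.sum_add_distrib]
        refine Finset.sum_congr rfl fun j hj => ?_
        have hjJ : j ≤ J := Nat.lt_succ_iff.1 (Finset.mem_range.1 hj)
        rw [hk (J - j) (lt_of_le_of_lt (Nat.sub_le _ _) hJ)]
        have h4 : (1 / 4 : ℝ) ^ (j + 1) * ((1 / 2 : ℝ) ^ (D + (J - j))) ^ 2 =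
            ((1 / 2 : ℝ) ^ (D + 1 + J)) ^ 2 := by
          have h5 : (1 / 4 : ℝ) = (1 / 2) ^ 2 := by norm_num
          rw [h5, ← pow_mul, ← pow_mul, ← pow_mul, ← pow_add]
          congr 1
          omega
        rw [← h4]
        ring
      rw [h3]
      have h6 : ∑ j ∈ Finset.Ico (J + 1) L, (1 / 4 : ℝ) ^ (j + 1) * ker1 j L y.1 z.1 *
            kB L D y.2 z.2 =
          ∑ j ∈ Finset.Ico (J + 1) L, (1 / 4 : ℝ) ^ (j + 1) *
            (ker1 j L y.1 z.1 * kB L D y.2 z.2) :=
        Finset.sum_congr rfl fun j _ => by ring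
      rw [h6]
      ring

end Ker

end Sheet
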