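import Pool.Agent.Sheet.Basic

/-!
# SHEET, module LIMIT: from the coefficients to the sheet
-/

open MeasureTheory ProbabilityTheory Filter Topology

namespace Sheet

universe u

namespace Limit

/-- The law of `∑ i, g_i φ_i` with independent standard normal coefficients. -/
theorem gk_of_fam {ι Q : Type} [Fintype ι] [Fintype Q] (φ : ι → Q → ℝ) :
    IsGK ((Measure.pi fun _ : ι => gaussianReal 0 1).map
      (fun (g : ι → ℝ) (x : Q) => ∑ i, g i * φ i x))
      (fun x y => ∑ i, φ i x * φ i y) := by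
  have hm : Measurable (fun (g : ι → ℝ) (x : Q) => ∑ i, g i * φ i x) := by
    refine measurable_pi_lambda _ fun x => ?_
    fun_prop
  refine ⟨Measure.isProbabilityMeasure_map hm.aemeasurable, fun a => ?_⟩
  rw [integral_map hm.aemeasurable (by
    apply Continuous.aestronglyMeasurable
    fun_prop)]
  set t : ι → ℝ := fun i => ∑ x, a x * φ i x with ht
  have e1 : ∀ g : ι → ℝ, (∑ x, a x * ∑ i, g i * φ i x) = ∑ i, t i * g i := by
    intro g
    simp only [ht, Finset.mul_sum, Finset.sum_mul]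
    rw [Finset.sum_comm]
    refine Finset.sum_congr rfl fun i _ => Finset.sum_congr rfl fun x _ => by ring
  have e2 : (∑ x, ∑ y, a x * a y * ∑ i, φ i x * φ i y) = ∑ i, t i ^ 2 := by
    simp only [ht, sq, Finset.mul_sum, Finset.sum_mul]
    calc ∑ x, ∑ y, ∑ i, a x * a y * (φ i x * φ i y)
        = ∑ x, ∑ i, ∑ y, a x * a y * (φ i x * φ i y) :=
          Finset.sum_congr rfl fun x _ => Finset.sum_comm
      _ = ∑ i, ∑ x, ∑ y, a x * a y * (φ i x * φ i y) := Finset.sum_comm
      _ = _ := by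
          refine Finset.sum_congr rfl fun i _ => ?_
          rw [Finset.sum_comm]
          refine Finset.sum_congr rfl fun y _ => Finset.sum_congr rfl fun x _ => by ring
  have e3 : ∀ g : ι → ℝ, Complex.exp (((∑ x, a x * ∑ i, g i * φ i x : ℝ) : ℂ) * Complex.I)
      = ∏ i, Complex.exp ((t i : ℂ) * (g i : ℂ) * Complex.I) := by
    intro g
    rw [e1 g, ← Complex.exp_sum]
    congr 1
    push_cast
    rw [Finset.sum_mul]
  simp only [e3]
  rw [integral_fintype_prod_eq_prod (𝕜 := ℂ)
    (fun (i : ι) (x : ℝ) => Complex.exp ((t i : ℂ) * (x : ℂ) * Complex.I))]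
  have e4 : ∀ i, ∫ x : ℝ, Complex.exp ((t i : ℂ) * (x : ℂ) * Complex.I) ∂(gaussianReal 0 1)
      = Complex.exp (-((t i : ℂ) ^ 2) / 2) := by
    intro i
    rw [← charFun_apply_real, charFun_gaussianReal]
    congr 1
    push_cast
    ring
  simp only [e4]
  rw [← Complex.exp_sum, e2]
  congr 1
  push_cast
  rw [← Finset.sum_div, Finset.sum_neg_distrib]

/-- the dyadic point `z / 2^n` -/
noncomputable def dy {d : ℕ} (n : ℕ) (z : Fin d → Fin (2 ^ n + 1)) : Fin d → unitInterval :=
  fun i => ⟨(z i : ℕ) / 2 ^ n, by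
    refine ⟨by positivity, ?_⟩
    rw [div_le_one (by positivity)]
    have : (z i : ℕ) ≤ 2 ^ n := Nat.lt_succ_iff.1 (z i).2
    exact_mod_cast this⟩

theorem meas_box {Q : Type} [Fintype Q] (c : ℝ) : MeasurableSet {f : Q → ℝ | ∀ x, |f x| ≤ c} := by
  have e : {f : Q → ℝ | ∀ x, |f x| ≤ c} = ⋂ x, {f : Q → ℝ | |f x| ≤ c} := by
    ext f; simp
  rw [e]
  refine MeasurableSet.iInter fun x => ?_
  exact measurableSet_le ((measurable_pi_apply x).abs) measurable_const

/-- the law on the dyadic grid -/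
theorem law_eq (hS : StmtGKSheet.{u}) (hU : StmtGKUnique) (h1 : StmtSch1) {d : ℕ} {Ω : Type u} [MeasurableSpace Ω]
    {P : Measure Ω} {B : (Fin d → unitInterval) → Ω → ℝ} (hB : IsBrownianSheet B P) (n : ℕ) :
    P.map (fun ω (z : Fin d → Fin (2 ^ n + 1)) => B (dy n z) ω) =
      (gam d n).map (fun g z => ∑ R : Fin d → HI n, g R * schD R (fun i => (dy n z i : ℝ))) := by
  refine hU _ _ _ _ (hS d Ω P B hB _ (fun z => dy n z)) ?_
  have h2 := gk_of_fam (ι := Fin d → HI n) (Q := Fin d → Fin (2 ^ n + 1))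
    (fun R z => schD R (fun i => (dy n z i : ℝ)))
  have e : (fun y z : Fin d → Fin (2 ^ n + 1) => ∏ i, min (dy n y i : ℝ) (dy n z i : ℝ)) =
      fun x y => ∑ R : Fin d → HI n, schD R (fun i => (dy n x i : ℝ)) * schD R (fun i => (dy n y i : ℝ)) := by
    funext x y
    have e1 : ∀ i, min (dy n x i : ℝ) (dy n y i : ℝ) =
        ∑ j : HI n, sch j (dy n x i : ℝ) * sch j (dy n y i : ℝ) := by
      intro i
      exact h1 n (x i) (y i) (Nat.lt_succ_iff.1 (x i).2) (Nat.lt_succ_iff.1 (y i).2)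
    simp only [e1]
    rw [Finset.prod_univ_sum, Fintype.piFinset_univ]
    refine Finset.sum_congr rfl fun R _ => ?_
    unfold schD
    rw [Finset.prod_mul_distrib]
  rw [e]
  exact h2

end Limit

open Limit in
theorem limit (hS : StmtGKSheet.{u}) (hU : StmtGKUnique) (h1 : StmtSch1) : StmtLimit.{u} := by
  intro d Ω _ P B hB ε b hε hb
  have hP := hB.gaussian.isProbabilityMeasure
  set A : ℕ → Set Ω := fun n => {ω | ∀ z : Fin d → Fin (2 ^ n + 1), |B (dy n z) ω| ≤ ε} with hA
  have hmeas : ∀ n, AEMeasurable (fun ω (z : Fin d → Fin (2 ^ n + 1)) => B (dy n z) ω) P := fun n =>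
    aemeasurable_pi_lambda _ fun z => hB.gaussian.aemeasurable (dy n z)
  have hAm : ∀ n, NullMeasurableSet (A n) P := by
    intro n
    exact (hmeas n).nullMeasurableSet_preimage (meas_box (Q := Fin d → Fin (2 ^ n + 1)) ε)
  have hAb : ∀ n, b ≤ P.real (A n) := by
    intro n
    refine (hb n).trans ?_
    have e1 : P.real (A n) = (P.map (fun ω (z : Fin d → Fin (2 ^ n + 1)) => B (dy n z) ω)).real
        {f | ∀ x, |f x| ≤ ε} := by
      unfold Measure.real
      rw [Measure.map_apply_of_aemeasurable (hmeas n) (meas_box ε)]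
      rfl
    have hm : Measurable (fun (g : (Fin d → HI n) → ℝ) (z : Fin d → Fin (2 ^ n + 1)) =>
        ∑ R : Fin d → HI n, g R * schD R (fun i => (dy n z i : ℝ))) := by
      refine measurable_pi_lambda _ fun x => ?_
      fun_prop
    rw [e1, law_eq hS hU h1 hB n]
    have : IsProbabilityMeasure (gam d n) := by
      unfold gam
      infer_instance
    unfold Measure.real
    rw [Measure.map_apply hm (meas_box ε)]
    refine ENNReal.toReal_mono (measure_ne_top _ _) (measure_mono ?_)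
    intro g hg z
    exact hg (fun i => (dy n z i : ℝ)) (fun i => ⟨(dy n z i).2.1, (dy n z i).2.2⟩)
  have hanti : Antitone A := by
    refine antitone_nat_of_succ_le fun n => ?_
    intro ω hω z
    have h2 : ∀ i, 2 * (z i : ℕ) < 2 ^ (n + 1) + 1 := by
      intro i
      have := (z i).2
      rw [pow_succ]
      omega
    have h3 : dy n z = dy (n + 1) (fun i => ⟨2 * (z i : ℕ), h2 i⟩) := by
      funext i
      apply Subtype.ext
      simp only [dy]
      rw [pow_succ]
      push_cast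
      field_simp
    rw [h3]
    exact hω _
  have hlim := tendsto_measure_iInter_atTop hAm hanti ⟨0, measure_ne_top P _⟩
  have hb1 : b ≤ P.real (⋂ n, A n) := by
    have h4 : Tendsto (fun n => P.real (A n)) atTop (𝓝 (P.real (⋂ n, A n))) :=
      (ENNReal.tendsto_toReal (measure_ne_top P _)).comp hlim
    exact ge_of_tendsto' h4 hAb
  refine hb1.trans ?_
  unfold Measure.real
  refine ENNReal.toReal_mono (measure_ne_top _ _) (measure_mono_ae ?_)
  filter_upwards [hB.continuous_paths] with ω hω hωA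
  intro x
  have hωA' : ∀ n, ∀ z : Fin d → Fin (2 ^ n + 1), |B (dy n z) ω| ≤ ε := fun n => Set.mem_iInter.1 hωA n
  -- approximation
  have hfl : ∀ (n : ℕ) (i : Fin d), ⌊(2 : ℝ) ^ n * (x i : ℝ)⌋₊ < 2 ^ n + 1 := by
    intro n i
    rw [Nat.lt_succ_iff]
    apply Nat.floor_le_of_le
    push_cast
    have := (x i).2.2
    have h5 : (0 : ℝ) < 2 ^ n := by positivity
    nlinarith
  set y : ℕ → Fin d → unitInterval := fun n => dy n (fun i => ⟨⌊(2 : ℝ) ^ n * (x i : ℝ)⌋₊, hfl n i⟩) with hy
  have hlimy : Tendsto y atTop (𝓝 x) := by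
    rw [tendsto_pi_nhds]
    intro i
    rw [tendsto_subtype_rng]
    have h6 : ∀ n, ((y n i : unitInterval) : ℝ) = ⌊(2 : ℝ) ^ n * (x i : ℝ)⌋₊ / 2 ^ n := fun n => rfl
    have h7 : Tendsto (fun n : ℕ => (x i : ℝ) - (1 / 2) ^ n) atTop (𝓝 (x i : ℝ)) := by
      have := (tendsto_pow_atTop_nhds_zero_of_lt_one (r := (1 / 2 : ℝ)) (by norm_num) (by norm_num))
      simpa using tendsto_const_nhds.sub this
    refine tendsto_of_tendsto_of_tendsto_of_le_of_le h7 tendsto_const_nhds ?_ ?_
    · intro n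
      show (x i : ℝ) - (1 / 2) ^ n ≤ ((y n i : unitInterval) : ℝ)
      rw [h6]
      have h8 : (2 : ℝ) ^ n * (x i : ℝ) < ⌊(2 : ℝ) ^ n * (x i : ℝ)⌋₊ + 1 := Nat.lt_floor_add_one _
      have h5 : (0 : ℝ) < 2 ^ n := by positivity
      rw [le_div_iff₀ h5, sub_mul, one_div, inv_pow, inv_mul_cancel₀ h5.ne']
      linarith
    · intro n
      show ((y n i : unitInterval) : ℝ) ≤ (x i : ℝ)
      rw [h6]
      have h5 : (0 : ℝ) < 2 ^ n := by positivity
      rw [div_le_iff₀ h5, mul_comm]
      exact Nat.floor_le (by have := (x i).2.1; positivity)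
  have hc : Tendsto (fun n => |B (y n) ω|) atTop (𝓝 |B x ω|) :=
    ((hω.tendsto x).comp hlimy).abs
  exact le_of_tendsto' hc fun n => hωA' n _

end Sheet
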