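import Pool.Agent.Sheet.Basic

/-!
# SHEET, module LOWER: the lower bound for the small ball exponent
-/

open MeasureTheory ProbabilityTheory

namespace Sheet

namespace Lower

universe u

/-- the last level at which the threshold is below the typical size of the layer -/
theorem exists_level (d : ℕ) {δ ε : ℝ} (hδ : 0 < δ) (hε : 0 < ε) (h0 : 2 ^ d * ε ≤ δ) :
    ∃ J : ℕ, 2 ^ (d + J) * ε ≤ δ * √((J : ℝ) + 1) ^ d ∧
      δ * √((J : ℝ) + 1 + 1) ^ d < 2 ^ (d + (J + 1)) * ε := by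
  classical
  have hex : ∃ J : ℕ, δ * √((J : ℝ) + 1) ^ d < 2 ^ (d + J) * ε := by
    have ht := tendsto_pow_const_div_const_pow_of_one_lt d (r := (2 : ℝ)) (by norm_num)
    have hpos : 0 < 2 ^ d * ε / (2 * δ) := by positivity
    have hev := ht.eventually (gt_mem_nhds hpos)
    obtain ⟨N, hN⟩ := Filter.eventually_atTop.1 hev
    refine ⟨N, ?_⟩
    have h1 := hN (N + 1) (Nat.le_succ N)
    have h2 : √((N : ℝ) + 1) ^ d ≤ ((N : ℝ) + 1) ^ d := by
      apply pow_le_pow_left₀ (Real.sqrt_nonneg _)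
      rw [Real.sqrt_le_left (by positivity)]
      nlinarith [(Nat.cast_nonneg N : (0 : ℝ) ≤ N)]
    have h3 : ((N : ℝ) + 1) ^ d < 2 ^ d * ε / (2 * δ) * 2 ^ (N + 1) := by
      rw [div_lt_iff₀ (by positivity)] at h1
      push_cast at h1
      exact h1
    calc δ * √((N : ℝ) + 1) ^ d ≤ δ * ((N : ℝ) + 1) ^ d := mul_le_mul_of_nonneg_left h2 hδ.le
      _ < δ * (2 ^ d * ε / (2 * δ) * 2 ^ (N + 1)) := mul_lt_mul_of_pos_left h3 hδ
      _ = 2 ^ (d + N) * ε := by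
        field_simp
        ring
  have hfind := Nat.find_spec hex
  set J0 := Nat.find hex with hJ0
  have hJpos : J0 ≠ 0 := by
    intro h
    rw [h] at hfind
    simp at hfind
    linarith
  obtain ⟨J, hJ⟩ := Nat.exists_eq_succ_of_ne_zero hJpos
  refine ⟨J, ?_, ?_⟩
  · have h1 : J < Nat.find hex := by
      rw [← hJ0, hJ]
      exact Nat.lt_succ_self J
    exact not_lt.1 (Nat.find_min hex h1)
  · rw [hJ] at hfind
    push_cast at hfind
    exact hfind

theorem lower (hC : StmtCore) (hT : StmtTransfer.{u}) (hR : StmtTriv.{u}) : StmtLower.{u} := by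
  intro d hd
  obtain ⟨c, δ, hc, hδ, hcore⟩ := hC d hd
  obtain ⟨ρ, hρ0, hρ1, htriv⟩ := hR
  set A : ℝ := max (2 ^ d / δ) 1 with hAdef
  have hA1 : 1 ≤ A := le_max_right _ _
  have hA : 2 ^ d / δ ≤ A := le_max_left _ _
  have hlogA : 0 ≤ Real.log (A ^ 2) := Real.log_nonneg (one_le_pow₀ hA1)
  set M : ℝ := (A ^ 2) ^ 2 * (Real.log (A ^ 2)) ^ (2 * d - 1) + 1 with hMdef
  have hM : 0 < M := by
    have : 0 ≤ (A ^ 2) ^ 2 * (Real.log (A ^ 2)) ^ (2 * d - 1) := by positivity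
    linarith
  have hlogρ : 0 < -Real.log ρ := neg_pos.2 (Real.log_neg hρ0 hρ1)
  refine ⟨min (c * (δ ^ 2 / 4 ^ (d + 1)) * (1 / 2) ^ (2 * d - 1)) (-Real.log ρ / M),
    lt_min (by positivity) (div_pos hlogρ hM), ?_⟩
  intro Ω _ P B hB ε hε hε2
  have hinv : 2 < ε⁻¹ := by
    rw [lt_inv_comm₀ (by norm_num) hε]
    linarith
  have hinv0 : 0 < ε⁻¹ := by linarith
  have hlog : 0 < Real.log ε⁻¹ := Real.log_pos (by linarith)
  set X : ℝ := ε⁻¹ ^ 2 * Real.log ε⁻¹ ^ (2 * d - 1) with hX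
  have hX0 : 0 < X := by positivity
  by_cases hbig : A ^ 2 ≤ ε⁻¹
  · -- small `ε`
    have h0 : 2 ^ d * ε ≤ δ := by
      have h1 : 2 ^ d / δ ≤ ε⁻¹ := by
        have : A ≤ A ^ 2 := by nlinarith
        linarith
      rw [div_le_iff₀ hδ] at h1
      have h2 := mul_le_mul_of_nonneg_right h1 hε.le
      have h3 : ε⁻¹ * δ * ε = δ := by
        field_simp
      linarith
    obtain ⟨J, hJ1, hJ2⟩ := exists_level d hδ hε h0
    have hP : P.real {ω | ∀ x, |B x ω| ≤ ε} ≤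
        Real.exp (-(c * 4 ^ J * ((J : ℝ) + 1) ^ (d - 1))) := by
      apply hT d Ω P B hB (J + 1) J ε _ (Nat.lt_succ_self J)
      intro θ
      refine le_trans (measureReal_mono ?_) (hcore (J + 1) J (Nat.lt_succ_self J) θ)
      intro f hf z
      exact (hf z).trans hJ1
    refine hP.trans (Real.exp_le_exp.2 (neg_le_neg ?_))
    refine (mul_le_mul_of_nonneg_right (min_le_left _ _) hX0.le).trans ?_
    have hJ0 : (0 : ℝ) ≤ J := Nat.cast_nonneg J
    -- size of `4 ^ J`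
    have h4 : δ ^ 2 * ((J : ℝ) + 1) ^ d ≤ 4 ^ (d + 1) * 4 ^ J * ε ^ 2 := by
      have h5 : (δ * √((J : ℝ) + 1 + 1) ^ d) ^ 2 ≤ (2 ^ (d + (J + 1)) * ε) ^ 2 :=
        pow_le_pow_left₀ (by positivity) hJ2.le 2
      have h6 : (δ * √((J : ℝ) + 1 + 1) ^ d) ^ 2 = δ ^ 2 * ((J : ℝ) + 1 + 1) ^ d := by
        rw [mul_pow, ← pow_mul, mul_comm d 2, pow_mul, Real.sq_sqrt (by positivity)]
      have h7 : (2 ^ (d + (J + 1)) * ε) ^ 2 = 4 ^ (d + 1) * 4 ^ J * ε ^ 2 := by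
        have : (4 : ℝ) = 2 ^ 2 := by norm_num
        rw [mul_pow, this, ← pow_mul, ← pow_mul, ← pow_mul, ← pow_add]
        congr 2
        ring
      rw [h6, h7] at h5
      refine le_trans (mul_le_mul_of_nonneg_left ?_ (sq_nonneg δ)) h5
      exact pow_le_pow_left₀ (by positivity) (by linarith) d
    -- size of `J`
    have h8 : Real.log ε⁻¹ ≤ 2 * ((J : ℝ) + 1) := by
      have h9 : δ ≤ 2 ^ (d + (J + 1)) * ε := by
        have h10 : δ * 1 ≤ δ * √((J : ℝ) + 1 + 1) ^ d := by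
          apply mul_le_mul_of_nonneg_left _ hδ.le
          apply one_le_pow₀
          rw [Real.one_le_sqrt]
          linarith
        linarith
      have h11 : ε⁻¹ ≤ A * 2 ^ (J + 1) := by
        have h12 : ε⁻¹ ≤ 2 ^ d / δ * 2 ^ (J + 1) := by
          rw [div_mul_eq_mul_div, le_div_iff₀ hδ, ← pow_add]
          have h13 := mul_le_mul_of_nonneg_left h9 hinv0.le
          have h14 : ε⁻¹ * (2 ^ (d + (J + 1)) * ε) = 2 ^ (d + (J + 1)) := by
            field_simp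
          linarith
        exact h12.trans (mul_le_mul_of_nonneg_right hA (by positivity))
      have h15 : ε⁻¹ * ε⁻¹ ≤ 4 ^ (J + 1) * ε⁻¹ := by
        have h16 : ε⁻¹ * ε⁻¹ ≤ (A * 2 ^ (J + 1)) * (A * 2 ^ (J + 1)) :=
          mul_le_mul h11 h11 hinv0.le (by positivity)
        have h17 : (A * 2 ^ (J + 1)) * (A * 2 ^ (J + 1)) = 4 ^ (J + 1) * A ^ 2 := by
          have : (4 : ℝ) = 2 * 2 := by norm_num
          rw [this, mul_pow]
          ring
        rw [h17] at h16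
        exact h16.trans (mul_le_mul_of_nonneg_left hbig (by positivity))
      have h18 : ε⁻¹ ≤ 4 ^ (J + 1) := le_of_mul_le_mul_right h15 hinv0
      have h19 := Real.log_le_log hinv0 h18
      rw [Real.log_pow] at h19
      have h20 : Real.log 4 ≤ 2 := by
        have : (4 : ℝ) = 2 ^ 2 := by norm_num
        rw [this, Real.log_pow]
        have := Real.log_two_lt_d9
        push_cast
        linarith
      push_cast at h19
      have h21 : ((J : ℝ) + 1) * Real.log 4 ≤ ((J : ℝ) + 1) * 2 :=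
        mul_le_mul_of_nonneg_left h20 (by linarith)
      linarith
    have h22 : ((1 / 2 : ℝ) * Real.log ε⁻¹) ^ (2 * d - 1) ≤ ((J : ℝ) + 1) ^ (2 * d - 1) :=
      pow_le_pow_left₀ (by positivity) (by linarith) _
    have h23 : δ ^ 2 * ((J : ℝ) + 1) ^ d * ε⁻¹ ^ 2 ≤ 4 ^ (d + 1) * 4 ^ J := by
      have h24 := mul_le_mul_of_nonneg_right h4 (sq_nonneg ε⁻¹)
      have h25 : 4 ^ (d + 1) * 4 ^ J * ε ^ 2 * ε⁻¹ ^ 2 = 4 ^ (d + 1) * 4 ^ J := by
        field_simp
      linarith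
    have hdd : 2 * d - 1 = d + (d - 1) := by omega
    calc c * (δ ^ 2 / 4 ^ (d + 1)) * (1 / 2) ^ (2 * d - 1) * X
        = c * (δ ^ 2 / 4 ^ (d + 1)) * ε⁻¹ ^ 2 * ((1 / 2 : ℝ) * Real.log ε⁻¹) ^ (2 * d - 1) := by
          rw [hX, mul_pow]
          ring
      _ ≤ c * (δ ^ 2 / 4 ^ (d + 1)) * ε⁻¹ ^ 2 * ((J : ℝ) + 1) ^ (2 * d - 1) :=
          mul_le_mul_of_nonneg_left h22 (by positivity)
      _ = c * ((J : ℝ) + 1) ^ (d - 1) / 4 ^ (d + 1) *
            (δ ^ 2 * ((J : ℝ) + 1) ^ d * ε⁻¹ ^ 2) := by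
          rw [hdd, pow_add]
          ring
      _ ≤ c * ((J : ℝ) + 1) ^ (d - 1) / 4 ^ (d + 1) * (4 ^ (d + 1) * 4 ^ J) :=
          mul_le_mul_of_nonneg_left h23 (by positivity)
      _ = c * 4 ^ J * ((J : ℝ) + 1) ^ (d - 1) := by
          field_simp
  · -- large `ε`
    push Not at hbig
    refine (htriv d Ω P B hB ε hε2.le).trans ?_
    have h1 : ρ = Real.exp (-(-Real.log ρ)) := by
      rw [neg_neg, Real.exp_log hρ0]
    refine h1.le.trans (Real.exp_le_exp.2 (neg_le_neg ?_))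
    have h2 : X ≤ M := by
      have h3 : ε⁻¹ ^ 2 ≤ (A ^ 2) ^ 2 := pow_le_pow_left₀ hinv0.le hbig.le 2
      have h4 : Real.log ε⁻¹ ^ (2 * d - 1) ≤ Real.log (A ^ 2) ^ (2 * d - 1) :=
        pow_le_pow_left₀ hlog.le (Real.log_le_log hinv0 hbig.le) _
      have h5 : X ≤ (A ^ 2) ^ 2 * Real.log (A ^ 2) ^ (2 * d - 1) :=
        mul_le_mul h3 h4 (by positivity) (by positivity)
      linarith
    calc min (c * (δ ^ 2 / 4 ^ (d + 1)) * (1 / 2) ^ (2 * d - 1)) (-Real.log ρ / M) * X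
        ≤ -Real.log ρ / M * X := mul_le_mul_of_nonneg_right (min_le_right _ _) hX0.le
      _ ≤ -Real.log ρ / M * M := mul_le_mul_of_nonneg_left h2 (div_pos hlogρ hM).le
      _ = -Real.log ρ := div_mul_cancel₀ _ hM.ne'

end Lower

end Sheet
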