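import Pool.Agent.Sheet.Skel

/-!
# SHEET, modules SCH1 and SCH2

The Schauder identity for `min` on the dyadic grid, and interpolation of the Schauder functions.
-/

open MeasureTheory ProbabilityTheory

namespace Sheet

/-! ### the tent function -/

lemma tentR_eq_zero_of_le {z : ℝ} (h : z ≤ 0) : tentR z = 0 := by
  unfold tentR
  apply max_eq_left
  rw [abs_of_nonpos (by linarith)]
  linarith

lemma tentR_eq_zero_of_ge {z : ℝ} (h : 1 ≤ z) : tentR z = 0 := by
  unfold tentR
  apply max_eq_left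
  rw [abs_of_nonneg (by linarith)]
  linarith

lemma tentR_left {z : ℝ} (h : 0 ≤ z) (h' : z ≤ 1 / 2) : tentR z = 2 * z := by
  unfold tentR
  rw [abs_of_nonpos (by linarith), max_eq_right (by linarith)]
  ring

lemma tentR_right {z : ℝ} (h : 1 / 2 ≤ z) (h' : z ≤ 1) : tentR z = 2 - 2 * z := by
  unfold tentR
  rw [abs_of_nonneg (by linarith), max_eq_right (by linarith)]
  ring

/-! ### the sum over the levels `< n` -/

/-- the sum over one level -/
noncomputable def lvl (j : ℕ) (t u : ℝ) : ℝ :=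
  (1 / 2) ^ j / 4 * ∑ k ∈ Finset.range (2 ^ j), tentR (2 ^ j * t - k) * tentR (2 ^ j * u - k)

lemma lvl_zero (t u : ℝ) : lvl 0 t u = tentR t * tentR u / 4 := by
  simp [lvl]; ring

lemma lvl_succ (j : ℕ) (t u : ℝ) :
    lvl (j + 1) t u = (lvl j (2 * t) (2 * u) + lvl j (2 * t - 1) (2 * u - 1)) / 2 := by
  unfold lvl
  have h1 : (2 : ℕ) ^ (j + 1) = 2 ^ j + 2 ^ j := by ring
  rw [h1, Finset.sum_range_add]
  have e1 : ∀ s : ℝ, ∀ k : ℕ, (2 : ℝ) ^ (j + 1) * s - k = 2 ^ j * (2 * s) - k := by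
    intro s k; ring
  have e2 : ∀ s : ℝ, ∀ k : ℕ, (2 : ℝ) ^ (j + 1) * s - ((2 ^ j + k : ℕ) : ℝ)
      = 2 ^ j * (2 * s - 1) - k := by
    intro s k; push_cast; ring
  simp only [e2, e1]
  have e3 : ((1 : ℝ) / 2) ^ (j + 1) = (1 / 2) ^ j / 2 := by ring
  rw [e3]
  ring

lemma lvl_zero_of {j : ℕ} {t u : ℝ} (h : (t ≤ 0 ∨ 1 ≤ t) ∨ (u ≤ 0 ∨ 1 ≤ u)) : lvl j t u = 0 := by
  have key : ∀ s : ℝ, (s ≤ 0 ∨ 1 ≤ s) → ∀ k ∈ Finset.range (2 ^ j), tentR (2 ^ j * s - k) = 0 := by
    intro s hs k hk
    have hk' : (k : ℝ) + 1 ≤ 2 ^ j := by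
      have := Finset.mem_range.1 hk
      exact_mod_cast this
    have hp : (0 : ℝ) < 2 ^ j := by positivity
    rcases hs with hs | hs
    · apply tentR_eq_zero_of_le
      have : (2 : ℝ) ^ j * s ≤ 0 := mul_nonpos_of_nonneg_of_nonpos hp.le hs
      have hk0 : (0 : ℝ) ≤ k := Nat.cast_nonneg k
      linarith
    · apply tentR_eq_zero_of_ge
      have : (2 : ℝ) ^ j * 1 ≤ 2 ^ j * s := mul_le_mul_of_nonneg_left hs hp.le
      linarith
  unfold lvl
  rw [Finset.sum_eq_zero, mul_zero]
  intro k hk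
  rcases h with h | h
  · rw [key t h k hk, zero_mul]
  · rw [key u h k hk, mul_zero]

/-- the sum of the levels `< n` is the covariance of the Brownian bridge on the grid -/
lemma sum_lvl : ∀ (n a b : ℕ), a ≤ 2 ^ n → b ≤ 2 ^ n →
    ∑ j ∈ Finset.range n, lvl j ((a : ℝ) / 2 ^ n) ((b : ℝ) / 2 ^ n)
      = min ((a : ℝ) / 2 ^ n) ((b : ℝ) / 2 ^ n) - (a : ℝ) / 2 ^ n * ((b : ℝ) / 2 ^ n)
  | 0, a, b, ha, hb => by
    have ha' : a = 0 ∨ a = 1 := by
      have : a ≤ 1 := by simpa using ha
      omega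
    have hb' : b = 0 ∨ b = 1 := by
      have : b ≤ 1 := by simpa using hb
      omega
    rcases ha' with rfl | rfl <;> rcases hb' with rfl | rfl <;> simp
  | n + 1, a, b, ha, hb => by
    set t : ℝ := (a : ℝ) / 2 ^ (n + 1) with ht
    set u : ℝ := (b : ℝ) / 2 ^ (n + 1) with hu
    have hp : (0 : ℝ) < 2 ^ n := by positivity
    have h2t : 2 * t = (a : ℝ) / 2 ^ n := by rw [ht, pow_succ]; field_simp
    have h2u : 2 * u = (b : ℝ) / 2 ^ n := by rw [hu, pow_succ]; field_simp
    have ht0 : 0 ≤ t := by positivity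
    have hu0 : 0 ≤ u := by positivity
    have ht1 : t ≤ 1 := by
      rw [ht, div_le_one (by positivity)]; exact_mod_cast ha
    have hu1 : u ≤ 1 := by
      rw [hu, div_le_one (by positivity)]; exact_mod_cast hb
    have hs : ∑ j ∈ Finset.range (n + 1), lvl j t u
        = tentR t * tentR u / 4 + (∑ j ∈ Finset.range n, lvl j (2 * t) (2 * u)
          + ∑ j ∈ Finset.range n, lvl j (2 * t - 1) (2 * u - 1)) / 2 := by
      rw [Finset.sum_range_succ', lvl_zero, add_comm]
      congr 1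
      simp only [lvl_succ]
      rw [← Finset.sum_div, Finset.sum_add_distrib]
    rw [hs]
    have hz : ∀ (x y : ℝ), ((x ≤ 0 ∨ 1 ≤ x) ∨ (y ≤ 0 ∨ 1 ≤ y)) →
        ∑ j ∈ Finset.range n, lvl j x y = 0 := fun x y h =>
      Finset.sum_eq_zero fun j _ => lvl_zero_of h
    -- positions of `a` and `b`
    rcases le_total a (2 ^ n) with ha1 | ha1
    · have ht2 : t ≤ 1 / 2 := by
        have : 2 * t ≤ 1 := by
          rw [h2t, div_le_one hp]; exact_mod_cast ha1
        linarith
      rcases le_total b (2 ^ n) with hb1 | hb1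
      · have hu2 : u ≤ 1 / 2 := by
          have : 2 * u ≤ 1 := by
            rw [h2u, div_le_one hp]; exact_mod_cast hb1
          linarith
        rw [hz (2 * t - 1) (2 * u - 1) (Or.inl (Or.inl (by linarith))), h2t, h2u,
          sum_lvl n a b ha1 hb1, ← h2t, ← h2u, tentR_left ht0 ht2, tentR_left hu0 hu2,
          min_mul_of_nonneg' t u]
        ring
      · have hu2 : 1 / 2 ≤ u := by
          have : 1 ≤ 2 * u := by
            rw [h2u, one_le_div hp]; exact_mod_cast hb1
          linarith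
        rw [hz (2 * t - 1) (2 * u - 1) (Or.inl (Or.inl (by linarith))),
          hz (2 * t) (2 * u) (Or.inr (Or.inr (by linarith))), tentR_left ht0 ht2,
          tentR_right hu2 hu1, min_eq_left (by linarith)]
        ring
    · have ht2 : 1 / 2 ≤ t := by
        have : 1 ≤ 2 * t := by
          rw [h2t, one_le_div hp]; exact_mod_cast ha1
        linarith
      rcases le_total b (2 ^ n) with hb1 | hb1
      · have hu2 : u ≤ 1 / 2 := by
          have : 2 * u ≤ 1 := by
            rw [h2u, div_le_one hp]; exact_mod_cast hb1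
          linarith
        rw [hz (2 * t - 1) (2 * u - 1) (Or.inr (Or.inl (by linarith))),
          hz (2 * t) (2 * u) (Or.inl (Or.inr (by linarith))), tentR_right ht2 ht1,
          tentR_left hu0 hu2, min_eq_right (by linarith)]
        ring
      · have hu2 : 1 / 2 ≤ u := by
          have : 1 ≤ 2 * u := by
            rw [h2u, one_le_div hp]; exact_mod_cast hb1
          linarith
        obtain ⟨a', rfl⟩ : ∃ a', a = 2 ^ n + a' := ⟨a - 2 ^ n, by omega⟩
        obtain ⟨b', rfl⟩ : ∃ b', b = 2 ^ n + b' := ⟨b - 2 ^ n, by omega⟩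
        have ha' : a' ≤ 2 ^ n := by
          have : 2 ^ (n + 1) = 2 ^ n + 2 ^ n := by ring
          omega
        have hb' : b' ≤ 2 ^ n := by
          have : 2 ^ (n + 1) = 2 ^ n + 2 ^ n := by ring
          omega
        have h3t : 2 * t - 1 = (a' : ℝ) / 2 ^ n := by
          rw [h2t]; push_cast; field_simp; ring
        have h3u : 2 * u - 1 = (b' : ℝ) / 2 ^ n := by
          rw [h2u]; push_cast; field_simp; ring
        rw [hz (2 * t) (2 * u) (Or.inl (Or.inr (by linarith))), h3t, h3u,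
          sum_lvl n a' b' ha' hb', ← h3t, ← h3u, tentR_right ht2 ht1, tentR_right hu2 hu1,
          min_sub_one t u]
        ring
where
  min_mul_of_nonneg' (t u : ℝ) : min (2 * t) (2 * u) = 2 * min t u := by
    rcases le_total t u with h | h
    · rw [min_eq_left h, min_eq_left (by linarith)]
    · rw [min_eq_right h, min_eq_right (by linarith)]
  min_sub_one (t u : ℝ) : min (2 * t - 1) (2 * u - 1) = 2 * min t u - 1 := by
    rcases le_total t u with h | h
    · rw [min_eq_left h, min_eq_left (by linarith)]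
    · rw [min_eq_right h, min_eq_right (by linarith)]

/-- Schauder identity on the dyadic grid. -/
theorem sch1 : StmtSch1 := by
  intro n a b ha hb
  have h := sum_lvl n a b ha hb
  set t : ℝ := (a : ℝ) / 2 ^ n with ht
  set u : ℝ := (b : ℝ) / 2 ^ n with hu
  rw [Fintype.sum_option]
  have h1 : ∑ i : (Σ i : Fin n, Fin (2 ^ (i : ℕ))), sch (some i) t * sch (some i) u
      = ∑ j ∈ Finset.range n, lvl j t u := by
    rw [Fintype.sum_sigma, Finset.sum_range]
    refine Finset.sum_congr rfl fun j _ => ?_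
    unfold lvl
    rw [Finset.sum_range, Finset.mul_sum]
    refine Finset.sum_congr rfl fun k _ => ?_
    have h2 : ((1 : ℝ) / √2) ^ (j : ℕ) * (1 / √2) ^ (j : ℕ) = (1 / 2) ^ (j : ℕ) := by
      rw [← mul_pow]
      congr 1
      rw [div_mul_div_comm, Real.mul_self_sqrt (by norm_num)]
      norm_num
    simp only [sch]
    rw [← h2]
    ring
  rw [h1, h]
  simp only [sch]
  ring

/-! ### interpolation -/

/-- the tent function is affine between neighbouring points of `(1 / (2 h)) ℤ` -/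
lemma tentR_interp (h : ℕ) (hh : 1 ≤ h) (p : ℤ) (r : ℝ) (hr0 : 0 ≤ r) (hr1 : r ≤ 1) :
    tentR (((p : ℝ) + r) / (2 * h))
      = (1 - r) * tentR ((p : ℝ) / (2 * h)) + r * tentR (((p : ℝ) + 1) / (2 * h)) := by
  have hh' : (1 : ℝ) ≤ h := by exact_mod_cast hh
  have hp : (0 : ℝ) < 2 * h := by linarith
  rcases lt_or_ge p 0 with h1 | h1
  · have h1' : (p : ℝ) + 1 ≤ 0 := by exact_mod_cast h1
    rw [tentR_eq_zero_of_le, tentR_eq_zero_of_le, tentR_eq_zero_of_le]
    · ring
    · exact div_nonpos_of_nonpos_of_nonneg h1' hp.le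
    · exact div_nonpos_of_nonpos_of_nonneg (by linarith) hp.le
    · exact div_nonpos_of_nonpos_of_nonneg (by linarith) hp.le
  have h1' : (0 : ℝ) ≤ p := by exact_mod_cast h1
  rcases lt_or_ge p h with h2 | h2
  · have h2' : (p : ℝ) + 1 ≤ h := by exact_mod_cast h2
    rw [tentR_left, tentR_left, tentR_left]
    · field_simp; ring
    · positivity
    · rw [div_le_div_iff₀ hp (by norm_num)]; linarith
    · positivity
    · rw [div_le_div_iff₀ hp (by norm_num)]; linarith
    · positivity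
    · rw [div_le_div_iff₀ hp (by norm_num)]; linarith
  have h2' : (h : ℝ) ≤ p := by exact_mod_cast h2
  rcases lt_or_ge p (2 * h) with h3 | h3
  · have h3' : (p : ℝ) + 1 ≤ 2 * h := by exact_mod_cast h3
    rw [tentR_right, tentR_right, tentR_right]
    · field_simp; ring
    · rw [div_le_div_iff₀ (by norm_num) hp]; linarith
    · rw [div_le_one hp]; linarith
    · rw [div_le_div_iff₀ (by norm_num) hp]; linarith
    · rw [div_le_one hp]; linarith
    · rw [div_le_div_iff₀ (by norm_num) hp]; linarith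
    · rw [div_le_one hp]; linarith
  have h3' : (2 * h : ℝ) ≤ p := by exact_mod_cast h3
  rw [tentR_eq_zero_of_ge, tentR_eq_zero_of_ge, tentR_eq_zero_of_ge]
  · ring
  · rw [one_le_div hp]; linarith
  · rw [one_le_div hp]; linarith
  · rw [one_le_div hp]; linarith

/-- Interpolation of the Schauder functions. -/
theorem interp : StmtInterp := by
  intro m t ht0 ht1
  set N : ℕ := 2 ^ (m + 1) with hN
  have hNpos : 0 < N := by positivity
  have hNr : (0 : ℝ) < N := by exact_mod_cast hNpos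
  have hNc : (N : ℝ) = 2 ^ (m + 1) := by rw [hN]; push_cast; rfl
  obtain ⟨v0, hv0, r, hr0, hr1, hr⟩ : ∃ v0 : ℕ, v0 < N ∧ ∃ r : ℝ, 0 ≤ r ∧ r ≤ 1 ∧
      t * N = v0 + r := by
    rcases ht1.lt_or_eq with h | h
    · refine ⟨⌊t * N⌋₊, ?_, t * N - ⌊t * N⌋₊, ?_, ?_, by ring⟩
      · rw [Nat.floor_lt (by positivity)]
        nlinarith
      · have := Nat.floor_le (show 0 ≤ t * N by positivity)
        linarith
      · have := Nat.lt_floor_add_one (t * N)
        linarith
    · refine ⟨N - 1, by omega, 1, by norm_num, le_rfl, ?_⟩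
      rw [h, Nat.cast_sub (by omega)]
      push_cast; ring
  have hsum : ∀ F : ℕ → ℝ, ∑ v : Fin (N + 1), ((Pi.single (⟨v0, by omega⟩ : Fin (N + 1)) (1 - r)
      + Pi.single (⟨v0 + 1, by omega⟩ : Fin (N + 1)) r : Fin (N + 1) → ℝ) v) * F (v : ℕ)
      = (1 - r) * F v0 + r * F (v0 + 1) := by
    intro F
    simp only [Pi.add_apply, add_mul, Finset.sum_add_distrib]
    congr 1
    · rw [Finset.sum_eq_single (⟨v0, by omega⟩ : Fin (N + 1))]
      · simp
      · intro b _ hb; rw [Pi.single_eq_of_ne hb, zero_mul]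
      · intro h; exact absurd (Finset.mem_univ _) h
    · rw [Finset.sum_eq_single (⟨v0 + 1, by omega⟩ : Fin (N + 1))]
      · simp
      · intro b _ hb; rw [Pi.single_eq_of_ne hb, zero_mul]
      · intro h; exact absurd (Finset.mem_univ _) h
  refine ⟨Pi.single (⟨v0, by omega⟩ : Fin (N + 1)) (1 - r)
      + Pi.single (⟨v0 + 1, by omega⟩ : Fin (N + 1)) r, ?_, ?_, ?_⟩
  · intro v
    simp only [Pi.add_apply]
    apply add_nonneg
    · rw [Pi.single_apply]; split_ifs
      · linarith
      · exact le_rfl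
    · rw [Pi.single_apply]; split_ifs
      · exact hr0
      · exact le_rfl
  · have := hsum (fun _ => 1)
    simp only [mul_one] at this
    rw [this]; ring
  · intro n i hi
    rw [hsum (fun v => sch i ((v : ℝ) / 2 ^ (m + 1)))]
    have hte : t = ((v0 : ℝ) + r) / 2 ^ (m + 1) := by
      rw [← hNc, eq_div_iff hNr.ne']; exact hr
    cases i with
    | none =>
      simp only [sch]
      rw [hte]
      push_cast
      ring
    | some a =>
      obtain ⟨j, k⟩ := a
      have hj : (j : ℕ) ≤ m := hi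
      simp only [sch]
      obtain ⟨q, hq⟩ : ∃ q : ℕ, m = (j : ℕ) + q := ⟨m - j, by omega⟩
      have hM : (2 : ℝ) ^ (m + 1) = 2 ^ (j : ℕ) * (2 * ((2 ^ q : ℕ) : ℝ)) := by
        rw [hq]; push_cast; ring
      have hjp : (0 : ℝ) < 2 ^ (j : ℕ) := by positivity
      have hqp : (0 : ℝ) < 2 * ((2 ^ q : ℕ) : ℝ) := by positivity
      set p : ℤ := (v0 : ℤ) - (k : ℕ) * (2 * 2 ^ q) with hp
      have hpc : (p : ℝ) = (v0 : ℝ) - (k : ℕ) * (2 * ((2 ^ q : ℕ) : ℝ)) := by
        rw [hp]; push_cast; ring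
      have hz : ∀ s : ℝ, (2 : ℝ) ^ (j : ℕ) * (((v0 : ℝ) + s) / 2 ^ (m + 1)) - (k : ℕ)
          = ((p : ℝ) + s) / (2 * ((2 ^ q : ℕ) : ℝ)) := by
        intro s
        rw [hM, hpc]
        field_simp
        ring
      have h0 := hz 0
      have h1 := hz 1
      have hR := hz r
      rw [add_zero, add_zero] at h0
      rw [hte, hR, h0]
      have h1' : (2 : ℝ) ^ (j : ℕ) * (((v0 + 1 : ℕ) : ℝ) / 2 ^ (m + 1)) - (k : ℕ)
          = ((p : ℝ) + 1) / (2 * ((2 ^ q : ℕ) : ℝ)) := by
        rw [← h1]; push_cast; ring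
      rw [h1', tentR_interp (2 ^ q) Nat.one_le_two_pow p r hr0 hr1]
      ring

end Sheet
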