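import Pool.Agent.Sheet.Basic

/-!
# SHEET, module SUP: the sup norm small ball bound from the Laplace bound
-/

open MeasureTheory ProbabilityTheory

namespace Sheet

namespace Sup

/-- value function: maximum over the digit bit `b`, average over the bit `s` -/
noncomputable def vv : (h L : ℕ) → (Grid L → ℝ) → ℝ
  | 0, _ => avg
  | _ + 1, 0 => avg
  | h + 1, L + 1 => fun f =>
      max ((vv h L (fun y => f ((true, true), y)) + vv h L (fun y => f ((true, false), y))) / 2)
        ((vv h L (fun y => f ((false, true), y)) + vv h L (fun y => f ((false, false), y))) / 2)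

theorem vv_zero (L : ℕ) (f : Grid L → ℝ) : vv 0 L f = avg f := by
  cases L <;> rfl

theorem vv_succ (h L : ℕ) (f : Grid (L + 1) → ℝ) : vv (h + 1) (L + 1) f =
      max ((vv h L (fun y => f ((true, true), y)) + vv h L (fun y => f ((true, false), y))) / 2)
        ((vv h L (fun y => f ((false, true), y)) + vv h L (fun y => f ((false, false), y))) / 2) :=
  rfl

theorem avg_shift (L : ℕ) (f : Grid L → ℝ) (α β g : ℝ) :
    avg (fun y => f y + (α + β * zeta L y) * g) = avg f + α * g := by
  rw [avg_add, avg_mul_const, avg_add, avg_const, avg_const_mul, avg_zeta]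
  ring

theorem vv_shift : ∀ (h L : ℕ) (f : Grid L → ℝ) (α β g : ℝ),
    vv h L (fun y => f y + (α + β * zeta L y) * g) = vv h L f + α * g
  | 0, L, f, α, β, g => by rw [vv_zero, vv_zero, avg_shift]
  | _ + 1, 0, f, α, β, g => avg_shift 0 f α β g
  | h + 1, L + 1, f, α, β, g => by
    have key : ∀ e : Dig, vv h L (fun y => f (e, y) + (α + β * zeta (L + 1) (e, y)) * g)
        = vv h L (fun y => f (e, y)) + (α - β * (sg e.2 * (1 / 4 - sg e.1 / 8))) * g := by
      intro e
      rw [← vv_shift h L (fun y => f (e, y)) (α - β * (sg e.2 * (1 / 4 - sg e.1 / 8))) (β / 4) g]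
      congr 1
      funext y
      rw [zeta_succ]
      ring
    rw [vv_succ, vv_succ, key, key, key, key, ← max_add_add_right]
    congr 1 <;> simp only [sg_true, sg_false] <;> ring

theorem vv_le : ∀ (h L : ℕ) (f : Grid L → ℝ) (C : ℝ), (∀ y, f y ≤ C) → vv h L f ≤ C
  | 0, L, f, C, hf => by rw [vv_zero]; exact avg_le_of_le hf
  | _ + 1, 0, f, C, hf => avg_le_of_le hf
  | h + 1, L + 1, f, C, hf => by
    rw [vv_succ]
    have h1 := vv_le h L (fun y => f ((true, true), y)) C (fun y => hf _)
    have h2 := vv_le h L (fun y => f ((true, false), y)) C (fun y => hf _)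
    have h3 := vv_le h L (fun y => f ((false, true), y)) C (fun y => hf _)
    have h4 := vv_le h L (fun y => f ((false, false), y)) C (fun y => hf _)
    apply max_le <;> linarith

theorem continuous_avg {α : Type*} [Fintype α] : Continuous (avg (α := α)) := by
  unfold avg
  fun_prop

theorem continuous_vv : ∀ h L : ℕ, Continuous (vv h L)
  | 0, 0 => continuous_avg
  | 0, _ + 1 => continuous_avg
  | _ + 1, 0 => continuous_avg
  | h + 1, L + 1 => by
    have ih := continuous_vv h L
    have key : ∀ e : Dig, Continuous fun f : Grid (L + 1) → ℝ => vv h L (fun y => f (e, y)) := by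
      intro e
      exact ih.comp (continuous_pi fun y => continuous_apply _)
    have h1 : vv (h + 1) (L + 1) = fun f =>
      max ((vv h L (fun y => f ((true, true), y)) + vv h L (fun y => f ((true, false), y))) / 2)
        ((vv h L (fun y => f ((false, true), y)) + vv h L (fun y => f ((false, false), y))) / 2) :=
      rfl
    rw [h1]
    exact (((key _).add (key _)).div_const 2).max (((key _).add (key _)).div_const 2)

section field

variable {P : Type} [Fintype P]

/-- excess of the value function over the average -/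
noncomputable def vb (h L : ℕ) (F : Grid L × P → ℝ) : ℝ :=
  avg (fun x => vv h L (fun y => F (y, x))) - avg F

theorem continuous_vb (h L : ℕ) : Continuous (vb (P := P) h L) := by
  unfold vb
  refine Continuous.sub ?_ continuous_avg
  refine continuous_avg.comp (continuous_pi fun x => ?_)
  exact (continuous_vv h L).comp (continuous_pi fun y => continuous_apply _)

theorem vb_zero (L : ℕ) (F : Grid L × P → ℝ) : vb 0 L F = 0 := by
  unfold vb
  simp only [vv_zero]
  rw [avg_prod_right F, sub_self]

theorem vb_le [Nonempty P] (h L : ℕ) (F : Grid L × P → ℝ) (C : ℝ) (hF : ∀ z, |F z| ≤ C) :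
    vb h L F ≤ 2 * C := by
  have h1 : avg (fun x => vv h L (fun y => F (y, x))) ≤ C :=
    avg_le_of_le fun x => vv_le _ _ _ _ fun y => (abs_le.1 (hF _)).2
  have h2 : -C ≤ avg F := by
    have : avg (fun _ : Grid L × P => -C) ≤ avg F := avg_mono fun z => (abs_le.1 (hF _)).1
    rwa [avg_const] at this
  unfold vb
  linarith

/-- difference of the two subtree values -/
noncomputable def dd (h L : ℕ) (H : Dig → Grid L × P → ℝ) (x : P) : ℝ :=
  ((vv h L (fun y => H (true, true) (y, x)) + vv h L (fun y => H (true, false) (y, x))) / 2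
    - (vv h L (fun y => H (false, true) (y, x)) + vv h L (fun y => H (false, false) (y, x))) / 2) / 2

theorem max_eq_mid (p q : ℝ) : max p q = (p + q) / 2 + |(p - q) / 2| := by
  rcases le_total p q with h | h
  · rw [max_eq_right h, abs_of_nonpos (by linarith)]; ring
  · rw [max_eq_left h, abs_of_nonneg (by linarith)]; ring

theorem avg_grid_prod (L : ℕ) (F : Grid (L + 1) × P → ℝ) :
    avg F = avg (fun e : Dig => avg (fun z : Grid L × P => F ((e, z.1), z.2))) := by
  rw [avg_prod, avg_grid_succ]
  congr 1
  funext e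
  rw [avg_prod]

theorem vb_glue (h L : ℕ) (G : P → ℝ) (H : Dig → Grid L × P → ℝ) :
    vb (h + 1) (L + 1) (glue L (G, H))
      = (∑ e, vb h L (H e)) / 4 + avg (fun x => |G x + 4 * dd h L H x|) / 4 := by
  have key : ∀ (e : Dig) (x : P), vv h L (fun y => glue L (G, H) ((e, y), x))
      = vv h L (fun y => H e (y, x)) + (1 / 2 + sg e.1 / 4) * G x := by
    intro e x
    rw [← vv_shift h L (fun y => H e (y, x)) (1 / 2 + sg e.1 / 4) (sg e.2 / 2) (G x)]
    congr 1
    funext y
    simp only [glue, tent_succ]
    ring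
  have h1 : ∀ x : P, vv (h + 1) (L + 1) (fun y => glue L (G, H) (y, x))
      = G x / 2 + (∑ e : Dig, vv h L (fun y => H e (y, x))) / 4
        + |G x + 4 * dd h L H x| * (1 / 4) := by
    intro x
    rw [vv_succ, key, key, key, key, max_eq_mid, sum_dig]
    have : |G x + 4 * dd h L H x| * (1 / 4) = |(G x + 4 * dd h L H x) / 4| := by
      rw [abs_div, abs_of_pos (by norm_num : (0:ℝ) < 4)]; ring
    rw [this]
    unfold dd
    simp only [sg_true, sg_false]
    congr 1
    · ring
    · congr 1; ring
  have h2 : avg (glue L (G, H)) = avg G / 2 + (∑ e : Dig, avg (H e)) / 4 := by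
    have h3 : ∀ e : Dig, avg (fun z : Grid L × P => glue L (G, H) ((e, z.1), z.2))
        = avg (H e) + (1 / 2 + sg e.1 / 4) * avg G := by
      intro e
      have h4 : (fun z : Grid L × P => glue L (G, H) ((e, z.1), z.2))
          = fun z => H e z + ((1 / 2 + sg e.1 / 4) * G z.2 + sg e.2 / 2 * (zeta L z.1 * G z.2)) := by
        funext z
        simp only [glue, tent_succ]
        ring
      rw [h4, avg_add, avg_add, avg_const_mul, avg_const_mul]
      have h5 : avg (fun z : Grid L × P => G z.2) = avg G := by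
        rw [avg_prod_right]
        congr 1
        funext x
        exact avg_const (α := Grid L) (G x)
      have h6 : avg (fun z : Grid L × P => zeta L z.1 * G z.2) = 0 := by
        rw [avg_prod_right]
        simp only [avg_mul_const, avg_zeta, zero_mul]
        simp [avg]
      rw [h5, h6]
      ring
    rw [avg_grid_prod, avg_dig]
    simp only [h3]
    rw [sum_dig]
    simp only [sg_true, sg_false]
    ring
  unfold vb
  rw [h2]
  have h7 : avg (fun x => vv (h + 1) (L + 1) (fun y => glue L (G, H) (y, x)))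
      = avg G / 2 + (∑ e : Dig, avg (fun x => vv h L (fun y => H e (y, x)))) / 4
        + avg (fun x => |G x + 4 * dd h L H x|) * (1 / 4) := by
    simp only [h1]
    rw [avg_add, avg_add, avg_mul_const]
    congr 2
    · have := avg_mul_const (1 / 2) G
      rw [show avg G / 2 = avg G * (1 / 2) by ring, ← this]
      congr 1; funext x; ring
    · have := avg_mul_const (1 / 4) (fun x : P => ∑ e : Dig, vv h L (fun y => H e (y, x)))
      rw [← avg_sum Finset.univ (fun e : Dig => fun x : P => vv h L (fun y => H e (y, x)))]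
      rw [show ∀ t : ℝ, t / 4 = t * (1 / 4) by intro t; ring, ← this]
      congr 1; funext x; ring
  rw [h7, Finset.sum_sub_distrib]
  ring


theorem avg_le_vv : ∀ (h L : ℕ) (f : Grid L → ℝ), avg f ≤ vv h L f
  | 0, L, f => by rw [vv_zero]
  | _ + 1, 0, f => le_rfl
  | h + 1, L + 1, f => by
    rw [vv_succ, avg_grid_succ, avg_dig]
    have h1 := avg_le_vv h L (fun y => f ((true, true), y))
    have h2 := avg_le_vv h L (fun y => f ((true, false), y))
    have h3 := avg_le_vv h L (fun y => f ((false, true), y))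
    have h4 := avg_le_vv h L (fun y => f ((false, false), y))
    rw [max_eq_mid]
    have := abs_nonneg (((vv h L (fun y => f ((true, true), y))
      + vv h L (fun y => f ((true, false), y))) / 2
      - (vv h L (fun y => f ((false, true), y)) + vv h L (fun y => f ((false, false), y))) / 2) / 2)
    linarith

theorem vb_nonneg (h L : ℕ) (F : Grid L × P → ℝ) : 0 ≤ vb h L F := by
  unfold vb
  rw [avg_prod_right F]
  have : avg (fun x => avg fun y => F (y, x)) ≤ avg (fun x => vv h L (fun y => F (y, x))) :=
    avg_mono fun x => avg_le_vv h L _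
  linarith

omit [Fintype P] in
theorem continuous_dd (h L : ℕ) : Continuous (dd (P := P) h L) := by
  refine continuous_pi fun x => ?_
  have key : ∀ e : Dig, Continuous fun H : Dig → Grid L × P → ℝ =>
      vv h L (fun y => H e (y, x)) := by
    intro e
    refine (continuous_vv h L).comp (continuous_pi fun y => ?_)
    exact (continuous_apply (y, x)).comp (continuous_apply e)
  unfold dd
  exact (((key _).add (key _)).div_const 2 |>.sub (((key _).add (key _)).div_const 2)).div_const 2

/-- the exponents of the Laplace bound -/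
noncomputable def ss (c : ℝ) (k : ℕ) : ℕ → ℝ
  | 0 => 0
  | h + 1 => 4 * ss c k h + c * 4 ^ h * ((h : ℝ) + 1) ^ k

omit [Fintype P] in
theorem glue_add (L : ℕ) (p : (P → ℝ) × (Dig → Grid L × P → ℝ)) (θ : Grid (L + 1) × P → ℝ) :
    (fun z => glue L p z + θ z)
      = glue L (p.1, fun e z => p.2 e z + θ ((e, z.1), z.2)) := by
  funext z
  simp only [glue]
  rw [add_assoc]
  rfl

theorem laplace [Nonempty P] (L : ℕ) (ν : ℕ → Measure (P → ℝ)) (k : ℕ) (c : ℝ)
    (hν : ∀ J, IsProbabilityMeasure (ν J)) (hLB : LB L ν k c) (M : ℝ) :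
    ∀ h l : ℕ, h ≤ L → h ≤ l → (h : ℝ) ≤ M → ∀ θ : Grid l × P → ℝ,
      ∫ f, Real.exp (-(4 ^ h * √M ^ k * vb h l (fun z => f z + θ z))) ∂(treeLaw ν h l)
        ≤ Real.exp (-(ss c k h)) := by
  intro h
  induction h with
  | zero =>
    intro l _ _ _ θ
    have := isProb_treeLaw ν hν 0 l
    simp [vb_zero, ss]
  | succ h ih =>
    intro l hL hl hM θ
    obtain ⟨l, rfl⟩ : ∃ l', l = l' + 1 := ⟨l - 1, by omega⟩
    have hM' : (h : ℝ) + 1 ≤ M := by push_cast at hM; exact hM
    have ih' := ih l (by omega) (by omega) (by linarith)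
    have hT := isProb_treeLaw ν hν h l
    have hνh := hν h
    set a : ℝ := 4 ^ h * √M ^ k with ha
    have ha0 : 0 ≤ a := by positivity
    -- shifted subtree fields
    set sh : (Dig → Grid l × P → ℝ) → (Dig → Grid l × P → ℝ) :=
      fun H e z => H e z + θ ((e, z.1), z.2) with hsh
    have hshc : Continuous sh := by
      refine continuous_pi fun e => continuous_pi fun z => ?_
      exact (continuous_apply_apply e z).add continuous_const
    set F1 : (Dig → Grid l × P → ℝ) → ℝ :=
      fun H => ∏ e, Real.exp (-(a * vb h l (fun z => H e z + θ ((e, z.1), z.2)))) with hF1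
    set F2 : (P → ℝ) → (Dig → Grid l × P → ℝ) → ℝ :=
      fun G H => Real.exp (-(a * avg (fun x => |G x + 4 * dd h l (sh H) x|))) with hF2
    have hF1c : Continuous F1 := by
      refine continuous_finsetProd _ fun e _ => ?_
      refine Real.continuous_exp.comp (continuous_const.mul ?_).neg
      refine (continuous_vb h l).comp (continuous_pi fun z => ?_)
      exact (continuous_apply_apply e z).add continuous_const
    have hF2c : Continuous fun p : (P → ℝ) × (Dig → Grid l × P → ℝ) => F2 p.1 p.2 := by
      refine Real.continuous_exp.comp (continuous_const.mul ?_).neg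
      refine continuous_avg.comp (continuous_pi fun x => ?_)
      refine Continuous.abs (Continuous.add ?_ (continuous_const.mul ?_))
      · exact (continuous_apply x).comp continuous_fst
      · exact (continuous_apply x).comp
          ((continuous_dd h l).comp (hshc.comp continuous_snd))
    have hF1n : ∀ H, 0 ≤ F1 H := fun H => Finset.prod_nonneg fun e _ => (Real.exp_pos _).le
    have hF1b : ∀ H, F1 H ≤ 1 := fun H => Finset.prod_le_one (fun e _ => (Real.exp_pos _).le)
      fun e _ => Real.exp_le_one_iff.2 (neg_nonpos.2 (mul_nonneg ha0 (vb_nonneg _ _ _)))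
    have hF2n : ∀ G H, 0 ≤ F2 G H := fun G H => (Real.exp_pos _).le
    have hF2b : ∀ G H, F2 G H ≤ 1 := fun G H => Real.exp_le_one_iff.2
      (neg_nonpos.2 (mul_nonneg ha0 (avg_nonneg fun x => abs_nonneg _)))
    have hrep : ∀ p : (P → ℝ) × (Dig → Grid l × P → ℝ),
        Real.exp (-(4 ^ (h + 1) * √M ^ k * vb (h + 1) (l + 1) (fun z => glue l p z + θ z)))
          = F1 p.2 * F2 p.1 p.2 := by
      intro p
      rw [glue_add, vb_glue]
      simp only [hF1, hF2]
      rw [← Real.exp_sum, ← Real.exp_add]
      congr 1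
      rw [Finset.sum_neg_distrib, ← Finset.mul_sum, ha]
      ring
    have hint : Integrable (fun p : (P → ℝ) × (Dig → Grid l × P → ℝ) => F1 p.2 * F2 p.1 p.2)
        ((ν h).prod (Measure.pi fun _ : Dig => treeLaw ν h l)) := by
      refine Integrable.of_bound
        ((hF1c.comp continuous_snd).mul hF2c).measurable.aestronglyMeasurable 1
        (Filter.Eventually.of_forall fun p => ?_)
      rw [Real.norm_eq_abs, abs_of_nonneg (mul_nonneg (hF1n _) (hF2n _ _))]
      exact mul_le_one₀ (hF1b _) (hF2n _ _) (hF2b _ _)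
    have hint1 : Integrable F1 (Measure.pi fun _ : Dig => treeLaw ν h l) := by
      refine Integrable.of_bound hF1c.measurable.aestronglyMeasurable 1
        (Filter.Eventually.of_forall fun p => ?_)
      rw [Real.norm_eq_abs, abs_of_nonneg (hF1n _)]
      exact hF1b _
    have hinner : ∀ H, ∫ G, F2 G H ∂(ν h) ≤ Real.exp (-(c * 4 ^ h * ((h : ℝ) + 1) ^ k)) := by
      intro H
      have h1 := hLB h (by omega) (fun x => 4 * dd h l (sh H) x) 1 one_pos le_rfl
      have h2 : ∀ G : P → ℝ, F2 G H ≤ Real.exp (-(1 * 4 ^ h * √((h : ℝ) + 1) ^ k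
          * avg (fun x => |G x + 4 * dd h l (sh H) x|))) := by
        intro G
        refine Real.exp_le_exp.2 (neg_le_neg ?_)
        refine mul_le_mul_of_nonneg_right ?_ (avg_nonneg fun x => abs_nonneg _)
        rw [ha, one_mul]
        gcongr
      refine le_trans (integral_mono_of_nonneg (Filter.Eventually.of_forall fun G => hF2n G H)
        ?_ (Filter.Eventually.of_forall h2)) (h1.trans (le_of_eq ?_))
      · refine Integrable.of_bound ?_ 1 (Filter.Eventually.of_forall fun G => ?_)
        · refine Continuous.aestronglyMeasurable ?_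
          refine Real.continuous_exp.comp (continuous_const.mul ?_).neg
          refine continuous_avg.comp (continuous_pi fun x => ?_)
          exact ((continuous_apply x).add continuous_const).abs
        · rw [Real.norm_eq_abs, abs_of_nonneg (Real.exp_pos _).le]
          refine Real.exp_le_one_iff.2 (neg_nonpos.2 ?_)
          exact mul_nonneg (by positivity) (avg_nonneg fun x => abs_nonneg _)
      · rw [mul_one]
    have htree : treeLaw ν (h + 1) (l + 1)
        = ((ν h).prod (Measure.pi fun _ : Dig => treeLaw ν h l)).map (glue l) := rfl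
    have hmeas : Continuous fun f : Grid (l + 1) × P → ℝ =>
        Real.exp (-(4 ^ (h + 1) * √M ^ k * vb (h + 1) (l + 1) (fun z => f z + θ z))) := by
      refine Real.continuous_exp.comp (continuous_const.mul ?_).neg
      refine (continuous_vb _ _).comp (continuous_pi fun z => ?_)
      exact (continuous_apply z).add continuous_const
    rw [htree, integral_map (measurable_glue l).aemeasurable
      hmeas.measurable.aestronglyMeasurable]
    simp only [hrep]
    rw [integral_prod_symm _ hint]
    calc ∫ H, ∫ G, F1 H * F2 G H ∂(ν h) ∂(Measure.pi fun _ : Dig => treeLaw ν h l)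
        ≤ ∫ H, F1 H * Real.exp (-(c * 4 ^ h * ((h : ℝ) + 1) ^ k))
            ∂(Measure.pi fun _ : Dig => treeLaw ν h l) := by
          refine integral_mono_of_nonneg (Filter.Eventually.of_forall fun H => ?_)
            (hint1.mul_const _) (Filter.Eventually.of_forall fun H => ?_)
          · exact integral_nonneg fun G => mul_nonneg (hF1n _) (hF2n _ _)
          · simp only
            rw [integral_const_mul]
            exact mul_le_mul_of_nonneg_left (hinner H) (hF1n H)
      _ = (∏ e : Dig, ∫ f, Real.exp (-(a * vb h l (fun z => f z + θ ((e, z.1), z.2))))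
            ∂(treeLaw ν h l)) * Real.exp (-(c * 4 ^ h * ((h : ℝ) + 1) ^ k)) := by
          rw [integral_mul_const]
          congr 1
          exact integral_fintype_prod_eq_prod
            (fun (e : Dig) (f : Grid l × P → ℝ) =>
              Real.exp (-(a * vb h l (fun z => f z + θ ((e, z.1), z.2)))))
      _ ≤ (∏ _e : Dig, Real.exp (-(ss c k h))) * Real.exp (-(c * 4 ^ h * ((h : ℝ) + 1) ^ k)) := by
          refine mul_le_mul_of_nonneg_right ?_ (Real.exp_pos _).le
          refine Finset.prod_le_prod (fun e _ => integral_nonneg fun f => (Real.exp_pos _).le)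
            fun e _ => ?_
          exact ih' (fun z => θ ((e, z.1), z.2))
      _ = Real.exp (-(ss c k (h + 1))) := by
          rw [← Real.exp_sum, ← Real.exp_add, sum_dig, ss]
          congr 1
          ring

theorem pow_diff_le (x : ℝ) (hx : 0 ≤ x) (k : ℕ) :
    (x + 1) ^ (k + 1) ≤ x ^ (k + 1) + ((k : ℝ) + 1) * (x + 1) ^ k := by
  induction k with
  | zero => simp
  | succ k ih =>
    have h1 : 0 ≤ (x + 1) ^ k := by positivity
    have h2 : x * (x + 1) ^ (k + 1) ≤ x * (x ^ (k + 1) + ((k : ℝ) + 1) * (x + 1) ^ k) :=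
      mul_le_mul_of_nonneg_left ih hx
    have h3 : x * (((k : ℝ) + 1) * (x + 1) ^ k) ≤ ((k : ℝ) + 1) * (x + 1) ^ (k + 1) := by
      rw [pow_succ (x + 1) k]
      nlinarith [mul_nonneg (by positivity : (0:ℝ) ≤ (k : ℝ) + 1) h1]
    push_cast
    calc (x + 1) ^ (k + 1 + 1) = x * (x + 1) ^ (k + 1) + (x + 1) ^ (k + 1) := by ring
      _ ≤ x * (x ^ (k + 1) + ((k : ℝ) + 1) * (x + 1) ^ k) + (x + 1) ^ (k + 1) := by linarith
      _ = x ^ (k + 1 + 1) + x * (((k : ℝ) + 1) * (x + 1) ^ k) + (x + 1) ^ (k + 1) := by ring
      _ ≤ x ^ (k + 1 + 1) + ((k : ℝ) + 1) * (x + 1) ^ (k + 1) + (x + 1) ^ (k + 1) := by linarith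
      _ = x ^ (k + 1 + 1) + ((k : ℝ) + 1 + 1) * (x + 1) ^ (k + 1) := by ring

theorem ss_ge (c : ℝ) (hc : 0 ≤ c) (k : ℕ) (h : ℕ) :
    c * 4 ^ h * (h : ℝ) ^ (k + 1) / (4 * ((k : ℝ) + 1)) ≤ ss c k h := by
  induction h with
  | zero => simp [ss]
  | succ h ih =>
    rw [ss]
    have h1 := pow_diff_le (h : ℝ) (by positivity) k
    push_cast
    have h2 : c * 4 ^ (h + 1) * ((h : ℝ) + 1) ^ (k + 1) / (4 * ((k : ℝ) + 1))
        ≤ c * 4 ^ (h + 1) * ((h : ℝ) ^ (k + 1) + ((k : ℝ) + 1) * ((h : ℝ) + 1) ^ k)
          / (4 * ((k : ℝ) + 1)) := by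
      gcongr
    refine h2.trans (le_trans (le_of_eq ?_) (add_le_add_left (mul_le_mul_of_nonneg_left ih
      (by norm_num : (0:ℝ) ≤ 4)) _))
    field_simp
    ring

end field

end Sup

theorem sup : StmtSup := by
  intro P _ _ L ν k c hν hc hLB J hJ θ
  set M : ℝ := (J : ℝ) + 1 with hM
  have hM0 : 0 ≤ M := by positivity
  have hT := isProb_treeLaw ν hν (J + 1) L
  have h1 := Sup.laplace L ν k c hν hLB M (J + 1) L (by omega) (by omega) (by simp [hM]) θ
  set C : ℝ := c / (16 * ((k : ℝ) + 1)) * √M ^ (k + 2) with hC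
  set F : (Grid L × P → ℝ) → ℝ :=
    fun f => Real.exp (-(4 ^ (J + 1) * √M ^ k * Sup.vb (J + 1) L (fun z => f z + θ z))) with hF
  set A : ℝ := 4 ^ (J + 1) * √M ^ k * (2 * C) with hA
  have hFc : Continuous F := by
    refine Real.continuous_exp.comp (continuous_const.mul ?_).neg
    refine (Sup.continuous_vb _ _).comp (continuous_pi fun z => ?_)
    exact (continuous_apply z).add continuous_const
  have hFi : Integrable F (treeLaw ν (J + 1) L) := by
    refine Integrable.of_bound hFc.measurable.aestronglyMeasurable 1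
      (Filter.Eventually.of_forall fun f => ?_)
    rw [Real.norm_eq_abs, abs_of_nonneg (Real.exp_pos _).le]
    refine Real.exp_le_one_iff.2 (neg_nonpos.2 ?_)
    exact mul_nonneg (by positivity) (Sup.vb_nonneg _ _ _)
  have h2 := mul_meas_ge_le_integral_of_nonneg
    (Filter.Eventually.of_forall fun f => (Real.exp_pos _).le) hFi (Real.exp (-A))
  have h3 : {f : Grid L × P → ℝ | ∀ z, |f z + θ z| ≤ C} ⊆ {f | Real.exp (-A) ≤ F f} := by
    intro f hf
    refine Real.exp_le_exp.2 (neg_le_neg ?_)
    rw [hA]
    exact mul_le_mul_of_nonneg_left (Sup.vb_le _ _ _ C hf) (by positivity)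
  have h4 : (treeLaw ν (J + 1) L).real {f : Grid L × P → ℝ | ∀ z, |f z + θ z| ≤ C}
      ≤ (treeLaw ν (J + 1) L).real {f | Real.exp (-A) ≤ F f} := measureReal_mono h3
  have h5 := Sup.ss_ge c hc.le k (J + 1)
  have h6 : Real.exp (-A) * (treeLaw ν (J + 1) L).real
      {f : Grid L × P → ℝ | ∀ z, |f z + θ z| ≤ C} ≤ Real.exp (-(Sup.ss c k (J + 1))) :=
    (mul_le_mul_of_nonneg_left h4 (Real.exp_pos _).le).trans (h2.trans h1)
  have h7 : (treeLaw ν (J + 1) L).real {f : Grid L × P → ℝ | ∀ z, |f z + θ z| ≤ C}
      ≤ Real.exp (A - Sup.ss c k (J + 1)) := by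
    rw [Real.exp_neg, inv_mul_le_iff₀ (Real.exp_pos _), ← Real.exp_add] at h6
    simpa [sub_eq_add_neg] using h6
  refine h7.trans (Real.exp_le_exp.2 ?_)
  have h8 : A = c / (2 * ((k : ℝ) + 1)) * 4 ^ J * M ^ (k + 1) := by
    have h9 : √M ^ k * √M ^ (k + 2) = M ^ (k + 1) := by
      rw [← pow_add, show k + (k + 2) = 2 * (k + 1) by ring, pow_mul, Real.sq_sqrt hM0]
    rw [hA, hC, ← h9]
    field_simp
    ring
  have h10 : c * 4 ^ (J + 1) * ((J + 1 : ℕ) : ℝ) ^ (k + 1) / (4 * ((k : ℝ) + 1))
      = c / ((k : ℝ) + 1) * 4 ^ J * M ^ (k + 1) := by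
    push_cast
    rw [← hM]
    field_simp
    ring
  rw [h10] at h5
  rw [h8]
  have h11 : c / (2 * ((k : ℝ) + 1)) * 4 ^ J * M ^ (k + 1)
      = c / ((k : ℝ) + 1) * 4 ^ J * M ^ (k + 1) / 2 := by
    field_simp
  rw [h11]
  linarith

end Sheet
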