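import Pool.Agent.Sheet.Basic

/-!
# SHEET: module TAIL (maximal inequality for a layer)
-/

open MeasureTheory ProbabilityTheory

namespace Sheet

section lin

variable {ι : Type*} [Fintype ι]

lemma integrable_exp_lin (a : ι → ℝ) (t : ℝ) :
    Integrable (fun g : ι → ℝ => Real.exp (t * ∑ i, g i * a i))
      (Measure.pi fun _ : ι => gaussianReal 0 1) := by
  have h : (fun g : ι → ℝ => Real.exp (t * ∑ i, g i * a i))
      = fun g : ι → ℝ => ∏ i, (fun x : ℝ => Real.exp ((t * a i) * x)) (g i) := by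
    funext g
    rw [Finset.mul_sum, Real.exp_sum]
    refine Finset.prod_congr rfl fun i _ => ?_
    congr 1
    ring
  rw [h]
  exact Integrable.fintype_prod (μ := fun _ : ι => gaussianReal 0 1)
    (f := fun i (x : ℝ) => Real.exp ((t * a i) * x))
    (fun i => integrable_exp_mul_gaussianReal (t * a i))

lemma mgf_lin (a : ι → ℝ) (t : ℝ) :
    mgf (fun g : ι → ℝ => ∑ i, g i * a i) (Measure.pi fun _ : ι => gaussianReal 0 1) t
      = Real.exp (t ^ 2 * (∑ i, a i ^ 2) / 2) := by
  have h : (fun g : ι → ℝ => Real.exp (t * ∑ i, g i * a i))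
      = fun g : ι → ℝ => ∏ i, (fun x : ℝ => Real.exp ((t * a i) * x)) (g i) := by
    funext g
    rw [Finset.mul_sum, Real.exp_sum]
    refine Finset.prod_congr rfl fun i _ => ?_
    congr 1
    ring
  unfold mgf
  rw [h]
  rw [integral_fintype_prod_eq_prod (μ := fun _ : ι => gaussianReal 0 1)
    (f := fun i (x : ℝ) => Real.exp ((t * a i) * x))]
  have h2 : ∀ i, ∫ x, Real.exp ((t * a i) * x) ∂(gaussianReal 0 1)
      = Real.exp ((t * a i) ^ 2 / 2) := by
    intro i
    have := congrFun (mgf_id_gaussianReal (μ := 0) (v := 1)) (t * a i)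
    simpa [mgf] using this
  simp only [h2]
  rw [← Real.exp_sum]
  congr 1
  rw [Finset.mul_sum, Finset.sum_div]
  refine Finset.sum_congr rfl fun i _ => ?_
  ring

lemma lin_tail_one (a : ι → ℝ) (V lam : ℝ) (hV : ∑ i, a i ^ 2 ≤ V) (hV0 : 0 < V)
    (hlam : 0 < lam) :
    (Measure.pi fun _ : ι => gaussianReal 0 1).real {g | lam ≤ ∑ i, g i * a i}
      ≤ Real.exp (-(lam ^ 2 / (2 * V))) := by
  have ht : 0 ≤ lam / V := by positivity
  have h := measure_ge_le_exp_mul_mgf (μ := Measure.pi fun _ : ι => gaussianReal 0 1)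
    (X := fun g : ι → ℝ => ∑ i, g i * a i) lam ht (integrable_exp_lin a (lam / V))
  refine h.trans ?_
  rw [mgf_lin, ← Real.exp_add]
  apply Real.exp_le_exp.mpr
  have h1 : (lam / V) ^ 2 * (∑ i, a i ^ 2) / 2 ≤ (lam / V) ^ 2 * V / 2 := by gcongr
  have h2 : (lam / V) ^ 2 * V / 2 = lam ^ 2 / (2 * V) := by field_simp
  have h3 : -(lam / V) * lam = -(2 * (lam ^ 2 / (2 * V))) := by field_simp
  rw [h3]
  linarith

lemma lin_tail (a : ι → ℝ) (V lam : ℝ) (hV : ∑ i, a i ^ 2 ≤ V) (hV0 : 0 < V)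
    (hlam : 0 < lam) :
    (Measure.pi fun _ : ι => gaussianReal 0 1).real {g | lam < |∑ i, g i * a i|}
      ≤ 2 * Real.exp (-(lam ^ 2 / (2 * V))) := by
  have h1 := lin_tail_one a V lam hV hV0 hlam
  have h2 := lin_tail_one (fun i => - a i) V lam (by simpa using hV) hV0 hlam
  have hsub : {g : ι → ℝ | lam < |∑ i, g i * a i|}
      ⊆ {g | lam ≤ ∑ i, g i * a i} ∪ {g | lam ≤ ∑ i, g i * (- a i)} := by
    intro g hg
    simp only [Set.mem_setOf_eq, Set.mem_union] at hg ⊢
    rcases lt_abs.mp hg with h | h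
    · left; exact h.le
    · right
      have : ∑ i, g i * (- a i) = - ∑ i, g i * a i := by
        rw [← Finset.sum_neg_distrib]
        exact Finset.sum_congr rfl fun i _ => by ring
      rw [this]; exact h.le
  calc (Measure.pi fun _ : ι => gaussianReal 0 1).real {g | lam < |∑ i, g i * a i|}
      ≤ (Measure.pi fun _ : ι => gaussianReal 0 1).real
          ({g | lam ≤ ∑ i, g i * a i} ∪ {g | lam ≤ ∑ i, g i * (- a i)}) :=
        measureReal_mono hsub
    _ ≤ _ + _ := measureReal_union_le _ _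
    _ ≤ 2 * Real.exp (-(lam ^ 2 / (2 * V))) := by linarith

end lin

/-- tensor interpolation of the Schauder functions of total level `m` -/
lemma interp_schD (hI : StmtInterp) (d m : ℕ) (x : Fin d → ℝ) (hx : ∀ i, 0 ≤ x i ∧ x i ≤ 1) :
    ∃ W : (Fin d → Fin (2 ^ (m + 1) + 1)) → ℝ, (∀ v, 0 ≤ W v) ∧ ∑ v, W v = 1 ∧
      ∀ (n : ℕ) (R : Fin d → HI n), tlev R = m →
        schD R x = ∑ v, W v * schD R (fun i => ((v i : ℕ) : ℝ) / 2 ^ (m + 1)) := by
  choose w hw0 hw1 hw using fun i => hI m (x i) (hx i).1 (hx i).2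
  refine ⟨fun v => ∏ i, w i (v i), fun v => Finset.prod_nonneg fun i _ => hw0 i _, ?_, ?_⟩
  · have := Finset.prod_univ_sum (fun _ : Fin d => (Finset.univ : Finset (Fin (2 ^ (m + 1) + 1))))
      (fun i v => w i v)
    simp only [hw1, Finset.prod_const_one, Fintype.piFinset_univ] at this
    exact this.symm
  · intro n R hR
    have hl : ∀ i, lev (R i) ≤ m := by
      intro i
      rw [← hR]
      exact Finset.single_le_sum (f := fun i => lev (R i)) (fun _ _ => Nat.zero_le _)
        (Finset.mem_univ i)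
    unfold schD
    calc ∏ i, sch (R i) (x i) = ∏ i, ∑ v, w i v * sch (R i) ((v : ℝ) / 2 ^ (m + 1)) :=
          Finset.prod_congr rfl fun i _ => hw i n (R i) (hl i)
      _ = ∑ v : Fin d → Fin (2 ^ (m + 1) + 1),
            ∏ i, (w i (v i) * sch (R i) (((v i : ℕ) : ℝ) / 2 ^ (m + 1))) := by
          rw [Finset.prod_univ_sum, Fintype.piFinset_univ]
      _ = _ := by
          refine Finset.sum_congr rfl fun v _ => ?_
          rw [Finset.prod_mul_distrib]

theorem tail_of (hI : StmtInterp) (hV : StmtVar) : StmtTail := by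
  intro d n m lam hd hlam
  set F := Finset.univ.filter (fun R : Fin d → HI n => tlev R = m) with hF
  have hV0 : 0 < (1 / 2 : ℝ) ^ m * ((m : ℝ) + 1) ^ (d - 1) := by positivity
  -- grid points
  have hgrid : ∀ v : Fin d → Fin (2 ^ (m + 1) + 1),
      (gam d n).real {g | lam < |∑ R ∈ F, g R * schD R (fun i => ((v i : ℕ) : ℝ) / 2 ^ (m + 1))|}
        ≤ 2 * Real.exp (-(lam ^ 2 * 2 ^ m / (2 * ((m : ℝ) + 1) ^ (d - 1)))) := by
    intro v
    set a : (Fin d → HI n) → ℝ := fun R =>
      if tlev R = m then schD R (fun i => ((v i : ℕ) : ℝ) / 2 ^ (m + 1)) else 0 with ha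
    have hsum : ∀ g : (Fin d → HI n) → ℝ,
        ∑ R ∈ F, g R * schD R (fun i => ((v i : ℕ) : ℝ) / 2 ^ (m + 1)) = ∑ R, g R * a R := by
      intro g
      rw [hF, Finset.sum_filter]
      refine Finset.sum_congr rfl fun R _ => ?_
      simp only [ha]
      split_ifs <;> simp
    have hsq : ∑ R, a R ^ 2 ≤ (1 / 2 : ℝ) ^ m * ((m : ℝ) + 1) ^ (d - 1) := by
      have h := hV d n m (fun i => ((v i : ℕ) : ℝ) / 2 ^ (m + 1)) hd (by
        intro i
        refine ⟨by positivity, ?_⟩
        rw [div_le_one (by positivity)]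
        have : (v i : ℕ) ≤ 2 ^ (m + 1) := Nat.lt_succ_iff.mp (v i).2
        exact_mod_cast this)
      refine le_trans (le_of_eq ?_) h
      rw [Finset.sum_filter]
      refine Finset.sum_congr rfl fun R _ => ?_
      simp only [ha]
      split_ifs <;> simp
    have h := lin_tail a _ lam hsq hV0 hlam
    simp only [hsum]
    unfold gam
    refine h.trans (le_of_eq ?_)
    congr 3
    rw [one_div, inv_pow]
    field_simp
  -- union bound
  have hsub : {g : (Fin d → HI n) → ℝ | ∃ x : Fin d → ℝ, (∀ i, 0 ≤ x i ∧ x i ≤ 1) ∧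
        lam < |∑ R ∈ F, g R * schD R x|}
      ⊆ ⋃ v : Fin d → Fin (2 ^ (m + 1) + 1),
        {g | lam < |∑ R ∈ F, g R * schD R (fun i => ((v i : ℕ) : ℝ) / 2 ^ (m + 1))|} := by
    rintro g ⟨x, hx, hg⟩
    obtain ⟨W, hW0, hW1, hW⟩ := interp_schD hI d m x hx
    by_contra hcon
    simp only [Set.mem_iUnion, Set.mem_setOf_eq, not_exists, not_lt] at hcon
    have h1 : ∑ R ∈ F, g R * schD R x
        = ∑ v, W v * ∑ R ∈ F, g R * schD R (fun i => ((v i : ℕ) : ℝ) / 2 ^ (m + 1)) := by
      calc ∑ R ∈ F, g R * schD R x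
          = ∑ R ∈ F, ∑ v, W v * (g R * schD R (fun i => ((v i : ℕ) : ℝ) / 2 ^ (m + 1))) := by
            refine Finset.sum_congr rfl fun R hR => ?_
            rw [hW n R (by simpa [hF] using hR), Finset.mul_sum]
            exact Finset.sum_congr rfl fun v _ => by ring
        _ = _ := by
            rw [Finset.sum_comm]
            exact Finset.sum_congr rfl fun v _ => by rw [Finset.mul_sum]
    have h2 : |∑ R ∈ F, g R * schD R x| ≤ lam := by
      rw [h1]
      calc |∑ v, W v * ∑ R ∈ F, g R * schD R (fun i => ((v i : ℕ) : ℝ) / 2 ^ (m + 1))|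
          ≤ ∑ v, |W v * ∑ R ∈ F, g R * schD R (fun i => ((v i : ℕ) : ℝ) / 2 ^ (m + 1))| :=
            Finset.abs_sum_le_sum_abs _ _
        _ ≤ ∑ v, W v * lam := by
            refine Finset.sum_le_sum fun v _ => ?_
            rw [abs_mul, abs_of_nonneg (hW0 v)]
            exact mul_le_mul_of_nonneg_left (hcon v) (hW0 v)
        _ = lam := by rw [← Finset.sum_mul, hW1, one_mul]
    linarith
  have : IsProbabilityMeasure (gam d n) := by unfold gam; infer_instance
  calc (gam d n).real _ ≤ (gam d n).real (⋃ v : Fin d → Fin (2 ^ (m + 1) + 1),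
        {g | lam < |∑ R ∈ F, g R * schD R (fun i => ((v i : ℕ) : ℝ) / 2 ^ (m + 1))|}) :=
        measureReal_mono hsub
    _ ≤ ∑ v : Fin d → Fin (2 ^ (m + 1) + 1), (gam d n).real
        {g | lam < |∑ R ∈ F, g R * schD R (fun i => ((v i : ℕ) : ℝ) / 2 ^ (m + 1))|} :=
        measureReal_iUnion_fintype_le _
    _ ≤ ∑ _v : Fin d → Fin (2 ^ (m + 1) + 1),
          2 * Real.exp (-(lam ^ 2 * 2 ^ m / (2 * ((m : ℝ) + 1) ^ (d - 1)))) :=
        Finset.sum_le_sum fun v _ => hgrid v
    _ = 2 * (2 ^ (m + 1) + 1) ^ d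
          * Real.exp (-(lam ^ 2 * 2 ^ m / (2 * ((m : ℝ) + 1) ^ (d - 1)))) := by
        rw [Finset.sum_const, Finset.card_univ, Fintype.card_fun, Fintype.card_fin,
          Fintype.card_fin, nsmul_eq_mul]
        push_cast
        ring

end Sheet
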