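import Pool.Agent.Sheet.Basic

/-!
# SHEET, module TRANS: the core estimate, and the transfer to the Brownian sheet
-/

open MeasureTheory ProbabilityTheory

namespace Sheet

universe u

namespace Trans

/-- Laplace bounds for the layers -/
theorem lb_layer (hstep : StmtStep) (hbase : StmtBase) :
    ∀ k : ℕ, ∃ c : ℝ, 0 < c ∧ ∀ L : ℕ, LB L (layer L (k + 1)) k c
  | 0 => by
    obtain ⟨c, hc, h⟩ := hbase
    exact ⟨c, hc, fun L => h L⟩
  | k + 1 => by
    obtain ⟨c, hc, h⟩ := lb_layer hstep hbase k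
    refine ⟨c / (18 * ((k : ℝ) + 1)), by positivity, fun L => ?_⟩
    exact hstep (Pt L (k + 1)) L (layer L (k + 1)) k c (fun J => inferInstance) hc.le (h L)

end Trans

/-- the core estimate -/
theorem core : StmtStep → StmtBase → StmtSup → StmtCore := by
  intro hstep hbase hsup d hd
  obtain ⟨k, rfl⟩ : ∃ k, d = k + 2 := ⟨d - 2, by omega⟩
  obtain ⟨c, hc, h⟩ := Trans.lb_layer hstep hbase k
  refine ⟨c / (2 * ((k : ℝ) + 1)), c / (16 * ((k : ℝ) + 1)), by positivity, by positivity, ?_⟩
  intro L J hJ θ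
  exact hsup (Pt L (k + 1)) L (layer L (k + 1)) k c (fun J => inferInstance) hc (h L) J hJ θ

namespace Trans

theorem pt_mem (L : ℕ) (y : Grid L) : pt L y ∈ unitInterval := by
  have h := abs_le.1 (abs_zeta_le L y)
  unfold pt
  constructor <;> linarith [h.1, h.2]

/-- the point of the cube coded by a point of the grid -/
noncomputable def emb (L : ℕ) : (D : ℕ) → Pt L D → Fin D → unitInterval
  | 0, _ => Fin.elim0
  | D + 1, y => Fin.cons ⟨pt L y.1, pt_mem L y.1⟩ (emb L D y.2)

theorem kB_eq (L : ℕ) : ∀ (D : ℕ) (y z : Pt L D),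
    kB L D y z = ∏ i, min (emb L D y i : ℝ) (emb L D z i : ℝ)
  | 0, _, _ => by simp [kB]
  | D + 1, y, z => by
    rw [Fin.prod_univ_succ]
    simp only [kB, emb, Fin.cons_zero, Fin.cons_succ]
    rw [kB_eq L D]

end Trans

open Sheet.Trans in
/-- from a shift-uniform bound for a layer to the sheet -/
theorem transfer :
    StmtGKSheet.{u} → StmtGKLayer → StmtGKShift → StmtKer → StmtTransfer.{u} := by
  intro hsheet hlayer hshift hker d Ω _ P B hB L J ε b hJ hb
  have hP := hB.gaussian.isProbabilityMeasure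
  obtain ⟨ρ, hρ, hk⟩ := hker L d J hJ
  have h1 := hsheet d Ω P B hB (Pt L d) (emb L d)
  have h2 : IsGK (P.map (fun ω z => B (emb L d z) ω)) (kB L d) := by
    have : kB L d = fun y z => ∏ i, min (emb L d y i : ℝ) (emb L d z i : ℝ) := by
      funext y z
      exact kB_eq L d y z
    rw [this]
    exact h1
  have h3 := hshift (Pt L d) _ (layer L d J) (kB L d) (kap L d J) ρ ((1 / 2 : ℝ) ^ (d + J)) ε b
    h2 (hlayer L d J) hρ hk ?_
  · refine le_trans ?_ h3
    have hm : AEMeasurable (fun ω z => B (emb L d z) ω) P :=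
      aemeasurable_pi_lambda _ fun z => hB.gaussian.aemeasurable (emb L d z)
    have hs : MeasurableSet {f : Pt L d → ℝ | ∀ x, |f x| ≤ ε} := by
      have : {f : Pt L d → ℝ | ∀ x, |f x| ≤ ε} = ⋂ x, {f | |f x| ≤ ε} := by
        ext f
        simp
      rw [this]
      refine MeasurableSet.iInter fun x => ?_
      exact measurableSet_le ((measurable_pi_apply x).abs) measurable_const
    rw [map_measureReal_apply_of_aemeasurable hm hs]
    exact measureReal_mono fun ω hω x => hω _
  · intro θ
    have h4 := hb fun x => 2 ^ (d + J) * θ x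
    refine le_trans (le_of_eq ?_) h4
    congr 1
    ext f
    simp only [Set.mem_ofPred_eq]
    refine forall_congr' fun x => ?_
    have h5 : |f x + 2 ^ (d + J) * θ x| = 2 ^ (d + J) * |(1 / 2 : ℝ) ^ (d + J) * f x + θ x| := by
      rw [← abs_of_pos (show (0 : ℝ) < 2 ^ (d + J) by positivity), ← abs_mul]
      congr 1
      rw [abs_of_pos (show (0 : ℝ) < 2 ^ (d + J) by positivity), mul_add, ← mul_assoc, ← mul_pow]
      norm_num
    rw [h5]
    exact (mul_le_mul_iff_right₀ (by positivity)).symm

end Sheet
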