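import Pool.Agent.Sheet.Step
import Pool.Agent.Sheet.Base
import Pool.Agent.Sheet.Sup
import Pool.Agent.Sheet.Gauss1
import Pool.Agent.Sheet.Gauss2
import Pool.Agent.Sheet.Gauss3
import Pool.Agent.Sheet.Ker
import Pool.Agent.Sheet.Trans
import Pool.Agent.Sheet.Lower
import Pool.Agent.Sheet.Sch
import Pool.Agent.Sheet.Count
import Pool.Agent.Sheet.Dens
import Pool.Agent.Sheet.Tail
import Pool.Agent.Sheet.Combine
import Pool.Agent.Sheet.Choice
import Pool.Agent.Sheet.Limit
import Pool.Agent.Sheet.Exist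

/-!
# SHEET: assembly

Small ball probabilities of the `d`-parameter Brownian sheet, `d ≥ 2`.
-/

open MeasureTheory ProbabilityTheory

namespace Sheet

universe u

theorem upper_of (hC : StmtCombine) (hCh : StmtChoice) (hL : StmtLimit.{u}) : StmtUpper.{u} := by
  intro d hd
  obtain ⟨C, hC0, hCC⟩ := hCh d hd
  have hl2 : 0 < Real.log 2 := Real.log_pos (by norm_num)
  have hl2p : 0 < Real.log 2 ^ (2 * d - 1) := pow_pos hl2 _
  refine ⟨C + 1 / Real.log 2 ^ (2 * d - 1), by positivity, ?_⟩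
  intro Ω _ P B hB ε hε0 hε1
  obtain ⟨e, s, he, hs, hs1, hsum, htail, hprod⟩ := hCC ε hε0 hε1
  set g : ℝ := ε⁻¹ ^ 2 * Real.log ε⁻¹ ^ (2 * d - 1) with hg
  have hinv : 2 ≤ ε⁻¹ := by
    rw [le_inv_comm₀ (by norm_num) hε0]
    linarith
  have hlog : Real.log 2 ≤ Real.log ε⁻¹ := Real.log_le_log (by norm_num) hinv
  have hg1 : Real.log 2 ^ (2 * d - 1) ≤ g := by
    have h1 : 1 ≤ ε⁻¹ ^ 2 := one_le_pow₀ (by linarith)
    have h2 : Real.log 2 ^ (2 * d - 1) ≤ Real.log ε⁻¹ ^ (2 * d - 1) :=
      pow_le_pow_left₀ hl2.le hlog _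
    calc Real.log 2 ^ (2 * d - 1) = 1 * Real.log 2 ^ (2 * d - 1) := (one_mul _).symm
      _ ≤ ε⁻¹ ^ 2 * Real.log ε⁻¹ ^ (2 * d - 1) := by gcongr
  have hb : ∀ n : ℕ, Real.exp (-(C * g)) * (1 / 2) ≤ (gam d n).real
      {g | ∀ x : Fin d → ℝ, (∀ i, 0 ≤ x i ∧ x i ≤ 1) →
        |∑ R : Fin d → HI n, g R * schD R x| ≤ ε} := by
    intro n
    refine le_trans ?_ (hC d n ε e s hd he hs hs1 hsum)
    have h1 := hprod (n * d + 1)
    have h2 := htail (n * d + 1)
    have h3 : (0 : ℝ) ≤ Real.exp (-(C * g)) := (Real.exp_pos _).le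
    exact mul_le_mul h1 (by linarith) (by norm_num) (h3.trans h1)
  have hP := hL d Ω P B hB ε _ hε0 hb
  refine le_trans ?_ hP
  have h4 : (1 : ℝ) ≤ 1 / Real.log 2 ^ (2 * d - 1) * g := by
    rw [one_div, inv_mul_eq_div, le_div_iff₀ hl2p, one_mul]
    exact hg1
  have h5 : Real.exp (-1) ≤ 1 / 2 := by
    have := Real.exp_one_gt_d9
    rw [Real.exp_neg, one_div]
    apply inv_anti₀ (by norm_num) (by linarith)
  calc Real.exp (-((C + 1 / Real.log 2 ^ (2 * d - 1)) * g))
      ≤ Real.exp (-(C * g) + -1) := by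
        apply Real.exp_le_exp.2
        linarith
    _ = Real.exp (-(C * g)) * Real.exp (-1) := Real.exp_add _ _
    _ ≤ Real.exp (-(C * g)) * (1 / 2) := by gcongr

/-- the event in the definition of the small ball probability is null-measurable -/
theorem nullMeasurable_event {d : ℕ} {Ω : Type u} [MeasurableSpace Ω]
    {B : (Fin d → unitInterval) → Ω → ℝ} {P : Measure Ω} (h : IsBrownianSheet B P) (ε : ℝ) :
    NullMeasurableSet {ω | ∀ x, |B x ω| ≤ ε} P := by
  let D : ℕ → (Fin d → unitInterval) := TopologicalSpace.denseSeq (Fin d → unitInterval)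
  have hD : DenseRange D := TopologicalSpace.denseRange_denseSeq _
  have h1 : NullMeasurableSet (⋂ n : ℕ, {ω | |B (D n) ω| ≤ ε}) P := by
    refine NullMeasurableSet.iInter fun n => ?_
    have h2 : AEMeasurable (fun ω => |B (D n) ω|) P :=
      (h.gaussian.aemeasurable (D n)).abs
    exact nullMeasurableSet_le h2 aemeasurable_const
  refine h1.congr ?_
  filter_upwards [h.continuous_paths] with ω hω
  apply propext
  constructor
  · intro hA x
    have hA' : ∀ n, |B (D n) ω| ≤ ε := fun n => by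
      have := Set.mem_iInter.1 hA n
      exact this
    have hcl : IsClosed {x : Fin d → unitInterval | |B x ω| ≤ ε} :=
      isClosed_le hω.abs continuous_const
    have hsub : Set.range D ⊆ {x | |B x ω| ≤ ε} := by
      rintro _ ⟨n, rfl⟩
      exact hA' n
    have := hcl.closure_subset_iff.2 hsub
    exact this (hD x)
  · intro hA
    exact Set.mem_iInter.2 fun n => hA (D n)

theorem lowerThm : StmtLower.{u} :=
  Lower.lower (core step base sup) (transfer gkSheet gkLayer gkShift Ker.ker) triv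

theorem upperThm : StmtUpper.{u} :=
  upper_of (Combine.combine Dens.dens (tail_of interp Count.varThm) Count.count) Sheet.choice
    (limit gkSheet gkUnique sch1)

end Sheet
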