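import Mathlib
import Pool.Agent.Sheet.Defs

/-!
# MP_e5cfa3_pr : small ball probabilities of the Brownian sheet (project SHEET)

Definitions and the statements of the modules.  Paper proof: team-store `MP_e5cfa3_pr_h98.md`.
-/

open MeasureTheory ProbabilityTheory

namespace Sheet

universe u

/-! ## The grid of digit strings -/

/-- base-4 digits `(b, s)`: `b = true` for the two inner quarters, `s = true` for the left half -/
abbrev Dig := Bool × Bool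

/-- sign of a boolean -/
def sg (b : Bool) : ℝ := if b then 1 else -1

/-- strings of `L` digits -/
def Grid : ℕ → Type
  | 0 => Unit
  | L + 1 => Dig × Grid L

instance instFintypeGrid : ∀ L, Fintype (Grid L)
  | 0 => inferInstanceAs (Fintype Unit)
  | L + 1 =>
    letI := instFintypeGrid L
    inferInstanceAs (Fintype (Dig × Grid L))

instance instDecidableEqGrid : ∀ L, DecidableEq (Grid L)
  | 0 => inferInstanceAs (DecidableEq Unit)
  | L + 1 =>
    letI := instDecidableEqGrid L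
    inferInstanceAs (DecidableEq (Dig × Grid L))

instance instInhabitedGrid : ∀ L, Inhabited (Grid L)
  | 0 => inferInstanceAs (Inhabited Unit)
  | L + 1 =>
    letI := instInhabitedGrid L
    inferInstanceAs (Inhabited (Dig × Grid L))

/-- relative position minus one half -/
noncomputable def zeta : (L : ℕ) → Grid L → ℝ
  | 0, _ => 0
  | L + 1, y => - (sg y.1.2 * (1 / 4 - sg y.1.1 / 8)) + zeta L y.2 / 4

/-- the real point in `[0,1]` coded by a digit string -/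
noncomputable def pt (L : ℕ) (y : Grid L) : ℝ := 1 / 2 + zeta L y

/-- the tent function of the root interval -/
noncomputable def tent (L : ℕ) (y : Grid L) : ℝ := 1 - 2 * |zeta L y|

/-- normalised counting average -/
noncomputable def avg {α : Type*} [Fintype α] (f : α → ℝ) : ℝ := (∑ a, f a) / Fintype.card α

/-- `Pt L D = (Grid L)^D` -/
def Pt (L : ℕ) : ℕ → Type
  | 0 => Unit
  | D + 1 => Grid L × Pt L D

instance instFintypePt (L : ℕ) : ∀ D, Fintype (Pt L D)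
  | 0 => inferInstanceAs (Fintype Unit)
  | D + 1 =>
    letI := instFintypePt L D
    inferInstanceAs (Fintype (Grid L × Pt L D))

instance instInhabitedPt (L : ℕ) : ∀ D, Inhabited (Pt L D)
  | 0 => inferInstanceAs (Inhabited Unit)
  | D + 1 =>
    letI := instInhabitedPt L D
    inferInstanceAs (Inhabited (Grid L × Pt L D))

/-! ## Tree laws and layers -/

/-- glue a root block `p.1` and the four subtree fields `p.2 e` -/
noncomputable def glue {P : Type} (L : ℕ) (p : (P → ℝ) × (Dig → Grid L × P → ℝ)) :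
    Grid (L + 1) × P → ℝ :=
  fun z => tent (L + 1) z.1 * p.1 z.2 + p.2 z.1.1 (z.1.2, z.2)

/-- law of the random field of a tree of height `h` on a grid of depth `L`; the block at a node
whose subtree has height `h` (including the node) has law `ν (h - 1)` -/
noncomputable def treeLaw {P : Type} [Fintype P] (ν : ℕ → Measure (P → ℝ)) :
    (h L : ℕ) → Measure (Grid L × P → ℝ)
  | 0, _ => Measure.dirac 0
  | _ + 1, 0 => Measure.dirac 0
  | h + 1, L + 1 =>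
    ((ν h).prod (Measure.pi fun _ : Dig => treeLaw ν h L)).map (glue L)

/-- zero-dimensional layers -/
noncomputable def nu0 (J : ℕ) : Measure (Unit → ℝ) :=
  if J = 0 then Measure.pi (fun _ => gaussianReal 0 1) else Measure.dirac 0

/-- law on `Pt L D` of the `D`-dimensional layer of total (base-4) level `J` -/
noncomputable def layer (L : ℕ) : (D : ℕ) → ℕ → Measure (Pt L D → ℝ)
  | 0, J => nu0 J
  | D + 1, J => treeLaw (layer L D) (J + 1) L

/-- Laplace bound, uniform over all shifts `θ` -/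
def LB {P : Type} [Fintype P] (L : ℕ) (ν : ℕ → Measure (P → ℝ)) (k : ℕ) (c : ℝ) : Prop :=
  ∀ J < L, ∀ θ : P → ℝ, ∀ lam : ℝ, 0 < lam → lam ≤ 1 →
    ∫ f, Real.exp (-(lam * 4 ^ J * √((J : ℝ) + 1) ^ k * avg (fun x => |f x + θ x|))) ∂(ν J)
      ≤ Real.exp (-(c * lam * 4 ^ J * ((J : ℝ) + 1) ^ k))

/-- Module STEP -/
def StmtStep : Prop :=
  ∀ (P : Type) [Fintype P] [Nonempty P] (L : ℕ) (ν : ℕ → Measure (P → ℝ)) (k : ℕ) (c : ℝ),
    (∀ J, IsProbabilityMeasure (ν J)) → 0 ≤ c → LB L ν k c →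
      LB L (fun J => treeLaw ν (J + 1) L) (k + 1) (c / (18 * ((k : ℝ) + 1)))

/-- Module BASE -/
def StmtBase : Prop :=
  ∃ c : ℝ, 0 < c ∧ ∀ L : ℕ, LB L (fun J => treeLaw nu0 (J + 1) L) 0 c

/-- Module SUP -/
def StmtSup : Prop :=
  ∀ (P : Type) [Fintype P] [Nonempty P] (L : ℕ) (ν : ℕ → Measure (P → ℝ)) (k : ℕ) (c : ℝ),
    (∀ J, IsProbabilityMeasure (ν J)) → 0 < c → LB L ν k c →
      ∀ J < L, ∀ θ : Grid L × P → ℝ,
        (treeLaw ν (J + 1) L).real
            {f | ∀ z, |f z + θ z| ≤ c / (16 * ((k : ℝ) + 1)) * √((J : ℝ) + 1) ^ (k + 2)}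
          ≤ Real.exp (-(c / (2 * ((k : ℝ) + 1)) * 4 ^ J * ((J : ℝ) + 1) ^ (k + 1)))

/-- The core estimate (from STEP, BASE, SUP) -/
def StmtCore : Prop :=
  ∀ d : ℕ, 2 ≤ d → ∃ c δ : ℝ, 0 < c ∧ 0 < δ ∧ ∀ L : ℕ, ∀ J < L, ∀ θ : Pt L d → ℝ,
    (layer L d J).real {f | ∀ z, |f z + θ z| ≤ δ * √((J : ℝ) + 1) ^ d}
      ≤ Real.exp (-(c * 4 ^ J * ((J : ℝ) + 1) ^ (d - 1)))

/-! ## Gaussian laws and kernels -/

/-- `μ` is the centred Gaussian law on `ℝ^Q` with covariance kernel `K` -/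
def IsGK {Q : Type*} [Fintype Q] (μ : Measure (Q → ℝ)) (K : Q → Q → ℝ) : Prop :=
  IsProbabilityMeasure μ ∧ ∀ a : Q → ℝ,
    ∫ f, Complex.exp (((∑ x, a x * f x : ℝ) : ℂ) * Complex.I) ∂μ
      = Complex.exp (((-(∑ x, ∑ y, a x * a y * K x y) / 2 : ℝ) : ℂ))

/-- kernels that are finite sums of rank one kernels -/
def Rep {Q : Type*} (K : Q → Q → ℝ) : Prop :=
  ∃ (n : ℕ) (φ : Fin n → Q → ℝ), ∀ x y, K x y = ∑ i, φ i x * φ i y

/-- covariance kernel of the one-dimensional layer of level `j` on the grid of depth `L` -/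
noncomputable def ker1 : (j L : ℕ) → Grid L → Grid L → ℝ
  | 0, 0 => fun _ _ => 0
  | 0, L + 1 => fun y z => tent (L + 1) y * tent (L + 1) z
  | _ + 1, 0 => fun _ _ => 0
  | j + 1, L + 1 => fun y z => if y.1 = z.1 then ker1 j L y.2 z.2 else 0

/-- covariance kernel of `layer L D J` -/
noncomputable def kap (L : ℕ) : (D : ℕ) → ℕ → Pt L D → Pt L D → ℝ
  | 0, J => fun _ _ => if J = 0 then 1 else 0
  | D + 1, J => fun y z => ∑ j ∈ Finset.range (J + 1), ker1 j L y.1 z.1 * kap L D (J - j) y.2 z.2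

/-- covariance kernel of the Brownian sheet on `Pt L D` -/
noncomputable def kB (L : ℕ) : (D : ℕ) → Pt L D → Pt L D → ℝ
  | 0 => fun _ _ => 1
  | D + 1 => fun y z => min (pt L y.1) (pt L z.1) * kB L D y.2 z.2

/-- Module GAUSS, part 1: laws are determined by their kernels -/
def StmtGKUnique : Prop :=
  ∀ (Q : Type) [Fintype Q] (μ ν : Measure (Q → ℝ)) (K : Q → Q → ℝ), IsGK μ K → IsGK ν K → μ = ν

/-- Module GAUSS, part 2: representable kernels are covariance kernels -/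
def StmtGKExists : Prop :=
  ∀ (Q : Type) [Fintype Q] (K : Q → Q → ℝ), Rep K → ∃ μ : Measure (Q → ℝ), IsGK μ K

/-- Module GAUSS, part 3: kernel of a tree law -/
def StmtGKTree : Prop :=
  ∀ (P : Type) [Fintype P] (ν : ℕ → Measure (P → ℝ)) (κ : ℕ → P → P → ℝ),
    (∀ J, IsGK (ν J) (κ J)) → ∀ h L : ℕ,
      IsGK (treeLaw ν h L)
        (fun y z => ∑ j ∈ Finset.range h, ker1 j L y.1 z.1 * κ (h - 1 - j) y.2 z.2)

/-- Module GAUSS, part 4: kernel of the layers -/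
def StmtGKLayer : Prop :=
  ∀ (L D J : ℕ), IsGK (layer L D J) (kap L D J)

/-- Module GAUSS, part 5: a bound uniform over shifts for an independent summand bounds the whole -/
def StmtGKShift : Prop :=
  ∀ (Q : Type) [Fintype Q] (μ τ : Measure (Q → ℝ)) (K κ ρ : Q → Q → ℝ) (α ε b : ℝ),
    IsGK μ K → IsGK τ κ → Rep ρ → (∀ x y, K x y = α ^ 2 * κ x y + ρ x y) →
    (∀ θ : Q → ℝ, τ.real {f | ∀ x, |α * f x + θ x| ≤ ε} ≤ b) →
      μ.real {f | ∀ x, |f x| ≤ ε} ≤ b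

/-- Module GAUSS, part 6: finite families of values of a Brownian sheet -/
def StmtGKSheet : Prop :=
  ∀ (d : ℕ) (Ω : Type u) [MeasurableSpace Ω] (P : Measure Ω) (B : (Fin d → unitInterval) → Ω → ℝ),
    IsBrownianSheet B P → ∀ (Q : Type) [Fintype Q] (p : Q → Fin d → unitInterval),
      IsGK (P.map (fun ω z => B (p z) ω)) (fun y z => ∏ i, min (p y i : ℝ) (p z i : ℝ))

/-- Module KER: the layer kernel is a representable summand of the kernel of the sheet -/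
def StmtKer : Prop :=
  ∀ (L D J : ℕ), J < L →
    ∃ ρ : Pt L D → Pt L D → ℝ, Rep ρ ∧ ∀ y z,
      kB L D y z = ((1 / 2 : ℝ) ^ (D + J)) ^ 2 * kap L D J y z + ρ y z

/-- Transfer (from GAUSS, KER): small ball bound for the sheet from a shift-uniform bound for a layer -/
def StmtTransfer : Prop :=
  ∀ (d : ℕ) (Ω : Type u) [MeasurableSpace Ω] (P : Measure Ω) (B : (Fin d → unitInterval) → Ω → ℝ),
    IsBrownianSheet B P → ∀ (L J : ℕ) (ε b : ℝ), J < L →
      (∀ θ : Pt L d → ℝ, (layer L d J).real {f | ∀ z, |f z + θ z| ≤ 2 ^ (d + J) * ε} ≤ b) →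
        P.real {ω | ∀ x, |B x ω| ≤ ε} ≤ b

/-- Module TRIV: trivial bound for `ε ≤ 1/2` -/
def StmtTriv : Prop :=
  ∃ ρ : ℝ, 0 < ρ ∧ ρ < 1 ∧
    ∀ (d : ℕ) (Ω : Type u) [MeasurableSpace Ω] (P : Measure Ω)
      (B : (Fin d → unitInterval) → Ω → ℝ), IsBrownianSheet B P → ∀ ε : ℝ, ε ≤ 1 / 2 →
        P.real {ω | ∀ x, |B x ω| ≤ ε} ≤ ρ

/-- Module LOWER (from StmtCore, StmtTransfer, StmtTriv): the new lower bound for the exponent -/
def StmtLower : Prop :=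
  ∀ d : ℕ, 2 ≤ d → ∃ c : ℝ, 0 < c ∧
    ∀ (Ω : Type u) [MeasurableSpace Ω] (P : Measure Ω) (B : (Fin d → unitInterval) → Ω → ℝ),
      IsBrownianSheet B P → ∀ ε : ℝ, 0 < ε → ε < 1 / 2 →
        P.real {ω | ∀ x, |B x ω| ≤ ε}
          ≤ Real.exp (-(c * (ε⁻¹ ^ 2 * Real.log ε⁻¹ ^ (2 * d - 1))))

/-! ## Upper bound for the exponent -/

/-- real tent function -/
noncomputable def tentR (z : ℝ) : ℝ := max 0 (1 - |2 * z - 1|)

/-- indices of the one-dimensional Schauder functions of level `< n`; `none` is the linear one -/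
abbrev HI (n : ℕ) : Type := Option (Σ i : Fin n, Fin (2 ^ (i : ℕ)))

/-- level of an index -/
def lev {n : ℕ} : HI n → ℕ
  | none => 0
  | some a => (a.1 : ℕ)

/-- one-dimensional Schauder functions -/
noncomputable def sch {n : ℕ} : HI n → ℝ → ℝ
  | none => fun t => t
  | some a => fun t => (1 / √2) ^ (a.1 : ℕ) / 2 * tentR (2 ^ (a.1 : ℕ) * t - (a.2 : ℕ))

/-- total level -/
def tlev {d n : ℕ} (R : Fin d → HI n) : ℕ := ∑ i, lev (R i)

/-- `d`-dimensional Schauder functions -/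
noncomputable def schD {d n : ℕ} (R : Fin d → HI n) (x : Fin d → ℝ) : ℝ := ∏ i, sch (R i) (x i)

/-- standard Gaussian measure on the coefficients -/
noncomputable def gam (d n : ℕ) : Measure ((Fin d → HI n) → ℝ) :=
  Measure.pi (fun _ => gaussianReal 0 1)

/-- Module SCH1: Schauder identity on the dyadic grid -/
def StmtSch1 : Prop :=
  ∀ (n a b : ℕ), a ≤ 2 ^ n → b ≤ 2 ^ n →
    min ((a : ℝ) / 2 ^ n) ((b : ℝ) / 2 ^ n)
      = ∑ i : HI n, sch i ((a : ℝ) / 2 ^ n) * sch i ((b : ℝ) / 2 ^ n)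

/-- Module SCH2: interpolation -/
def StmtInterp : Prop :=
  ∀ (m : ℕ) (t : ℝ), 0 ≤ t → t ≤ 1 →
    ∃ w : Fin (2 ^ (m + 1) + 1) → ℝ, (∀ v, 0 ≤ w v) ∧ ∑ v, w v = 1 ∧
      ∀ (n : ℕ) (i : HI n), lev i ≤ m → sch i t = ∑ v, w v * sch i ((v : ℝ) / 2 ^ (m + 1))

/-- Module SCH3: number of indices of total level `m` -/
def StmtCount : Prop :=
  ∀ (d n m : ℕ), 1 ≤ d →
    ((Finset.univ.filter fun R : Fin d → HI n => tlev R = m).card : ℝ)
      ≤ 2 ^ d * 2 ^ m * ((m : ℝ) + 1) ^ (d - 1)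

/-- Module SCH4: variance of a layer -/
def StmtVar : Prop :=
  ∀ (d n m : ℕ) (x : Fin d → ℝ), 1 ≤ d → (∀ i, 0 ≤ x i ∧ x i ≤ 1) →
    ∑ R ∈ Finset.univ.filter (fun R : Fin d → HI n => tlev R = m), schD R x ^ 2
      ≤ (1 / 2) ^ m * ((m : ℝ) + 1) ^ (d - 1)

/-- Module DENS: density comparison -/
def StmtDens : Prop :=
  ∀ (ι : Type) [Fintype ι] (s : ι → ℝ) (A : Set (ι → ℝ)), (∀ i, 0 < s i) → (∀ i, s i ≤ 1) →
    MeasurableSet A →
      (∏ i, s i) * (Measure.pi fun _ : ι => gaussianReal 0 1).real {g | (fun i => s i * g i) ∈ A}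
        ≤ (Measure.pi fun _ : ι => gaussianReal 0 1).real A

/-- Module TAIL (from SCH2, SCH4): maximal inequality for a layer -/
def StmtTail : Prop :=
  ∀ (d n m : ℕ) (lam : ℝ), 1 ≤ d → 0 < lam →
    (gam d n).real {g | ∃ x : Fin d → ℝ, (∀ i, 0 ≤ x i ∧ x i ≤ 1) ∧
        lam < |∑ R ∈ Finset.univ.filter (fun R : Fin d → HI n => tlev R = m), g R * schD R x|}
      ≤ 2 * (2 ^ (m + 1) + 1) ^ d
          * Real.exp (-(lam ^ 2 * 2 ^ m / (2 * ((m : ℝ) + 1) ^ (d - 1))))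

/-- Module COMBINE (from DENS, TAIL, SCH3) -/
def StmtCombine : Prop :=
  ∀ (d n : ℕ) (ε : ℝ) (e s : ℕ → ℝ), 1 ≤ d → (∀ m, 0 < e m) → (∀ m, 0 < s m) → (∀ m, s m ≤ 1) →
    (∀ N, ∑ m ∈ Finset.range N, e m ≤ ε) →
      (∏ m ∈ Finset.range (n * d + 1), s m ^ (2 ^ d * 2 ^ m * (m + 1) ^ (d - 1)))
        * (1 - ∑ m ∈ Finset.range (n * d + 1), 2 * (2 ^ (m + 1) + 1) ^ d
            * Real.exp (-((e m / s m) ^ 2 * 2 ^ m / (2 * ((m : ℝ) + 1) ^ (d - 1)))))
      ≤ (gam d n).real {g | ∀ x : Fin d → ℝ, (∀ i, 0 ≤ x i ∧ x i ≤ 1) →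
          |∑ R : Fin d → HI n, g R * schD R x| ≤ ε}

/-- Module CHOICE: the sequences `e, s` (pure real analysis) -/
def StmtChoice : Prop :=
  ∀ d : ℕ, 1 ≤ d → ∃ C : ℝ, 0 < C ∧ ∀ ε : ℝ, 0 < ε → ε < 1 / 2 →
    ∃ e s : ℕ → ℝ, (∀ m, 0 < e m) ∧ (∀ m, 0 < s m) ∧ (∀ m, s m ≤ 1) ∧
      (∀ N, ∑ m ∈ Finset.range N, e m ≤ ε) ∧
      (∀ N, ∑ m ∈ Finset.range N, 2 * (2 ^ (m + 1) + 1 : ℝ) ^ d
            * Real.exp (-((e m / s m) ^ 2 * 2 ^ m / (2 * ((m : ℝ) + 1) ^ (d - 1)))) ≤ 1 / 2) ∧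
      (∀ N, Real.exp (-(C * (ε⁻¹ ^ 2 * Real.log ε⁻¹ ^ (2 * d - 1)))) ≤
        ∏ m ∈ Finset.range N, s m ^ (2 ^ d * 2 ^ m * (m + 1) ^ (d - 1)))

/-- Module LIMIT (from GAUSS, SCH1): from the coefficients to the sheet -/
def StmtLimit : Prop :=
  ∀ (d : ℕ) (Ω : Type u) [MeasurableSpace Ω] (P : Measure Ω) (B : (Fin d → unitInterval) → Ω → ℝ),
    IsBrownianSheet B P → ∀ (ε b : ℝ), 0 < ε →
      (∀ n : ℕ, b ≤ (gam d n).real {g | ∀ x : Fin d → ℝ, (∀ i, 0 ≤ x i ∧ x i ≤ 1) →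
          |∑ R : Fin d → HI n, g R * schD R x| ≤ ε}) →
        b ≤ P.real {ω | ∀ x, |B x ω| ≤ ε}

/-- The (known) upper bound for the exponent -/
def StmtUpper : Prop :=
  ∀ d : ℕ, 1 ≤ d → ∃ C : ℝ, 0 < C ∧
    ∀ (Ω : Type u) [MeasurableSpace Ω] (P : Measure Ω) (B : (Fin d → unitInterval) → Ω → ℝ),
      IsBrownianSheet B P → ∀ ε : ℝ, 0 < ε → ε < 1 / 2 →
        Real.exp (-(C * (ε⁻¹ ^ 2 * Real.log ε⁻¹ ^ (2 * d - 1))))
          ≤ P.real {ω | ∀ x, |B x ω| ≤ ε}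

/-- Module EXIST: a Brownian sheet exists -/
def StmtExist : Prop :=
  ∀ d : ℕ, ∃ (Ω : Type) (_ : MeasurableSpace Ω) (P : Measure Ω)
    (B : (Fin d → unitInterval) → Ω → ℝ), IsBrownianSheet B P

end Sheet
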