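import Pool.Agent.Sheet.Basic

/-!
# SHEET, module STEP: the dimension step of the Laplace bound
-/

open MeasureTheory ProbabilityTheory

namespace Sheet

namespace StepMod

/-- step size with stopping -/
noncomputable def rr (η u : ℝ) : ℝ := if |u| ≤ 3 / 4 then η else 0

/-- value function -/
noncomputable def W (η : ℝ) : (h L : ℕ) → ℝ → (Grid L → ℝ) → ℝ
  | 0, _, u, f => u * avg f
  | _ + 1, 0, _, _ => 0
  | h + 1, L + 1, u, f =>
    max (avg fun e : Dig => W η h L (u + rr η u * sg e.1) (fun y => f (e, y)))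
      (avg fun e : Dig => W η h L (u - rr η u * sg e.1) (fun y => f (e, y)))

lemma W_zero (η : ℝ) (L : ℕ) (u : ℝ) (f : Grid L → ℝ) : W η 0 L u f = u * avg f := by
  cases L <;> rfl

lemma W_succ (η : ℝ) (h L : ℕ) (u : ℝ) (f : Grid (L + 1) → ℝ) :
    W η (h + 1) (L + 1) u f =
      max (avg fun e : Dig => W η h L (u + rr η u * sg e.1) (fun y => f (e, y)))
        (avg fun e : Dig => W η h L (u - rr η u * sg e.1) (fun y => f (e, y))) := rfl

lemma W_shift (η : ℝ) : ∀ (h L : ℕ), h ≤ L → ∀ (u : ℝ) (f : Grid L → ℝ) (α β : ℝ),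
    W η h L u (fun y => f y + (α + β * zeta L y)) = W η h L u f + α * u
  | 0, L, _, u, f, α, β => by
    rw [W_zero, W_zero, avg_add, avg_add, avg_const, avg_const_mul, avg_zeta]
    ring
  | h + 1, 0, hh, _, _, _, _ => absurd hh (by omega)
  | h + 1, L + 1, hh, u, f, α, β => by
    have IH := W_shift η h L (by omega)
    have key : ∀ (v : ℝ) (e : Dig),
        W η h L v (fun y => f (e, y) + (α + β * zeta (L + 1) (e, y)))
          = W η h L v (fun y => f (e, y)) + (α - β * (sg e.2 * (1 / 4 - sg e.1 / 8))) * v := by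
      intro v e
      rw [← IH v (fun y => f (e, y)) (α - β * (sg e.2 * (1 / 4 - sg e.1 / 8))) (β / 4)]
      congr 1
      funext y
      rw [zeta_succ]
      ring
    rw [W_succ, W_succ]
    simp only [key, avg_add]
    have e1 : avg (fun e : Dig => (α - β * (sg e.2 * (1 / 4 - sg e.1 / 8)))
        * (u + rr η u * sg e.1)) = α * u := by
      rw [avg_dig]; simp only [sg_true, sg_false]; ring
    have e2 : avg (fun e : Dig => (α - β * (sg e.2 * (1 / 4 - sg e.1 / 8)))
        * (u - rr η u * sg e.1)) = α * u := by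
      rw [avg_dig]; simp only [sg_true, sg_false]; ring
    rw [e1, e2, max_add_add_right]

lemma abs_step_le {η : ℝ} (h0 : 0 ≤ η) (h1 : η ≤ 1 / 4) {u : ℝ} (hu : |u| ≤ 1) (b : Bool) :
    |u + rr η u * sg b| ≤ 1 ∧ |u - rr η u * sg b| ≤ 1 := by
  unfold rr
  split_ifs with h
  · have h2 : |η * sg b| ≤ 1 / 4 := by
      rw [abs_mul, abs_sg, mul_one, abs_of_nonneg h0]; exact h1
    rw [abs_le] at h h2
    constructor <;> rw [abs_le] <;> constructor <;> linarith [h.1, h.2, h2.1, h2.2]
  · simp [hu]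

lemma W_le {η : ℝ} (h0 : 0 ≤ η) (h1 : η ≤ 1 / 4) : ∀ (h L : ℕ), h ≤ L →
    ∀ (u : ℝ), |u| ≤ 1 → ∀ (f : Grid L → ℝ), W η h L u f ≤ avg (fun y => |f y|)
  | 0, L, _, u, hu, f => by
    rw [W_zero]
    calc u * avg f ≤ |u * avg f| := le_abs_self _
      _ = |u| * |avg f| := abs_mul _ _
      _ ≤ 1 * avg (fun y => |f y|) := by
        gcongr
        exact abs_avg_le f
      _ = _ := one_mul _
  | h + 1, 0, hh, _, _, _ => absurd hh (by omega)
  | h + 1, L + 1, hh, u, hu, f => by
    have IH := W_le h0 h1 h L (by omega)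
    rw [W_succ, avg_grid_succ]
    apply max_le
    · exact avg_mono fun e => IH _ (abs_step_le h0 h1 hu e.1).1 _
    · exact avg_mono fun e => IH _ (abs_step_le h0 h1 hu e.1).2 _

lemma le_W (η : ℝ) : ∀ (h L : ℕ), h ≤ L →
    ∀ (u : ℝ) (f : Grid L → ℝ), u * avg f ≤ W η h L u f
  | 0, L, _, u, f => by rw [W_zero]
  | h + 1, 0, hh, _, _ => absurd hh (by omega)
  | h + 1, L + 1, hh, u, f => by
    have IH := le_W η h L (by omega)
    rw [W_succ, avg_grid_succ]
    have a1 := avg_mono (fun e : Dig => IH (u + rr η u * sg e.1) (fun y => f (e, y)))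
    have a2 := avg_mono (fun e : Dig => IH (u - rr η u * sg e.1) (fun y => f (e, y)))
    have a3 : avg (fun e : Dig => (u + rr η u * sg e.1) * avg (fun y => f (e, y)))
        + avg (fun e : Dig => (u - rr η u * sg e.1) * avg (fun y => f (e, y)))
        = 2 * (u * avg (fun e : Dig => avg (fun y => f (e, y)))) := by
      rw [← avg_add, ← avg_const_mul, ← avg_const_mul]
      congr 1
      funext e
      ring
    have a4 := le_max_left (avg fun e : Dig => W η h L (u + rr η u * sg e.1) (fun y => f (e, y)))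
      (avg fun e : Dig => W η h L (u - rr η u * sg e.1) (fun y => f (e, y)))
    have a5 := le_max_right (avg fun e : Dig => W η h L (u + rr η u * sg e.1) (fun y => f (e, y)))
      (avg fun e : Dig => W η h L (u - rr η u * sg e.1) (fun y => f (e, y)))
    linarith

lemma continuous_avg {X α : Type*} [TopologicalSpace X] [Fintype α] {F : X → α → ℝ}
    (h : ∀ a, Continuous fun x => F x a) : Continuous fun x => avg (F x) := by
  unfold avg
  exact (continuous_finsetSum _ fun a _ => h a).div_const _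

lemma continuous_W (η : ℝ) : ∀ (h L : ℕ) (u : ℝ), Continuous (fun f : Grid L → ℝ => W η h L u f)
  | 0, L, u => by
    simp only [W_zero]
    exact continuous_const.mul (continuous_avg fun a => continuous_apply a)
  | h + 1, 0, u => by
    show Continuous (fun _ => (0 : ℝ))
    exact continuous_const
  | h + 1, L + 1, u => by
    have IH := continuous_W η h L
    simp only [W_succ]
    refine Continuous.max (continuous_avg fun e => ?_) (continuous_avg fun e => ?_)
    · exact (IH _).comp (continuous_pi fun y => continuous_apply _)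
    · exact (IH _).comp (continuous_pi fun y => continuous_apply _)

variable {P : Type} [Fintype P]

/-- centred averaged value function -/
noncomputable def wbar (η : ℝ) (h L : ℕ) (u : ℝ) (f : Grid L × P → ℝ) : ℝ :=
  avg (fun x : P => W η h L u (fun y => f (y, x))) - u * avg f

lemma continuous_wbar (η : ℝ) (h L : ℕ) (u : ℝ) :
    Continuous (fun f : Grid L × P → ℝ => wbar η h L u f) := by
  unfold wbar
  refine Continuous.sub (continuous_avg fun x => ?_)
    (continuous_const.mul (continuous_avg fun a => continuous_apply a))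
  exact (continuous_W η h L u).comp (continuous_pi fun y => continuous_apply _)

lemma wbar_nonneg (η : ℝ) (h L : ℕ) (hh : h ≤ L) (u : ℝ) (f : Grid L × P → ℝ) :
    0 ≤ wbar η h L u f := by
  unfold wbar
  rw [avg_prod_right, ← avg_const_mul, sub_nonneg]
  exact avg_mono fun x => le_W η h L hh u _

lemma wbar_le {η : ℝ} (h0 : 0 ≤ η) (h1 : η ≤ 1 / 4) (h L : ℕ) (hh : h ≤ L)
    (f : Grid L × P → ℝ) : wbar η h L 0 f ≤ avg (fun z => |f z|) := by
  unfold wbar
  rw [avg_prod_right (fun z => |f z|), zero_mul, sub_zero]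
  exact avg_mono fun x => W_le h0 h1 h L hh 0 (by simp) _

lemma max_eq_half (a b : ℝ) : max a b = (a + b) / 2 + |a - b| / 2 := by
  rcases le_total a b with h | h
  · rw [max_eq_right h, abs_of_nonpos (by linarith)]; ring
  · rw [max_eq_left h, abs_of_nonneg (by linarith)]; ring

/-- the part of the field of the child `e` -/
noncomputable def Fe (L : ℕ) (F : Dig → Grid L × P → ℝ) (θ : Grid (L + 1) × P → ℝ) (e : Dig) :
    Grid L × P → ℝ := fun z => F e z + θ ((e, z.1), z.2)

/-- the correction, which does not depend on the root block -/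
noncomputable def Dx (η : ℝ) (h L : ℕ) (u : ℝ) (F : Dig → Grid L × P → ℝ)
    (θ : Grid (L + 1) × P → ℝ) (x : P) : ℝ :=
  (avg (fun e : Dig => W η h L (u + rr η u * sg e.1) (fun y => Fe L F θ e (y, x)))
    - avg (fun e : Dig => W η h L (u - rr η u * sg e.1) (fun y => Fe L F θ e (y, x)))) / 2

lemma wbar_glue (η : ℝ) (h L : ℕ) (hh : h ≤ L) (u : ℝ) (G : P → ℝ)
    (F : Dig → Grid L × P → ℝ) (θ : Grid (L + 1) × P → ℝ) :
    wbar η (h + 1) (L + 1) u (fun z => glue L (G, F) z + θ z)
      = avg (fun e : Dig => (wbar η h L (u + rr η u) (Fe L F θ e)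
          + wbar η h L (u - rr η u) (Fe L F θ e)) / 2)
        + avg (fun x => |rr η u * G x / 4 + Dx η h L u F θ x|) := by
  have key : ∀ (v : ℝ) (e : Dig) (x : P),
      W η h L v (fun y => glue L (G, F) ((e, y), x) + θ ((e, y), x))
        = W η h L v (fun y => Fe L F θ e (y, x)) + (1 / 2 + sg e.1 / 4) * G x * v := by
    intro v e x
    rw [← W_shift η h L hh v (fun y => Fe L F θ e (y, x)) ((1 / 2 + sg e.1 / 4) * G x)
      (sg e.2 / 2 * G x)]
    congr 1
    funext y
    simp only [glue, Fe, tent_succ]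
    ring
  have hW : ∀ x : P, W η (h + 1) (L + 1) u (fun y => glue L (G, F) (y, x) + θ (y, x))
      = u / 2 * G x
        + (avg (fun e : Dig => W η h L (u + rr η u * sg e.1) (fun y => Fe L F θ e (y, x)))
          + avg (fun e : Dig => W η h L (u - rr η u * sg e.1) (fun y => Fe L F θ e (y, x)))) / 2
        + |rr η u * G x / 4 + Dx η h L u F θ x| := by
    intro x
    rw [W_succ]
    simp only [key, avg_add]
    have e1 : avg (fun e : Dig => (1 / 2 + sg e.1 / 4) * G x * (u + rr η u * sg e.1))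
        = (u / 2 + rr η u / 4) * G x := by
      rw [avg_dig]; simp only [sg_true, sg_false]; ring
    have e2 : avg (fun e : Dig => (1 / 2 + sg e.1 / 4) * G x * (u - rr η u * sg e.1))
        = (u / 2 - rr η u / 4) * G x := by
      rw [avg_dig]; simp only [sg_true, sg_false]; ring
    rw [e1, e2, max_eq_half]
    unfold Dx
    set A := avg (fun e : Dig => W η h L (u + rr η u * sg e.1) (fun y => Fe L F θ e (y, x)))
    set B := avg (fun e : Dig => W η h L (u - rr η u * sg e.1) (fun y => Fe L F θ e (y, x)))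
    have : A + (u / 2 + rr η u / 4) * G x - (B + (u / 2 - rr η u / 4) * G x)
        = 2 * (rr η u * G x / 4 + (A - B) / 2) := by ring
    rw [this, abs_mul, abs_of_pos (by norm_num : (0 : ℝ) < 2)]
    ring
  have havg : avg (fun z : Grid (L + 1) × P => glue L (G, F) z + θ z)
      = avg G / 2 + avg (fun e : Dig => avg (Fe L F θ e)) := by
    rw [avg_prod, avg_grid_succ]
    have h1 : ∀ (e : Dig) (y : Grid L),
        avg (fun x : P => glue L (G, F) ((e, y), x) + θ ((e, y), x))
          = (1 / 2 + sg e.1 / 4 + sg e.2 / 2 * zeta L y) * avg G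
            + avg (fun x : P => Fe L F θ e (y, x)) := by
      intro e y
      rw [← avg_const_mul, ← avg_add]
      congr 1
      funext x
      simp only [glue, Fe, tent_succ]
      ring
    have h2 : ∀ e : Dig, avg (fun y : Grid L =>
        avg (fun x : P => glue L (G, F) ((e, y), x) + θ ((e, y), x)))
          = (1 / 2 + sg e.1 / 4) * avg G + avg (Fe L F θ e) := by
      intro e
      simp only [h1]
      rw [avg_add, avg_mul_const, avg_add, avg_const, avg_const_mul, avg_zeta,
        ← avg_prod (Fe L F θ e)]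
      ring
    show avg (fun e : Dig => avg (fun y : Grid L =>
        avg (fun x : P => glue L (G, F) ((e, y), x) + θ ((e, y), x)))) = _
    simp only [h2]
    rw [avg_add]
    congr 1
    rw [avg_dig]
    simp only [sg_true, sg_false]
    ring
  have hsym : ∀ e : Dig, avg (fun x : P => W η h L (u + rr η u * sg e.1) (fun y => Fe L F θ e (y, x)))
      + avg (fun x : P => W η h L (u - rr η u * sg e.1) (fun y => Fe L F θ e (y, x)))
      = wbar η h L (u + rr η u) (Fe L F θ e) + wbar η h L (u - rr η u) (Fe L F θ e)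
        + 2 * u * avg (Fe L F θ e) := by
    intro e
    obtain ⟨b, s⟩ := e
    unfold wbar
    cases b
    · simp only [sg_false, mul_neg, mul_one, sub_neg_eq_add, ← sub_eq_add_neg]
      ring
    · simp only [sg_true, mul_one]
      ring
  have hsw : ∀ (g : Dig → P → ℝ), avg (fun x : P => avg (fun e : Dig => g e x))
      = avg (fun e : Dig => avg (fun x : P => g e x)) := by
    intro g
    rw [← avg_prod (fun z : P × Dig => g z.2 z.1), avg_prod_right]
  conv_lhs => unfold wbar
  simp only [hW]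
  rw [havg, avg_add, avg_add, avg_const_mul]
  have h3 : avg (fun x : P =>
      (avg (fun e : Dig => W η h L (u + rr η u * sg e.1) (fun y => Fe L F θ e (y, x)))
        + avg (fun e : Dig => W η h L (u - rr η u * sg e.1) (fun y => Fe L F θ e (y, x)))) / 2)
      = avg (fun e : Dig => (wbar η h L (u + rr η u) (Fe L F θ e)
          + wbar η h L (u - rr η u) (Fe L F θ e)) / 2) + u * avg (fun e : Dig => avg (Fe L F θ e)) := by
    have h4 : avg (fun x : P =>
        (avg (fun e : Dig => W η h L (u + rr η u * sg e.1) (fun y => Fe L F θ e (y, x)))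
          + avg (fun e : Dig => W η h L (u - rr η u * sg e.1) (fun y => Fe L F θ e (y, x)))) / 2)
        = (avg (fun x : P =>
          (avg (fun e : Dig => W η h L (u + rr η u * sg e.1) (fun y => Fe L F θ e (y, x)))
          + avg (fun e : Dig => W η h L (u - rr η u * sg e.1) (fun y => Fe L F θ e (y, x)))))) / 2 := by
      have := avg_mul_const (1 / 2) (fun x : P =>
          (avg (fun e : Dig => W η h L (u + rr η u * sg e.1) (fun y => Fe L F θ e (y, x)))
          + avg (fun e : Dig => W η h L (u - rr η u * sg e.1) (fun y => Fe L F θ e (y, x)))))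
      simpa [div_eq_mul_inv] using this
    rw [h4, avg_add, hsw, hsw, ← avg_add]
    simp only [hsym]
    rw [avg_add, avg_const_mul]
    have h5 : avg (fun e : Dig => (wbar η h L (u + rr η u) (Fe L F θ e)
          + wbar η h L (u - rr η u) (Fe L F θ e)) / 2)
        = avg (fun e : Dig => wbar η h L (u + rr η u) (Fe L F θ e)
          + wbar η h L (u - rr η u) (Fe L F θ e)) / 2 := by
      have := avg_mul_const (1 / 2) (fun e : Dig => wbar η h L (u + rr η u) (Fe L F θ e)
          + wbar η h L (u - rr η u) (Fe L F θ e))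
      simpa [div_eq_mul_inv] using this
    rw [h5]
    ring
  rw [h3]
  ring

/-! ### Laplace transforms -/

lemma integrable_exp_neg {α : Type*} [MeasurableSpace α] {μ : Measure α} [IsFiniteMeasure μ]
    {F : α → ℝ} (hm : Measurable F) (h0 : ∀ x, 0 ≤ F x) :
    Integrable (fun x => Real.exp (-F x)) μ := by
  refine Integrable.of_bound (hm.neg.exp.aestronglyMeasurable) 1 (ae_of_all _ fun x => ?_)
  rw [Real.norm_eq_abs, abs_of_pos (Real.exp_pos _)]
  exact Real.exp_le_one_iff.2 (by linarith [h0 x])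

lemma integral_exp_neg_le_one {α : Type*} [MeasurableSpace α] {μ : Measure α}
    [IsProbabilityMeasure μ] {F : α → ℝ} (hm : Measurable F) (h0 : ∀ x, 0 ≤ F x) :
    ∫ x, Real.exp (-F x) ∂μ ≤ 1 := by
  calc ∫ x, Real.exp (-F x) ∂μ ≤ ∫ _x, (1 : ℝ) ∂μ := by
        refine integral_mono (integrable_exp_neg hm h0) (integrable_const _) fun x => ?_
        exact Real.exp_le_one_iff.2 (by linarith [h0 x])
    _ = 1 := by simp

/-- weighted form of the Cauchy-Schwarz inequality -/
lemma integral_exp_half {α : Type*} [MeasurableSpace α] {μ : Measure α} [IsProbabilityMeasure μ]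
    {A B : α → ℝ} (hA : Measurable A) (hB : Measurable B) (hA0 : ∀ x, 0 ≤ A x)
    (hB0 : ∀ x, 0 ≤ B x) {a b : ℝ}
    (ha : ∫ x, Real.exp (-A x) ∂μ ≤ Real.exp (-a)) (hb : ∫ x, Real.exp (-B x) ∂μ ≤ Real.exp (-b)) :
    ∫ x, Real.exp (-((A x + B x) / 2)) ∂μ ≤ Real.exp (-((a + b) / 2)) := by
  have iA := integrable_exp_neg (μ := μ) hA hA0
  have iB := integrable_exp_neg (μ := μ) hB hB0
  have hpt : ∀ x, Real.exp (-((A x + B x) / 2))
      ≤ Real.exp (-((a + b) / 2)) * ((Real.exp a * Real.exp (-A x)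
        + Real.exp b * Real.exp (-B x)) / 2) := by
    intro x
    have h1 : Real.exp (-((A x + B x) / 2))
        = Real.exp (-((a + b) / 2)) * (Real.exp ((a - A x) / 2) * Real.exp ((b - B x) / 2)) := by
      rw [← Real.exp_add, ← Real.exp_add]; congr 1; ring
    have h2 : Real.exp a * Real.exp (-A x) = Real.exp ((a - A x) / 2) ^ 2 := by
      rw [← Real.exp_add, ← Real.exp_nat_mul]; congr 1; push_cast; ring
    have h3 : Real.exp b * Real.exp (-B x) = Real.exp ((b - B x) / 2) ^ 2 := by
      rw [← Real.exp_add, ← Real.exp_nat_mul]; congr 1; push_cast; ring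
    rw [h1, h2, h3]
    have h4 := Real.exp_pos (-((a + b) / 2))
    have h5 := sq_nonneg (Real.exp ((a - A x) / 2) - Real.exp ((b - B x) / 2))
    apply mul_le_mul_of_nonneg_left _ h4.le
    nlinarith
  calc ∫ x, Real.exp (-((A x + B x) / 2)) ∂μ
      ≤ ∫ x, Real.exp (-((a + b) / 2)) * ((Real.exp a * Real.exp (-A x)
        + Real.exp b * Real.exp (-B x)) / 2) ∂μ := by
        refine integral_mono ?_ ?_ hpt
        · exact integrable_exp_neg ((hA.add hB).div_const 2) fun x => by
            have := hA0 x; have := hB0 x; linarith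
        · exact (((iA.const_mul _).add (iB.const_mul _)).div_const 2).const_mul _
    _ = Real.exp (-((a + b) / 2)) * ((Real.exp a * ∫ x, Real.exp (-A x) ∂μ
        + Real.exp b * ∫ x, Real.exp (-B x) ∂μ) / 2) := by
        rw [integral_const_mul, integral_div, integral_add (iA.const_mul _) (iB.const_mul _),
          integral_const_mul, integral_const_mul]
    _ ≤ Real.exp (-((a + b) / 2)) * ((Real.exp a * Real.exp (-a)
        + Real.exp b * Real.exp (-b)) / 2) := by gcongr
    _ = Real.exp (-((a + b) / 2)) := by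
        rw [← Real.exp_add, ← Real.exp_add]; simp

omit [Fintype P] in
lemma treeLaw_succ [Fintype P] (ν : ℕ → Measure (P → ℝ)) (h L : ℕ) :
    treeLaw ν (h + 1) (L + 1)
      = ((ν h).prod (Measure.pi fun _ : Dig => treeLaw ν h L)).map (glue L) := by
  rw [treeLaw]

/-- Fubini for a tree law -/
lemma integral_treeLaw_succ (ν : ℕ → Measure (P → ℝ)) (hν : ∀ J, IsProbabilityMeasure (ν J))
    (h L : ℕ) (Φ : (Grid (L + 1) × P → ℝ) → ℝ) (hΦ : Measurable Φ)
    (h0 : ∀ G F, 0 ≤ Φ (glue L (G, F))) :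
    ∫ f, Real.exp (-Φ f) ∂(treeLaw ν (h + 1) (L + 1))
      = ∫ F, ∫ G, Real.exp (-Φ (glue L (G, F))) ∂(ν h)
          ∂(Measure.pi fun _ : Dig => treeLaw ν h L) := by
  have hprob : IsProbabilityMeasure (treeLaw ν h L) := isProb_treeLaw ν hν h L
  have hprobh := hν h
  rw [treeLaw_succ]
  have h1 : AEStronglyMeasurable (fun f => Real.exp (-Φ f))
      (((ν h).prod (Measure.pi fun _ : Dig => treeLaw ν h L)).map (glue L)) :=
    hΦ.neg.exp.aestronglyMeasurable
  rw [integral_map (measurable_glue L).aemeasurable h1]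
  have h2 : Integrable (fun p : (P → ℝ) × (Dig → Grid L × P → ℝ) =>
      Real.exp (-Φ (glue L p))) ((ν h).prod (Measure.pi fun _ : Dig => treeLaw ν h L)) :=
    integrable_exp_neg (F := fun p => Φ (glue L p)) (hΦ.comp (measurable_glue L))
      fun p => h0 p.1 p.2
  exact integral_prod_symm _ h2

lemma fubini_step {α β : Type*} [MeasurableSpace α] [MeasurableSpace β] (κ : Measure α)
    (μ : Measure β) (Ψ : α → β → ℝ) (S : β → ℝ) (a : ℝ)
    (hS : Integrable (fun F => Real.exp (-S F)) μ)
    (hinner : ∀ F, ∫ G, Real.exp (-Ψ G F) ∂κ ≤ Real.exp (-a) * Real.exp (-S F)) :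
    ∫ F, ∫ G, Real.exp (-Ψ G F) ∂κ ∂μ ≤ Real.exp (-a) * ∫ F, Real.exp (-S F) ∂μ := by
  rw [← integral_const_mul]
  refine integral_mono_of_nonneg (ae_of_all _ fun F => ?_) (hS.const_mul _)
    (ae_of_all _ fun F => hinner F)
  exact integral_nonneg fun G => (Real.exp_pos _).le

/-- shift of the child field -/
noncomputable def shf (L : ℕ) (θ : Grid (L + 1) × P → ℝ) (e : Dig) (f : Grid L × P → ℝ) :
    Grid L × P → ℝ := fun z => f z + θ ((e, z.1), z.2)

omit [Fintype P] in
lemma continuous_shf (L : ℕ) (θ : Grid (L + 1) × P → ℝ) (e : Dig) :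
    Continuous (shf (P := P) L θ e) := by
  unfold shf
  exact continuous_pi fun z => (continuous_apply z).add continuous_const

omit [Fintype P] in
lemma Fe_eq (L : ℕ) (θ : Grid (L + 1) × P → ℝ) (e : Dig) (F : Dig → Grid L × P → ℝ) :
    Fe L F θ e = shf L θ e (F e) := rfl

/-- contribution of the child `e` -/
noncomputable def Ae (η Λ u : ℝ) (h L : ℕ) (θ : Grid (L + 1) × P → ℝ) (e : Dig)
    (f : Grid L × P → ℝ) : ℝ :=
  (Λ * wbar η h L (u + η) (shf L θ e f) + Λ * wbar η h L (u - η) (shf L θ e f)) / 2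

lemma continuous_wbar_shf (η Λ v : ℝ) (h L : ℕ) (θ : Grid (L + 1) × P → ℝ) (e : Dig) :
    Continuous (fun f : Grid L × P → ℝ => Λ * wbar η h L v (shf L θ e f)) := by
  have h1 := (continuous_wbar (P := P) η h L v).comp (continuous_shf L θ e)
  exact continuous_const.mul h1

lemma continuous_Ae (η Λ u : ℝ) (h L : ℕ) (θ : Grid (L + 1) × P → ℝ) (e : Dig) :
    Continuous (Ae η Λ u h L θ e) := by
  have h1 := continuous_wbar_shf η Λ (u + η) h L θ e
  have h2 := continuous_wbar_shf η Λ (u - η) h L θ e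
  unfold Ae
  exact (h1.add h2).div_const 2

lemma Ae_nonneg (η Λ u : ℝ) (h L : ℕ) (hh : h ≤ L) (hΛ : 0 ≤ Λ) (θ : Grid (L + 1) × P → ℝ)
    (e : Dig) (f : Grid L × P → ℝ) : 0 ≤ Ae η Λ u h L θ e f := by
  have h1 := mul_nonneg hΛ (wbar_nonneg η h L hh (u + η) (shf L θ e f))
  have h2 := mul_nonneg hΛ (wbar_nonneg η h L hh (u - η) (shf L θ e f))
  unfold Ae
  linarith

lemma hform (η Λ u : ℝ) (h L : ℕ) (hh : h ≤ L) (hu : |u| ≤ 3 / 4) (θ : Grid (L + 1) × P → ℝ)
    (G : P → ℝ) (F : Dig → Grid L × P → ℝ) :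
    4 * Λ * wbar η (h + 1) (L + 1) u (fun z => glue L (G, F) z + θ z)
      = ∑ e : Dig, Ae η Λ u h L θ e (F e)
        + 4 * Λ * avg (fun x => |η * G x / 4 + Dx η h L u F θ x|) := by
  have hr : rr η u = η := by unfold rr; rw [if_pos hu]
  rw [wbar_glue η h L hh, hr, mul_add, avg_dig, sum_dig]
  simp only [Fe_eq]
  unfold Ae
  ring

lemma hchild (ν : ℕ → Measure (P → ℝ)) (hν : ∀ J, IsProbabilityMeasure (ν J))
    (h L : ℕ) (hh : h ≤ L) (η Λ u : ℝ) (hΛ : 0 ≤ Λ)
    (θ : Grid (L + 1) × P → ℝ) (Cp Cm : ℝ)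
    (hp : ∀ θ' : Grid L × P → ℝ,
      ∫ f, Real.exp (-(Λ * wbar η h L (u + η) (fun z => f z + θ' z))) ∂(treeLaw ν h L)
        ≤ Real.exp (-Cp))
    (hm : ∀ θ' : Grid L × P → ℝ,
      ∫ f, Real.exp (-(Λ * wbar η h L (u - η) (fun z => f z + θ' z))) ∂(treeLaw ν h L)
        ≤ Real.exp (-Cm)) (e : Dig) :
    ∫ f, Real.exp (-Ae η Λ u h L θ e f) ∂(treeLaw ν h L) ≤ Real.exp (-((Cp + Cm) / 2)) := by
  have hprob : IsProbabilityMeasure (treeLaw ν h L) := isProb_treeLaw ν hν h L
  have h1 := hp fun z => θ ((e, z.1), z.2)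
  have h2 := hm fun z => θ ((e, z.1), z.2)
  exact integral_exp_half (μ := treeLaw ν h L)
    (A := fun f => Λ * wbar η h L (u + η) (shf L θ e f))
    (B := fun f => Λ * wbar η h L (u - η) (shf L θ e f))
    (continuous_wbar_shf η Λ (u + η) h L θ e).measurable
    (continuous_wbar_shf η Λ (u - η) h L θ e).measurable
    (fun f => mul_nonneg hΛ (wbar_nonneg η h L hh _ _))
    (fun f => mul_nonneg hΛ (wbar_nonneg η h L hh _ _)) h1 h2

/-- one step of the tree recursion for the Laplace transform -/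
lemma laplace_step (ν : ℕ → Measure (P → ℝ)) (hν : ∀ J, IsProbabilityMeasure (ν J))
    (h L : ℕ) (hh : h ≤ L) (η Λ u : ℝ) (hΛ : 0 ≤ Λ) (hu : |u| ≤ 3 / 4)
    (θ : Grid (L + 1) × P → ℝ) (a Cp Cm : ℝ)
    (hG : ∀ D : P → ℝ, ∫ G, Real.exp (-(4 * Λ * avg (fun x => |η * G x / 4 + D x|))) ∂(ν h)
      ≤ Real.exp (-a))
    (hp : ∀ θ' : Grid L × P → ℝ,
      ∫ f, Real.exp (-(Λ * wbar η h L (u + η) (fun z => f z + θ' z))) ∂(treeLaw ν h L)
        ≤ Real.exp (-Cp))
    (hm : ∀ θ' : Grid L × P → ℝ,
      ∫ f, Real.exp (-(Λ * wbar η h L (u - η) (fun z => f z + θ' z))) ∂(treeLaw ν h L)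
        ≤ Real.exp (-Cm)) :
    ∫ f, Real.exp (-(4 * Λ * wbar η (h + 1) (L + 1) u (fun z => f z + θ z)))
        ∂(treeLaw ν (h + 1) (L + 1))
      ≤ Real.exp (-(a + 4 * ((Cp + Cm) / 2))) := by
  have hprob : IsProbabilityMeasure (treeLaw ν h L) := isProb_treeLaw ν hν h L
  have hprobh := hν h
  have cw := continuous_wbar (P := P) η (h + 1) (L + 1) u
  have csh : Continuous (fun f : Grid (L + 1) × P → ℝ => fun z => f z + θ z) :=
    continuous_pi fun z => (continuous_apply z).add continuous_const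
  have hcont : Continuous (fun f : Grid (L + 1) × P → ℝ =>
      4 * Λ * wbar η (h + 1) (L + 1) u (fun z => f z + θ z)) := by
    have h1 := cw.comp csh
    exact continuous_const.mul h1
  have hS0 : ∀ (F : Dig → Grid L × P → ℝ), 0 ≤ ∑ e : Dig, Ae η Λ u h L θ e (F e) :=
    fun F => Finset.sum_nonneg fun e _ => Ae_nonneg η Λ u h L hh hΛ θ e (F e)
  have cS : Continuous (fun F : Dig → Grid L × P → ℝ => ∑ e : Dig, Ae η Λ u h L θ e (F e)) := by
    refine continuous_finsetSum _ fun e _ => ?_
    have h1 := continuous_Ae η Λ u h L θ e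
    exact h1.comp (continuous_apply e)
  have h0 : ∀ (G : P → ℝ) (F : Dig → Grid L × P → ℝ),
      0 ≤ 4 * Λ * wbar η (h + 1) (L + 1) u (fun z => glue L (G, F) z + θ z) := by
    intro G F
    rw [hform η Λ u h L hh hu]
    exact add_nonneg (hS0 F) (mul_nonneg (by linarith) (avg_nonneg fun x => abs_nonneg _))
  have hFub := integral_treeLaw_succ ν hν h L (fun f => 4 * Λ * wbar η (h + 1) (L + 1) u
    (fun z => f z + θ z)) hcont.measurable h0
  refine hFub.trans_le ?_
  clear hFub
  -- inner integral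
  have hinner : ∀ F : Dig → Grid L × P → ℝ,
      ∫ G, Real.exp (-(4 * Λ * wbar η (h + 1) (L + 1) u (fun z => glue L (G, F) z + θ z))) ∂(ν h)
        ≤ Real.exp (-a) * Real.exp (-∑ e : Dig, Ae η Λ u h L θ e (F e)) := by
    intro F
    simp only [hform η Λ u h L hh hu, neg_add, Real.exp_add]
    rw [integral_const_mul, mul_comm]
    exact mul_le_mul_of_nonneg_right (hG (Dx η h L u F θ)) (Real.exp_pos _).le
  have hprodexp : ∀ F : Dig → Grid L × P → ℝ,
      Real.exp (-∑ e : Dig, Ae η Λ u h L θ e (F e))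
        = ∏ e : Dig, Real.exp (-Ae η Λ u h L θ e (F e)) := by
    intro F
    rw [← Real.exp_sum, ← Finset.sum_neg_distrib]
  have hstep := fubini_step (ν h) (Measure.pi fun _ : Dig => treeLaw ν h L)
    (fun G F => 4 * Λ * wbar η (h + 1) (L + 1) u (fun z => glue L (G, F) z + θ z))
    (fun F => ∑ e : Dig, Ae η Λ u h L θ e (F e)) a (integrable_exp_neg cS.measurable hS0) hinner
  refine hstep.trans ?_
  clear hstep
  simp only [hprodexp]
  rw [integral_fintype_prod_eq_prod
    (fun (e : Dig) (f : Grid L × P → ℝ) => Real.exp (-Ae η Λ u h L θ e f))]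
  have hle : ∏ e : Dig, ∫ f, Real.exp (-Ae η Λ u h L θ e f) ∂(treeLaw ν h L)
      ≤ ∏ _e : Dig, Real.exp (-((Cp + Cm) / 2)) := by
    refine Finset.prod_le_prod (fun e _ => integral_nonneg fun f => (Real.exp_pos _).le)
      fun e _ => hchild ν hν h L hh η Λ u hΛ θ Cp Cm hp hm e
  calc Real.exp (-a) * ∏ e : Dig, ∫ f, Real.exp (-Ae η Λ u h L θ e f) ∂(treeLaw ν h L)
      ≤ Real.exp (-a) * ∏ _e : Dig, Real.exp (-((Cp + Cm) / 2)) :=
        mul_le_mul_of_nonneg_left hle (Real.exp_pos _).le
    _ = Real.exp (-(a + 4 * ((Cp + Cm) / 2))) := by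
        rw [Finset.prod_const, Finset.card_univ]
        have : Fintype.card Dig = 4 := rfl
        rw [this, ← Real.exp_nat_mul, ← Real.exp_add]
        congr 1
        push_cast
        ring

lemma pow_diff_le (x : ℝ) (hx : 0 ≤ x) (k : ℕ) :
    (x + 1) ^ (k + 1) ≤ x ^ (k + 1) + ((k : ℝ) + 1) * (x + 1) ^ k := by
  induction k with
  | zero => simp
  | succ k ih =>
    have h2 : x * (x + 1) ^ (k + 1) ≤ x * (x ^ (k + 1) + ((k : ℝ) + 1) * (x + 1) ^ k) :=
      mul_le_mul_of_nonneg_left ih hx
    have h3 : x * (((k : ℝ) + 1) * (x + 1) ^ k) ≤ ((k : ℝ) + 1) * (x + 1) ^ (k + 1) := by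
      have h1 : 0 ≤ (x + 1) ^ k := by positivity
      rw [pow_succ (x + 1) k]
      nlinarith [mul_nonneg (by positivity : (0:ℝ) ≤ (k : ℝ) + 1) h1]
    push_cast
    calc (x + 1) ^ (k + 1 + 1) = x * (x + 1) ^ (k + 1) + (x + 1) ^ (k + 1) := by ring
      _ ≤ x * (x ^ (k + 1) + ((k : ℝ) + 1) * (x + 1) ^ k) + (x + 1) ^ (k + 1) := by linarith
      _ = x ^ (k + 1 + 1) + x * (((k : ℝ) + 1) * (x + 1) ^ k) + (x + 1) ^ (k + 1) := by ring
      _ ≤ x ^ (k + 1 + 1) + ((k : ℝ) + 1) * (x + 1) ^ (k + 1) + (x + 1) ^ (k + 1) := by linarith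
      _ = x ^ (k + 1 + 1) + ((k : ℝ) + 1 + 1) * (x + 1) ^ (k + 1) := by ring

lemma sum_pow_ge (k : ℕ) (n : ℕ) :
    (n : ℝ) ^ (k + 1) / ((k : ℝ) + 1) ≤ ∑ i ∈ Finset.range n, ((i : ℝ) + 1) ^ k := by
  have hk : (0 : ℝ) < (k : ℝ) + 1 := by positivity
  induction n with
  | zero => simp
  | succ n ih =>
    rw [Finset.sum_range_succ]
    have h1 := pow_diff_le (n : ℝ) (by positivity) k
    rw [div_le_iff₀ hk] at ih ⊢
    push_cast
    nlinarith [h1, ih]

/-- exponent of the Laplace bound at height `h` -/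
noncomputable def SS (c lam : ℝ) (k h : ℕ) : ℝ :=
  c * lam / 16 * (4 ^ h / 4) * ∑ i ∈ Finset.range h, ((i : ℝ) + 1) ^ k

lemma SS_succ (c lam : ℝ) (k h : ℕ) :
    SS c lam k (h + 1) = 4 * SS c lam k h + c * (lam / 16) * 4 ^ h * ((h : ℝ) + 1) ^ k := by
  unfold SS
  rw [Finset.sum_range_succ]
  ring

lemma SS_nonneg {c lam : ℝ} (hc : 0 ≤ c) (hl : 0 ≤ lam) (k h : ℕ) : 0 ≤ SS c lam k h := by
  unfold SS
  positivity

/-- the Laplace bound at every node -/
lemma claim (L0 : ℕ) (ν : ℕ → Measure (P → ℝ)) (k : ℕ) (c : ℝ)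
    (hν : ∀ J, IsProbabilityMeasure (ν J)) (hc : 0 ≤ c) (hLB : LB L0 ν k c)
    (J : ℕ) (hJ : J < L0) (lam : ℝ) (hl0 : 0 < lam) (hl1 : lam ≤ 1)
    (η : ℝ) (hη : η = 1 / (4 * √((J : ℝ) + 1))) :
    ∀ h : ℕ, h ≤ J + 1 → ∀ L : ℕ, h ≤ L → ∀ (θ : Grid L × P → ℝ) (u : ℝ), |u| ≤ 1 →
      ∫ f, Real.exp (-(lam * (4 ^ h / 4) * √((J : ℝ) + 1) ^ (k + 1)
          * wbar η h L u (fun z => f z + θ z))) ∂(treeLaw ν h L)
        ≤ Real.exp (-(SS c lam k h * (1 - 16 / 9 * (u ^ 2 + h * η ^ 2)))) := by
  set M : ℝ := √((J : ℝ) + 1) with hM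
  have hM0 : 0 < M := Real.sqrt_pos.2 (by positivity)
  have hM1 : 1 ≤ M := by
    rw [hM, Real.one_le_sqrt]
    have : (0 : ℝ) ≤ J := by positivity
    linarith
  have hη0 : 0 < η := by rw [hη]; positivity
  have hη1 : η ≤ 1 / 4 := by
    rw [hη, div_le_div_iff₀ (by positivity) (by norm_num)]
    linarith
  have gen : ∀ (h L : ℕ), h ≤ L → ∀ (θ : Grid L × P → ℝ) (u : ℝ),
      ∫ f, Real.exp (-(lam * (4 ^ h / 4) * M ^ (k + 1)
          * wbar η h L u (fun z => f z + θ z))) ∂(treeLaw ν h L) ≤ 1 := by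
    intro h L hh θ u
    have hprob : IsProbabilityMeasure (treeLaw ν h L) := isProb_treeLaw ν hν h L
    have cw := continuous_wbar (P := P) η h L u
    have csh : Continuous (fun f : Grid L × P → ℝ => fun z => f z + θ z) :=
      continuous_pi fun z => (continuous_apply z).add continuous_const
    have hcont : Continuous (fun f : Grid L × P → ℝ =>
        lam * (4 ^ h / 4) * M ^ (k + 1) * wbar η h L u (fun z => f z + θ z)) := by
      have h1 := cw.comp csh
      exact continuous_const.mul h1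
    exact integral_exp_neg_le_one (F := fun f : Grid L × P → ℝ =>
        lam * (4 ^ h / 4) * M ^ (k + 1) * wbar η h L u (fun z => f z + θ z)) hcont.measurable
      fun f => mul_nonneg (by positivity) (wbar_nonneg η h L hh u _)
  intro h
  induction h with
  | zero =>
    intro _ L hh θ u _
    refine (gen 0 L hh θ u).trans ?_
    simp [SS]
  | succ h ih =>
    intro hhJ L hh θ u hu
    obtain ⟨l, rfl⟩ : ∃ l', L = l' + 1 := ⟨L - 1, by omega⟩
    have hS := SS_nonneg hc hl0.le k (h + 1)
    by_cases hact : |u| ≤ 3 / 4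
    · -- active node
      have hup : |u + η| ≤ 1 := by
        rw [abs_le] at hact ⊢
        constructor <;> linarith [hact.1, hact.2]
      have hum : |u - η| ≤ 1 := by
        rw [abs_le] at hact ⊢
        constructor <;> linarith [hact.1, hact.2]
      have hp := fun θ' => ih (by omega) l (by omega) θ' (u + η) hup
      have hm := fun θ' => ih (by omega) l (by omega) θ' (u - η) hum
      have hG : ∀ D : P → ℝ, ∫ G, Real.exp (-(4 * (lam * (4 ^ h / 4) * M ^ (k + 1))
          * avg (fun x => |η * G x / 4 + D x|))) ∂(ν h)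
            ≤ Real.exp (-(c * (lam / 16) * 4 ^ h * ((h : ℝ) + 1) ^ k)) := by
        intro D
        have hprobh := hν h
        have h1 := hLB h (by omega) (fun x => 4 / η * D x) (lam / 16) (by positivity) (by linarith)
        refine le_trans ?_ h1
        have key : ∀ G : P → ℝ, Real.exp (-(4 * (lam * (4 ^ h / 4) * M ^ (k + 1))
            * avg (fun x => |η * G x / 4 + D x|)))
            ≤ Real.exp (-(lam / 16 * 4 ^ h * √((h : ℝ) + 1) ^ k
              * avg (fun x => |G x + 4 / η * D x|))) := by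
          intro G
          apply Real.exp_le_exp.2
          apply neg_le_neg
          have e1 : avg (fun x => |η * G x / 4 + D x|)
              = η / 4 * avg (fun x => |G x + 4 / η * D x|) := by
            rw [← avg_const_mul]
            congr 1
            funext x
            have hη4 : 0 < η / 4 := by positivity
            have e7 : η * G x / 4 + D x = η / 4 * (G x + 4 / η * D x) := by
              field_simp
            rw [e7, abs_mul, abs_of_pos hη4]
          have e2 : 4 * (lam * (4 ^ h / 4) * M ^ (k + 1)) * (η / 4)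
              = lam / 16 * 4 ^ h * M ^ k := by
            rw [hη, pow_succ]
            field_simp
            ring
          rw [e1, ← mul_assoc, e2]
          apply mul_le_mul_of_nonneg_right _ (avg_nonneg fun x => abs_nonneg _)
          have e3 : √((h : ℝ) + 1) ≤ M := by
            apply Real.sqrt_le_sqrt
            have : (h : ℝ) ≤ J := by exact_mod_cast (by omega : h ≤ J)
            linarith
          gcongr
        have cavg : Continuous fun G : P → ℝ => avg (fun x => |η * G x / 4 + D x|) :=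
          continuous_avg fun x => (((continuous_const.mul (continuous_apply x)).div_const 4).add
            continuous_const).abs
        have cavg2 : Continuous fun G : P → ℝ => avg (fun x => |G x + 4 / η * D x|) :=
          continuous_avg fun x => ((continuous_apply x).add continuous_const).abs
        refine integral_mono ?_ ?_ key
        · exact integrable_exp_neg (F := fun G : P → ℝ => 4 * (lam * (4 ^ h / 4) * M ^ (k + 1))
            * avg (fun x => |η * G x / 4 + D x|)) (continuous_const.mul cavg).measurable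
            fun G => mul_nonneg (by positivity) (avg_nonneg fun x => abs_nonneg _)
        · exact integrable_exp_neg (F := fun G : P → ℝ => lam / 16 * 4 ^ h * √((h : ℝ) + 1) ^ k
            * avg (fun x => |G x + 4 / η * D x|)) (continuous_const.mul cavg2).measurable
            fun G => mul_nonneg (by positivity) (avg_nonneg fun x => abs_nonneg _)
      have hstep := laplace_step ν hν h l (by omega) η (lam * (4 ^ h / 4) * M ^ (k + 1)) u
        (by positivity) hact θ _ _ _ hG hp hm
      have e4 : lam * (4 ^ (h + 1) / 4) * M ^ (k + 1) = 4 * (lam * (4 ^ h / 4) * M ^ (k + 1)) := by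
        ring
      rw [e4]
      refine hstep.trans (Real.exp_le_exp.2 (neg_le_neg ?_))
      rw [SS_succ]
      have hSh := SS_nonneg hc hl0.le k h
      have ha : 0 ≤ c * (lam / 16) * 4 ^ h * ((h : ℝ) + 1) ^ k := by positivity
      push_cast
      have hq : 0 ≤ 16 / 9 * (u ^ 2 + ((h : ℝ) + 1) * η ^ 2) := by positivity
      have hmul := mul_nonneg ha hq
      nlinarith [hmul]
    · -- stopped node
      refine (gen (h + 1) (l + 1) hh θ u).trans (Real.one_le_exp ?_)
      rw [not_le] at hact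
      have hu2 : 9 / 16 ≤ u ^ 2 := by
        rw [← sq_abs]; nlinarith
      have h1 : 1 - 16 / 9 * (u ^ 2 + ((h + 1 : ℕ) : ℝ) * η ^ 2) ≤ 0 := by
        have : 0 ≤ ((h + 1 : ℕ) : ℝ) * η ^ 2 := by positivity
        linarith
      have := mul_nonpos_of_nonneg_of_nonpos hS h1
      linarith

end StepMod

open StepMod in
theorem step : StmtStep := by
  intro P _ _ L ν k c hν hc hLB J hJ θ lam hl0 hl1
  set M : ℝ := √((J : ℝ) + 1) with hM
  have hM0 : 0 < M := Real.sqrt_pos.2 (by positivity)
  have hM1 : 1 ≤ M := by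
    rw [hM, Real.one_le_sqrt]
    have : (0 : ℝ) ≤ J := by positivity
    linarith
  have hη0 : (0 : ℝ) ≤ 1 / (4 * M) := by positivity
  have hη1 : 1 / (4 * M) ≤ 1 / 4 := by
    rw [div_le_div_iff₀ (by positivity) (by norm_num)]
    linarith
  have h1 := claim L ν k c hν hc hLB J hJ lam hl0 hl1 (1 / (4 * M)) rfl (J + 1) le_rfl L hJ θ 0
    (by simp)
  have hprob : IsProbabilityMeasure (treeLaw ν (J + 1) L) := isProb_treeLaw ν hν _ _
  have e0 : lam * (4 ^ (J + 1) / 4) * M ^ (k + 1) = lam * 4 ^ J * M ^ (k + 1) := by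
    rw [pow_succ]; ring
  rw [← hM, e0] at h1
  have csh : Continuous (fun f : Grid L × P → ℝ => fun z => f z + θ z) :=
    continuous_pi fun z => (continuous_apply z).add continuous_const
  have c1 : Continuous (fun f : Grid L × P → ℝ =>
      lam * 4 ^ J * M ^ (k + 1) * wbar (1 / (4 * M)) (J + 1) L 0 (fun z => f z + θ z)) := by
    have h2 := (continuous_wbar (P := P) (1 / (4 * M)) (J + 1) L 0).comp csh
    exact continuous_const.mul h2
  have c2 : Continuous (fun f : Grid L × P → ℝ =>
      lam * 4 ^ J * M ^ (k + 1) * avg (fun z => |f z + θ z|)) :=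
    continuous_const.mul (continuous_avg fun z => ((continuous_apply z).add continuous_const).abs)
  have h2 : ∫ f, Real.exp (-(lam * 4 ^ J * M ^ (k + 1) * avg (fun z => |f z + θ z|)))
        ∂(treeLaw ν (J + 1) L)
      ≤ ∫ f, Real.exp (-(lam * 4 ^ J * M ^ (k + 1)
          * wbar (1 / (4 * M)) (J + 1) L 0 (fun z => f z + θ z))) ∂(treeLaw ν (J + 1) L) := by
    refine integral_mono ?_ ?_ fun f => ?_
    · exact integrable_exp_neg (F := fun f : Grid L × P → ℝ =>
        lam * 4 ^ J * M ^ (k + 1) * avg (fun z => |f z + θ z|)) c2.measurable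
        fun f => mul_nonneg (by positivity) (avg_nonneg fun z => abs_nonneg _)
    · exact integrable_exp_neg (F := fun f : Grid L × P → ℝ =>
        lam * 4 ^ J * M ^ (k + 1) * wbar (1 / (4 * M)) (J + 1) L 0 (fun z => f z + θ z))
        c1.measurable fun f => mul_nonneg (by positivity) (wbar_nonneg _ _ _ hJ _ _)
    · apply Real.exp_le_exp.2
      apply neg_le_neg
      exact mul_le_mul_of_nonneg_left (wbar_le hη0 hη1 (J + 1) L hJ _) (by positivity)
  refine (h2.trans h1).trans (Real.exp_le_exp.2 (neg_le_neg ?_))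
  have hMsq : M ^ 2 = (J : ℝ) + 1 := Real.sq_sqrt (by positivity)
  have e5 : 1 - 16 / 9 * ((0 : ℝ) ^ 2 + ((J + 1 : ℕ) : ℝ) * (1 / (4 * M)) ^ 2) = 8 / 9 := by
    have : ((J + 1 : ℕ) : ℝ) = M ^ 2 := by rw [hMsq]; push_cast; ring
    rw [this]
    field_simp
    norm_num
  rw [e5]
  unfold SS
  have h3 := sum_pow_ge k (J + 1)
  have e6 : ((J + 1 : ℕ) : ℝ) = (J : ℝ) + 1 := by push_cast; ring
  rw [e6] at h3
  have h4 : 0 ≤ c * lam / 16 * (4 ^ (J + 1) / 4) := by positivity
  have h5 := mul_le_mul_of_nonneg_left h3 h4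
  calc c / (18 * ((k : ℝ) + 1)) * lam * 4 ^ J * ((J : ℝ) + 1) ^ (k + 1)
      = c * lam / 16 * (4 ^ (J + 1) / 4) * (((J : ℝ) + 1) ^ (k + 1) / ((k : ℝ) + 1)) * (8 / 9) := by
        rw [pow_succ 4 J]
        field_simp
        ring
    _ ≤ c * lam / 16 * (4 ^ (J + 1) / 4) * (∑ i ∈ Finset.range (J + 1), ((i : ℝ) + 1) ^ k)
          * (8 / 9) := by gcongr

end Sheet
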